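import Pool.Agent.Lib.MP_1a91b9_nuW.WN.Defs

/-!
# G7, WN: the valuation arithmetic of the wild step
-/

set_option autoImplicit false

namespace Pool.Agent.Lib.MP_1a91b9_nuW.WN

theorem arith_fin (A : ValuationSubring ℂ) (ℓ : ℕ) [hℓ : Fact ℓ.Prime] (a d d' N L' : ℂ)
    (G τ : ZMod ℓ → ℂ) (ha : A.valuation a ^ 2 * A.valuation d = 1)
    (hG : ∀ j, j ≠ 0 → A.valuation (G j) ^ 2 * A.valuation d = 1)
    (hτ : ∀ j, j ≠ 0 → τ j * τ (-j) = N)
    (hL : L' * ∏ j ∈ Finset.univ.erase (0 : ZMod ℓ), τ j =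
      a * ∏ j ∈ Finset.univ.erase (0 : ZMod ℓ), G j)
    (hd : A.valuation d' = A.valuation N ^ (ℓ - 1) * A.valuation d ^ ℓ) :
    A.valuation L' ^ 2 * A.valuation d' = 1 := by
  have hcard : (Finset.univ.erase (0 : ZMod ℓ)).card = ℓ - 1 := by
    rw [Finset.card_erase_of_mem (Finset.mem_univ _), Finset.card_univ, ZMod.card]
  have h1 : (∏ j ∈ Finset.univ.erase (0 : ZMod ℓ), τ j) ^ 2 = N ^ (ℓ - 1) := by
    have h2 : ∏ j ∈ Finset.univ.erase (0 : ZMod ℓ), τ (-j) =
        ∏ j ∈ Finset.univ.erase (0 : ZMod ℓ), τ j := by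
      refine Finset.prod_bij' (fun j _ => -j) (fun j _ => -j) ?_ ?_ ?_ ?_ ?_
      · intro j hj
        rw [Finset.mem_erase] at hj ⊢
        exact ⟨neg_ne_zero.mpr hj.1, Finset.mem_univ _⟩
      · intro j hj
        rw [Finset.mem_erase] at hj ⊢
        exact ⟨neg_ne_zero.mpr hj.1, Finset.mem_univ _⟩
      · intro j _
        exact neg_neg j
      · intro j _
        exact neg_neg j
      · intro j _
        rfl
    have h3 : ∏ j ∈ Finset.univ.erase (0 : ZMod ℓ), (τ j * τ (-j)) = N ^ (ℓ - 1) := by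
      rw [← hcard, ← Finset.prod_const]
      refine Finset.prod_congr rfl fun j hj => ?_
      exact hτ j (Finset.mem_erase.mp hj).1
    rw [Finset.prod_mul_distrib, h2] at h3
    rw [sq, h3]
  have h4 : A.valuation N ^ (ℓ - 1) =
      A.valuation (∏ j ∈ Finset.univ.erase (0 : ZMod ℓ), τ j) ^ 2 := by
    rw [← map_pow, ← map_pow, h1]
  have h5 : A.valuation d ^ ℓ = A.valuation d * A.valuation d ^ (ℓ - 1) := by
    rw [← pow_succ', Nat.sub_add_cancel hℓ.out.one_le]
  have h6 : ∏ j ∈ Finset.univ.erase (0 : ZMod ℓ), (A.valuation (G j) ^ 2 * A.valuation d) = 1 :=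
    Finset.prod_eq_one fun j hj => hG j (Finset.mem_erase.mp hj).1
  rw [Finset.prod_mul_distrib, Finset.prod_const, hcard, Finset.prod_pow] at h6
  have h7 : A.valuation L' * A.valuation (∏ j ∈ Finset.univ.erase (0 : ZMod ℓ), τ j) =
      A.valuation a * ∏ j ∈ Finset.univ.erase (0 : ZMod ℓ), A.valuation (G j) := by
    rw [← map_mul, hL, map_mul, map_prod]
  calc A.valuation L' ^ 2 * A.valuation d' =
        (A.valuation L' * A.valuation (∏ j ∈ Finset.univ.erase (0 : ZMod ℓ), τ j)) ^ 2 *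
          (A.valuation d * A.valuation d ^ (ℓ - 1)) := by
        rw [hd, h4, h5, mul_pow, mul_assoc]
    _ = (A.valuation a ^ 2 * A.valuation d) *
        ((∏ j ∈ Finset.univ.erase (0 : ZMod ℓ), A.valuation (G j)) ^ 2 *
          A.valuation d ^ (ℓ - 1)) := by
        rw [h7, mul_pow]
        exact mul_mul_mul_comm _ _ _ _
    _ = 1 := by rw [ha, h6, mul_one]

/-- sums of values of bounded size -/
theorem arith_sum (A : ValuationSubring ℂ) {ι : Type*} (s : Finset ι) (c y : ι → ℂ) (d : ℂ)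
    (hc : ∀ i ∈ s, A.valuation (c i) ≤ 1)
    (hy : ∀ i ∈ s, A.valuation (y i) ^ 2 * A.valuation d ≤ 1) :
    A.valuation (∑ i ∈ s, c i * y i) ^ 2 * A.valuation d ≤ 1 := by
  obtain ⟨δ, hδ⟩ := IsAlgClosed.exists_pow_nat_eq d (n := 2) two_pos
  have key : ∀ z : ℂ, A.valuation z ^ 2 * A.valuation d = A.valuation (z * δ) ^ 2 := by
    intro z
    rw [← hδ, map_mul, map_pow, mul_pow]
  rw [key]
  have h1 : A.valuation ((∑ i ∈ s, c i * y i) * δ) ≤ 1 := by
    rw [Finset.sum_mul]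
    refine Valuation.map_sum_le _ fun i hi => ?_
    rw [mul_assoc, map_mul]
    have h2 : A.valuation (y i * δ) ≤ 1 := by
      have h3 := hy i hi
      rw [key] at h3
      exact (pow_le_one_iff_of_nonneg zero_le two_ne_zero).mp h3
    exact mul_le_one' (hc i hi) h2
  exact pow_le_one' h1 2

/-- a unit plus something smaller -/
theorem arith_add (A : ValuationSubring ℂ) (g y z d : ℂ)
    (hg : A.valuation g ^ 2 * A.valuation d = 1) (hz : A.valuation z < 1)
    (hy : A.valuation y ^ 2 * A.valuation d ≤ 1) :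
    A.valuation (g + z * y) ^ 2 * A.valuation d = 1 := by
  obtain ⟨δ, hδ⟩ := IsAlgClosed.exists_pow_nat_eq d (n := 2) two_pos
  have key : ∀ z : ℂ, A.valuation z ^ 2 * A.valuation d = A.valuation (z * δ) ^ 2 := by
    intro z
    rw [← hδ, map_mul, map_pow, mul_pow]
  rw [key] at hg hy ⊢
  have h1 : A.valuation (g * δ) = 1 := (pow_eq_one_iff_of_nonneg zero_le two_ne_zero).mp hg
  have h2 : A.valuation (y * δ) ≤ 1 := (pow_le_one_iff_of_nonneg zero_le two_ne_zero).mp hy
  have h3 : (g + z * y) * δ = g * δ + z * (y * δ) := by ring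
  have h4 : A.valuation (z * (y * δ)) < 1 := by
    rw [map_mul]
    exact mul_lt_one_of_lt_of_le hz h2
  rw [h3, Pool.Agent.Lib.MP_1a91b9_nuT.S4.val_unit_add A h1 h4, one_pow]

end Pool.Agent.Lib.MP_1a91b9_nuW.WN
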