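import Pool.Agent.Lib.MP_1a91b9_nuW.WN.Defs
import Pool.Agent.Lib.MP_1a91b9_nuX.AN.Cyc

/-!
# G7, WN: the factorisation of the L-series over a cyclic extension with wild ramification

The proofs of `AN.euler_cyc` and `AN.step_Lf` (nuX/AN/Cyc.lean), which use only the field `split` of `CFData`.
-/

set_option autoImplicit false

namespace Pool.Agent.Lib.MP_1a91b9_nuW.WN

variable [Pool.Agent.Lib.MP_1a91b9_nuT.CD]

open Pool.Agent.Lib.MP_1a91b9_nuT hiding cj
open NumberField IsDedekindDomain Module Pool.Agent.Lib.MP_1a91b9_nt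
  Pool.Agent.Lib.MP_1a91b9_nuT.S4 Pool.Agent.Lib.MP_1a91b9_nuG Pool.Agent.Lib.MP_1a91b9_nuX

universe u

section
variable {F F' : Type u} [Field F] [NumberField F] [Field F'] [NumberField F'] [Algebra F F']
  [Algebra K F] [Algebra K F'] [IsScalarTower K F F'] [HC]
  {ℓ : ℕ} [hℓ : Fact ℓ.Prime]

/-- The factorisation of the Euler factor. -/
private theorem cycw_euler [IsGalois F F'] (hL : Module.finrank F F' = ℓ)
    (x : HeightOneSpectrum (𝓞 F) → ZMod ℓ) 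
    (hx : ∀ v, ¬ Ram F' v → (x v = 0 ↔ Fintype.card (Over F' v) = ℓ)) (v : HeightOneSpectrum (𝓞 F))
    (s : ℂ) :
    ∏ w : Over F' v, (1 - AN.psbC F' w.1.asIdeal * (Ideal.absNorm w.1.asIdeal : ℂ) ^ (-s))⁻¹ =
      (1 - AN.psbC F v.asIdeal * (Ideal.absNorm v.asIdeal : ℂ) ^ (-s))⁻¹ *
      ∏ j ∈ Finset.univ.erase (0 : ZMod ℓ),
        (1 - AN.psbC F v.asIdeal * cj F' x j v * (Ideal.absNorm v.asIdeal : ℂ) ^ (-s))⁻¹ := by
  classical
  have hsplit : ∀ g : ZMod ℓ → ℂ, g 0 * ∏ j ∈ Finset.univ.erase (0 : ZMod ℓ), g j =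
      ∏ j, g j := fun g => Finset.mul_prod_erase _ _ (Finset.mem_univ 0)
  rcases cyc_cases hℓ.out hL v with ⟨h0, h1, h2⟩ | ⟨h0, h1, h2⟩ | ⟨h0, h1, h2⟩
  · have hx0 : x v = 0 := (hx v h0).mpr h1
    have hc : ∀ j, cj F' x j v = 1 := by
      intro j
      rw [cj, if_neg h0, hx0, mul_zero, AddChar.map_zero_eq_one]
    simp only [hc, mul_one]
    rw [hsplit (fun _ => (1 - AN.psbC F v.asIdeal * (Ideal.absNorm v.asIdeal : ℂ) ^ (-s))⁻¹)]
    rw [Finset.prod_congr rfl (g := fun _ =>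
      (1 - AN.psbC F v.asIdeal * (Ideal.absNorm v.asIdeal : ℂ) ^ (-s))⁻¹)]
    · rw [Finset.prod_const, Finset.prod_const, Finset.card_univ, h1, Finset.card_univ, ZMod.card]
    · intro w _
      have h3 := (h2 w).2
      rw [nrm_eq, nrm_eq] at h3
      rw [AN.psbC_over v w, (h2 w).1, pow_one, h3]
  · have hx0 : x v ≠ 0 := by
      intro h
      have := (hx v h0).mp h
      rw [h1] at this
      exact hℓ.out.one_lt.ne this
    have hc : ∀ j, cj F' x j v = ZMod.stdAddChar (j * x v) := by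
      intro j
      rw [cj, if_neg h0]
    have hc0 : cj F' x 0 v = 1 := by
      rw [hc, zero_mul, AddChar.map_zero_eq_one]
    have e1 : (1 - AN.psbC F v.asIdeal * (Ideal.absNorm v.asIdeal : ℂ) ^ (-s))⁻¹ =
        (1 - AN.psbC F v.asIdeal * cj F' x 0 v * (Ideal.absNorm v.asIdeal : ℂ) ^ (-s))⁻¹ := by
      rw [hc0, mul_one]
    rw [e1, hsplit (fun j => (1 - AN.psbC F v.asIdeal * cj F' x j v *
      (Ideal.absNorm v.asIdeal : ℂ) ^ (-s))⁻¹)]
    have e2 : ∏ j : ZMod ℓ, (1 - AN.psbC F v.asIdeal * cj F' x j v *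
        (Ideal.absNorm v.asIdeal : ℂ) ^ (-s)) =
        1 - (AN.psbC F v.asIdeal * (Ideal.absNorm v.asIdeal : ℂ) ^ (-s)) ^ ℓ := by
      rw [← prod_one_sub_mul (x v) hx0]
      refine Finset.prod_congr rfl fun j _ => ?_
      rw [hc]
      ring
    rw [Finset.prod_inv_distrib (f := fun j => 1 - AN.psbC F v.asIdeal * cj F' x j v *
      (Ideal.absNorm v.asIdeal : ℂ) ^ (-s)), e2]
    rw [Finset.prod_congr rfl (g := fun _ =>
      (1 - (AN.psbC F v.asIdeal * (Ideal.absNorm v.asIdeal : ℂ) ^ (-s)) ^ ℓ)⁻¹)]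
    · rw [Finset.prod_const, Finset.card_univ, h1, pow_one]
    · intro w _
      have h3 := (h2 w).2
      rw [nrm_eq, nrm_eq] at h3
      rw [AN.psbC_over v w, (h2 w).1, h3, mul_pow]
      congr 3
      rw [Nat.cast_pow, ← Complex.natCast_cpow_natCast_mul, Complex.cpow_nat_mul]
  · have hc : ∀ j, cj F' x j v = 0 := by
      intro j
      rw [cj, if_pos h0]
    simp only [hc, mul_zero, zero_mul, sub_zero, inv_one, Finset.prod_const_one, mul_one]
    rw [Finset.prod_congr rfl (g := fun _ =>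
      (1 - AN.psbC F v.asIdeal * (Ideal.absNorm v.asIdeal : ℂ) ^ (-s))⁻¹)]
    · rw [Finset.prod_const, Finset.card_univ, h1, pow_one]
    · intro w _
      have h3 := (h2 w).2
      rw [nrm_eq, nrm_eq] at h3
      rw [AN.psbC_over v w, (h2 w).1, pow_one, h3]

theorem step_LfW [IsGalois F F'] (hL : Module.finrank F F' = ℓ)
    (x : HeightOneSpectrum (𝓞 F) → ZMod ℓ)
    (hx : ∀ v, ¬ Ram F' v → (x v = 0 ↔ Fintype.card (Over F' v) = ℓ)) (s : ℂ) (hs : 2 < s.re) :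
    Lf (AN.psbC F') s = Lf (AN.psbC F) s *
      ∏ j ∈ Finset.univ.erase (0 : ZMod ℓ), Lf (AN.psChi (F := F) F' x j) s := by
  have h1 := (hasProd_Lf (AN.psbC F') (AN.psbC_one F') (AN.psbC_mul F') (1 / 2) (by norm_num)
    AN.norm_psbC_le s (by linarith)).2
  have h2 := hasProd_over (F := F) (F' := F') _ _ h1
  have h3 := (hasProd_Lf (AN.psbC F) (AN.psbC_one F) (AN.psbC_mul F) (1 / 2) (by norm_num)
    AN.norm_psbC_le s (by linarith)).2
  have h4 : HasProd (fun v : HeightOneSpectrum (𝓞 F) => ∏ j ∈ Finset.univ.erase (0 : ZMod ℓ),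
      (1 - AN.psChi (F := F) F' x j v.asIdeal * (Ideal.absNorm v.asIdeal : ℂ) ^ (-s))⁻¹)
      (∏ j ∈ Finset.univ.erase (0 : ZMod ℓ), Lf (AN.psChi (F := F) F' x j) s) :=
    hasProd_prod fun j _ => (hasProd_Lf (AN.psChi (F := F) F' x j) (AN.psChi_one x j)
      (AN.psChi_mul x j) (1 / 2) (by norm_num) (AN.norm_psChi_le x j) s (by linarith)).2
  refine h2.unique ?_
  have e : (fun v : HeightOneSpectrum (𝓞 F) => ∏ w : Over F' v,
      (1 - AN.psbC F' w.1.asIdeal * (Ideal.absNorm w.1.asIdeal : ℂ) ^ (-s))⁻¹) = fun v =>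
      (1 - AN.psbC F v.asIdeal * (Ideal.absNorm v.asIdeal : ℂ) ^ (-s))⁻¹ *
      ∏ j ∈ Finset.univ.erase (0 : ZMod ℓ),
      (1 - AN.psChi (F := F) F' x j v.asIdeal * (Ideal.absNorm v.asIdeal : ℂ) ^ (-s))⁻¹ := by
    funext v
    rw [cycw_euler hL x hx v s]
    simp only [AN.psChi, mulI_place]
  rw [e]
  exact h3.mul h4

end

end Pool.Agent.Lib.MP_1a91b9_nuW.WN
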