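import Pool.Agent.Lib.MP_1a91b9_nuW.WN.Defs
import Pool.Agent.Lib.MP_1a91b9_nuX.AN.Unfold

/-!
# G7, WN: the unfolding of the L-series with a weight

The proof of `AN.unfold_L` (nuX/AN/Unfold.lean) with two changes: the weight `X` is bounded by `B` instead of `1`
(`summable_ideals_mul F (fun I => psbC F I * X I) B (1 / 2)`; if `B < 0` there is nothing to do since `‖X 1‖ ≤ B`), and on the
class `i` the value `X (e ⟨i, r⟩)` is `h i r` (instead of the constant `X (J i)`), so it stays inside the sum: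
`g (e ⟨i, r⟩) = k i * N(b i) ^ s * (h i r * (conj (Nm r) * ‖Nm r‖ ^ (-2 s)))` by `unfold_term`. `span {t i} ⊔ m * b i = b i` is
`coprime_cofactor` (S4/Ray) from `J i * b i = span {t i}` and `IsCoprime (J i) m` of `unfold_index`.
-/

set_option autoImplicit false

namespace Pool.Agent.Lib.MP_1a91b9_nuW.WN

variable [Pool.Agent.Lib.MP_1a91b9_nuT.CD]

open Pool.Agent.Lib.MP_1a91b9_nuT hiding cj
open NumberField IsDedekindDomain Module Pool.Agent.Lib.MP_1a91b9_nt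
  Pool.Agent.Lib.MP_1a91b9_nuT.S4 Pool.Agent.Lib.MP_1a91b9_nuG Pool.Agent.Lib.MP_1a91b9_nuX

universe u

section
variable [HC] {F : Type u} [Field F] [NumberField F] [Algebra K F]

theorem unfold_W (c m : Ideal (𝓞 F)) (hc0 : c ≠ 0) (hm0 : m ≠ 0) (hm1 : m ≠ 1)
    (h3 : m ≤ Ideal.span {up HC.f F}) :
    ∃ (ι : Type u) (_ : Fintype ι) (b : ι → Ideal (𝓞 F)) (t : ι → 𝓞 F) (k : ι → ℂ),
      (∀ i, b i ≠ 0 ∧ IsCoprime (b i) c ∧ IsCoprime (b i) m ∧ t i ∈ b i ∧
        t i ∉ m * b i ∧ Ideal.span {t i} ⊔ m * b i = b i ∧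
        IsIntegral ℤ (k i * (Ideal.absNorm (b i) : ℂ))) ∧
      ∀ (X : Ideal (𝓞 F) → ℂ) (B : ℝ), (∀ I, ¬ IsCoprime I m → X I = 0) → (∀ I, ‖X I‖ ≤ B) →
      ∀ h : ι → 𝓞 F → ℂ, (∀ i I r, IsCoprime I m → r - t i ∈ m * b i →
        I * b i = Ideal.span {r} → X I = h i r) →
      ∀ A : ι → ℂ → ℂ, (∀ i R, IsRep m (b i) (t i) R → ∀ s : ℂ, 2 < s.re →
        HasSum (fun r : R => h i r * ((starRingEnd ℂ) (Nm ((r : 𝓞 F) : F)) *
          ((‖Nm ((r : 𝓞 F) : F)‖ : ℝ) : ℂ) ^ (-2 * s))) (A i s)) →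
      ∀ s : ℂ, 2 < s.re →
        Lf (fun I => AN.psbC F I * X I) s =
          ∑ i, k i * (Ideal.absNorm (b i) : ℂ) ^ s * A i s := by
  classical
  obtain ⟨ι, hι, b, t, J, hb, hunf⟩ := unfold_index m c hm0 hm1 hc0
  have h3m : Ideal.span {up HC.f F} ∣ m := Ideal.dvd_iff_le.mpr h3
  have hbm : ∀ i, IsCoprime (b i) m := fun i => (IsCoprime.of_mul_right_right (hb i).2.1)
  have hb2 : ∀ i, IsCoprime (b i) c := fun i =>
    IsCoprime.of_mul_right_left (hb i).2.1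
  have hb3 : ∀ i, IsCoprime (b i) (Ideal.span {up HC.f F}) := fun i =>
    (hbm i).of_isCoprime_of_dvd_right h3m
  have ht3 : ∀ i, IsCoprime (Ideal.span {t i}) (Ideal.span {up HC.f F}) := by
    intro i
    rw [← (hb i).2.2.2.2.2.1]
    exact ((hb i).2.2.2.2.2.2.of_isCoprime_of_dvd_right h3m).mul_left (hb3 i)
  choose ε hε using fun i => AN.psi_span (t i) (ht3 i)
  have hNb : ∀ i, (Ideal.absNorm (b i) : ℂ) ≠ 0 := by
    intro i
    have := Ideal.absNorm_ne_zero_iff_mem_nonZeroDivisors.mpr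
      (mem_nonZeroDivisors_iff_ne_zero.mpr (hb i).1)
    exact_mod_cast this
  have hpb : ∀ i, AN.psbC F (b i) ≠ 0 := by
    intro i h
    apply hNb i
    rw [← AN.psC_mul_psbC (b i) (hb3 i), h, mul_zero]
  refine ⟨ι, hι, b, t, fun i => (starRingEnd ℂ) (embK ((ε i : 𝓞 K) : K)) / AN.psbC F (b i),
    ?_, ?_⟩
  · intro i
    refine ⟨(hb i).1, hb2 i, hbm i, (hb i).2.2.1, (hb i).2.2.2.1,
      (coprime_cofactor (hb i).1 (hb i).2.2.2.2.2.1).1 (hb i).2.2.2.2.2.2, ?_⟩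
    rw [← AN.psC_mul_psbC (b i) (hb3 i)]
    have e : (starRingEnd ℂ) (embK ((ε i : 𝓞 K) : K)) / AN.psbC F (b i) *
        (AN.psC F (b i) * AN.psbC F (b i)) =
        (starRingEnd ℂ) (embK ((ε i : 𝓞 K) : K)) * AN.psC F (b i) := by
      field_simp [hpb i]
    rw [e]
    refine IsIntegral.mul ?_ (AN.isIntegral_psC _)
    have h : IsIntegral ℤ ((ε i : 𝓞 K) : K) := RingOfIntegers.isIntegral_coe _
    exact h.map ((starRingEnd ℂ).comp embK.toRingHom).toIntAlgHom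
  intro X B hX0 hXB h hXh A hA s hs
  choose R hR using fun i => exists_isRep m (b i) (t i)
  obtain ⟨e, hinj, he, hsurj⟩ := hunf R hR
  set g : Ideal (𝓞 F) → ℂ := fun I => AN.psbC F I * X I * (Ideal.absNorm I : ℂ) ^ (-s) with hg
  have hs0 : s.re ≠ 0 := by
    intro h
    rw [h] at hs
    linarith
  have hsum : Summable g := by
    refine Summable.of_norm ?_
    refine summable_ideals_mul F (fun I => AN.psbC F I * X I) B (1 / 2) (fun I => ?_) s
      (by linarith) hs0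
    rw [norm_mul, mul_comm B]
    exact mul_le_mul (AN.norm_psbC_le I) (hXB I) (norm_nonneg _) (by positivity)
  have hsupp : Function.support g ⊆ Set.range e := by
    intro I hI
    by_cases hc : IsCoprime I m
    · exact hsurj I hc
    · exfalso
      apply hI
      simp only [hg]
      rw [hX0 I hc, mul_zero, zero_mul]
  have h1 : Lf (fun I => AN.psbC F I * X I) s = ∑' x, g (e x) := (hinj.tsum_eq hsupp).symm
  rw [h1]
  have hsum' : Summable fun x => g (e x) := hsum.comp_injective hinj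
  rw [hsum'.tsum_sigma, tsum_fintype]
  refine Finset.sum_congr rfl fun i _ => ?_
  have hterm : ∀ r : R i, g (e ⟨i, r⟩) =
      (starRingEnd ℂ) (embK ((ε i : 𝓞 K) : K)) / AN.psbC F (b i) *
        (Ideal.absNorm (b i) : ℂ) ^ s * (h i r * ((starRingEnd ℂ) (Nm ((r : 𝓞 F) : F)) *
          ((‖Nm ((r : 𝓞 F) : F)‖ : ℝ) : ℂ) ^ (-2 * s))) := by
    intro r
    obtain ⟨g1, g2, g3⟩ := he ⟨i, r⟩
    have g2' : e ⟨i, r⟩ * b i = Ideal.span {(r : 𝓞 F)} := g2
    have hr0 : (r : 𝓞 F) ≠ 0 := by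
      intro h
      rw [h, Ideal.span_singleton_zero, ← Ideal.zero_eq_bot] at g2'
      rcases mul_eq_zero.mp g2' with h' | h'
      · exact ne_zero_of_coprime hm1 g1 h'
      · exact (hb i).1 h'
    have hrt : up HC.f F ∣ (r : 𝓞 F) - t i := by
      rw [← Ideal.mem_span_singleton]
      exact h3 (Ideal.mul_le_left ((hR i).mem r r.2))
    have hXh' : X (e ⟨i, r⟩) = h i r := hXh i _ _ g1 ((hR i).mem r r.2) g2'
    have h5 := AN.unfold_term (e ⟨i, r⟩) (b i) r (ε i) (hb i).1 hr0 (hpb i) g2' (hε i r hrt)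
      (X (e ⟨i, r⟩)) s
    simp only [hg]
    rw [h5, hXh']
    ring
  have h2 := (hA i (R i) (hR i) s hs).mul_left
    ((starRingEnd ℂ) (embK ((ε i : 𝓞 K) : K)) / AN.psbC F (b i) *
        (Ideal.absNorm (b i) : ℂ) ^ s)
  rw [tsum_congr hterm]
  exact h2.tsum_eq

end

end Pool.Agent.Lib.MP_1a91b9_nuW.WN
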