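import Pool.Agent.Lib.MP_1a91b9_nuW.WN.Good
import Pool.Agent.Lib.MP_1a91b9_nuW.WN.UnfW
import Pool.Agent.Lib.MP_1a91b9_nuW.WN.CycW
import Pool.Agent.Lib.MP_1a91b9_nuW.WN.Arith

/-!
# G7, WN: the cyclic step with wild ramification at an ordinary prime
-/

set_option autoImplicit false

namespace Pool.Agent.Lib.MP_1a91b9_nuW.WN

variable [Pool.Agent.Lib.MP_1a91b9_nuT.CD]

open Pool.Agent.Lib.MP_1a91b9_nuT hiding cj
open NumberField IsDedekindDomain Module Pool.Agent.Lib.MP_1a91b9_nt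
  Pool.Agent.Lib.MP_1a91b9_nuT.S4 Pool.Agent.Lib.MP_1a91b9_nuG Pool.Agent.Lib.MP_1a91b9_nuX

universe u

section
variable [HC] {F F' : Type u} [Field F] [NumberField F] [Field F'] [NumberField F'] [Algebra F F']
  [Algebra K F] {ℓ : ℕ} [hℓ : Fact ℓ.Prime] {p : 𝓞 K} {f C C₁ f₂ C₂ m : Ideal (𝓞 F)}
  {S B : Finset (HeightOneSpectrum (𝓞 F))} {k : ℕ} {x : HeightOneSpectrum (𝓞 F) → ZMod ℓ}

variable [Algebra K F'] [IsScalarTower K F F']

/-- THE CYCLIC STEP with wild ramification. -/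
theorem stepW [IsGalois F F'] (hL : Module.finrank F F' = ℓ) (hp : Spl p ℓ)
    (hfℓ : IsCoprime HC.f (ℓ : 𝓞 K)) (hx : WX ℓ F' x f)
    (hadm : ∀ v : HeightOneSpectrum (𝓞 F), Ram F' v → up HC.f F ∉ v.asIdeal →
      IsCoprime (psi F v.asIdeal - 1) (ℓ : 𝓞 K)) (ε : 𝓞 K) (hε : IsCoprime ε (ℓ : 𝓞 K))
    (hV : ValW p ℓ (ε ^ ℓ) F) (hU : UnitW p F) : UnitW p F' := by
  classical
  obtain ⟨C, C₁, f₂, C₂, m, S, B, k, h⟩ := exists_SD (F' := F') hp hfℓ x f hx
  have hfin : Finite (𝓞 F ⧸ C) := Ideal.finiteQuotientOfFreeOfNeBot C h.C0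
  have hft : Fintype (𝓞 F ⧸ C) := Fintype.ofFinite _
  obtain ⟨θ, hθ1, hθ⟩ := exists_theta C h.C0
  obtain ⟨e₀, he₀⟩ := h.exists_LD hp x hx 1 one_ne_zero isCoprime_one_left
  set τ : ZMod ℓ → ℂ := fun j => tauW x C e₀ θ j with hτ
  have hτ1 : ∀ j, j ≠ 0 → τ j * τ (-j) = (Ideal.absNorm C : ℂ) := fun j hj =>
    SD.tauW_mul hp h hx he₀ hθ1 hθ j hj
  have hℓ0 : Ideal.span {(ℓ : 𝓞 F)} ≠ 0 := by
    rw [Ne, Ideal.zero_eq_bot, Ideal.span_singleton_eq_bot]
    exact_mod_cast hℓ.out.ne_zero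
  obtain ⟨ι, hι, b, t, κ, hb, hunf⟩ := unfold_W (Ideal.span {(ℓ : 𝓞 F)}) m hℓ0 h.m0 h.m1 h.m3
  choose e he using fun i => h.exists_LD hp x hx (b i) (hb i).1 (hb i).2.1
  obtain ⟨L, hLd, hL1, hLW⟩ := hU
  -- the continuation of the L-series over `F'`
  obtain ⟨q, hq, hfq, -, hVq⟩ := AN.exists_valueProp F' (1 : Ideal (𝓞 F')) one_ne_zero
  obtain ⟨L', hLd', hL1'⟩ := AN.exists_cont hq.ne_zero hfq hVq
  refine ⟨L', hLd', hL1', fun A hA d' hd' => ?_⟩
  obtain ⟨d, hd⟩ := (IsPrincipalIdealRing.principal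
    (Ideal.relNorm (𝓞 K) (differentIdeal (𝓞 K) (𝓞 F)))).principal
  rw [Ideal.submodule_span_eq] at hd
  set ζ : ℂ := ZMod.stdAddChar (1 : ZMod ℓ) with hζ
  have hζℓ : ζ ^ ℓ = 1 := by
    rw [hζ, ← AddChar.map_nsmul_eq_pow, nsmul_one, CharP.cast_eq_zero, AddChar.map_zero_eq_one]
  have hζ1 : ζ - 1 ≠ 0 := by
    rw [sub_ne_zero, hζ, ← AddChar.map_zero_eq_one (ZMod.stdAddChar (N := ℓ))]
    intro h'
    exact one_ne_zero (ZMod.injective_stdAddChar h')
  have hAℓ : (ℓ : ℂ)⁻¹ ∉ A := ell_notMem hp hA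
  have hζv : A.valuation (ζ - 1) < 1 := val_root A hAℓ ζ hζℓ
  set n := Module.finrank K F with hn_def
  have hn2 : Module.finrank K F' = n * ℓ := by
    rw [← Module.finrank_mul_finrank K F F', hL]
  -- the values of the partial series
  have hm3' : ∀ i, t i ∉ m * b i := fun i => (hb i).2.2.2.2.1
  have hval0 := fun i => hV m (b i) (t i) h.m0 h.m3 h.mℓ (hb i).1 (hb i).2.1 (hb i).2.2.2.1
    (hm3' i) k A _ hA (SD.goodW_zero hp h hx (he i) hθ1 hθ ε hε A (t i) (hb i).2.2.2.1)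
  choose g0 hg0d hg0s hg0v using hval0
  have hvalD := fun (j : {j : ZMod ℓ // j ≠ 0}) i => hV m (b i) (t i) h.m0 h.m3 h.mℓ (hb i).1
    (hb i).2.1 (hb i).2.2.2.1 (hm3' i) k A _ hA (SD.goodW hp h hx (he i) hθ1 hθ ε hε j.1 j.2 A
      (t i) (hb i).2.2.2.1 (hm3' i) (hb i).2.2.2.2.2.1)
  choose gD hgDd hgDs hgDv using hvalD
  have hNb : ∀ i, (Ideal.absNorm (b i) : ℂ) ≠ 0 := by
    intro i
    have := Ideal.absNorm_ne_zero_iff_mem_nonZeroDivisors.mpr
      (mem_nonZeroDivisors_iff_ne_zero.mpr (hb i).1)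
    exact_mod_cast this
  have hcd : ∀ i, Differentiable ℂ fun s : ℂ => κ i * (Ideal.absNorm (b i) : ℂ) ^ s := fun i =>
    (differentiable_const _).mul (differentiable_id.const_cpow (Or.inl (hNb i)))
  set G0 : ℂ → ℂ := fun s => ∑ i, κ i * (Ideal.absNorm (b i) : ℂ) ^ s * g0 i s with hG0
  set GD : {j : ZMod ℓ // j ≠ 0} → ℂ → ℂ := fun j s =>
    ∑ i, κ i * (Ideal.absNorm (b i) : ℂ) ^ s * gD j i s with hGD
  have hG0d : Differentiable ℂ G0 := Differentiable.fun_sum fun i _ => (hcd i).mul (hg0d i)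
  have hGDd : ∀ j, Differentiable ℂ (GD j) := fun j =>
    Differentiable.fun_sum fun i _ => (hcd i).mul (hgDd j i)
  -- the trivial character
  have hG0L : ∀ s : ℂ, 2 < s.re → G0 s = Lf (AN.psbC F) s * ER S B C₂ s := by
    intro s hs
    obtain ⟨Bd, hBd⟩ := norm_ramW S C₂
    rw [← Lf_ram (C₁ * m) S B C₂ h.C₂0 (fun v hv => (h.S_ram hp hfℓ v hv).2.2.2) (h.C₂_cop hp)
      h.memB s hs]
    refine (hunf (fun I => indC (C₁ * m) I * ramW S C₂ I) Bd ?_ ?_
      (fun i => HW x C (C₁ * m) (b i) (e i) θ 0) ?_ g0 hg0s s hs).symm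
    · intro I hI
      rw [indC_of_not (fun h' => hI (h'.of_mul_right_right)), zero_mul]
    · intro I
      rw [norm_mul]
      calc ‖indC (C₁ * m) I‖ * ‖ramW S C₂ I‖ ≤ 1 * Bd :=
            mul_le_mul (norm_indC_le _ I) (hBd I) (norm_nonneg _) zero_le_one
        _ = Bd := one_mul _
    · intro i I r hI _ hIr
      exact (SD.HW_zero hp h hx (he i) hθ1 hθ I r hIr).symm
  -- the other characters
  have hGDL : ∀ (j : ZMod ℓ) (hj : j ≠ 0), ∀ s : ℂ, 2 < s.re →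
      G0 s + (ζ - 1) * GD ⟨j, hj⟩ s = τ j * Lf (AN.psChi (F := F) F' x j) s := by
    intro j hj s hs
    have e1 := hunf (fun I => τ j * chiM F' x m j I) ‖τ j‖ ?_ ?_
      (fun i => HW x C (C₁ * m) (b i) (e i) θ j) ?_
      (fun i s => g0 i s + (ζ - 1) * gD ⟨j, hj⟩ i s) ?_ s hs
    · have e2 : Lf (fun I => AN.psbC F I * (τ j * chiM F' x m j I)) s =
          τ j * Lf (AN.psChi (F := F) F' x j) s := by
        rw [Lf, Lf, ← tsum_mul_left]
        refine tsum_congr fun I => ?_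
        rw [AN.psChi_eq x m h.mv j I]
        ring
      rw [← e2, e1, hG0, hGD]
      simp only [Finset.mul_sum, ← Finset.sum_add_distrib]
      refine Finset.sum_congr rfl fun i _ => ?_
      ring
    · intro I hI
      rw [chiM_of_not hI, mul_zero]
    · intro I
      rw [norm_mul]
      exact mul_le_of_le_one_right (norm_nonneg _) (norm_chiM_le x m j I)
    · intro i I r hI _ hIr
      have e3 := SD.HW_val hp h hx (he i) hθ1 hθ j hj I r hIr hI
      have e4 : tauW x C (e i) θ j = τ j := tauW_indep (M' := C₁ * m) (he i) he₀ j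
      rw [e4] at e3
      exact e3.symm
    · intro i R hR s hs
      have h1 := (hg0s i R hR s hs).add ((hgDs ⟨j, hj⟩ i R hR s hs).mul_left (ζ - 1))
      have h2 : (fun r : R => HW x C (C₁ * m) (b i) (e i) θ j r *
          ((starRingEnd ℂ) (Nm ((r : 𝓞 F) : F)) *
            ((‖Nm ((r : 𝓞 F) : F)‖ : ℝ) : ℂ) ^ (-2 * s))) =
          fun r : R => HW x C (C₁ * m) (b i) (e i) θ 0 r *
            ((starRingEnd ℂ) (Nm ((r : 𝓞 F) : F)) *
              ((‖Nm ((r : 𝓞 F) : F)‖ : ℝ) : ℂ) ^ (-2 * s)) +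
            (ζ - 1) * ((HW x C (C₁ * m) (b i) (e i) θ j r - HW x C (C₁ * m) (b i) (e i) θ 0 r) /
              (ζ - 1) * ((starRingEnd ℂ) (Nm ((r : 𝓞 F) : F)) *
              ((‖Nm ((r : 𝓞 F) : F)‖ : ℝ) : ℂ) ^ (-2 * s))) := by
        funext r
        field_simp
        ring
      rw [h2]
      exact h1
  -- identities of entire functions
  have id1 : G0 = fun s => L s * ER S B C₂ s := by
    refine entire_eq hG0d (hLd.mul (ER_diff S B C₂ h.C₂0)) fun s hs => ?_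
    rw [hG0L s hs, hL1 s hs]
  set G1 : ZMod ℓ → ℂ → ℂ := fun j s =>
    if hj : j ≠ 0 then G0 s + (ζ - 1) * GD ⟨j, hj⟩ s else 0 with hG1
  have hG1d : ∀ j, Differentiable ℂ (G1 j) := by
    intro j
    by_cases hj : j ≠ 0
    · have e1 : G1 j = fun s => G0 s + (ζ - 1) * GD ⟨j, hj⟩ s := by
        rw [hG1]
        funext s
        exact dif_pos hj
      rw [e1]
      exact hG0d.add ((differentiable_const _).mul (hGDd _))
    · have e1 : G1 j = fun _ => 0 := by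
        rw [hG1]
        funext s
        exact dif_neg hj
      rw [e1]
      exact differentiable_const _
  have id2 : (fun s => L' s * ∏ j ∈ Finset.univ.erase (0 : ZMod ℓ), τ j) = fun s => L s *
      ∏ j ∈ Finset.univ.erase (0 : ZMod ℓ), G1 j s := by
    refine entire_eq (hLd'.mul (differentiable_const _))
      (hLd.mul (Differentiable.fun_finsetProd fun j _ => hG1d j)) fun s hs => ?_
    rw [hL1' s hs, step_LfW hL x hx.split s hs, hL1 s hs, mul_assoc, ← Finset.prod_mul_distrib]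
    congr 1
    refine Finset.prod_congr rfl fun j hj => ?_
    have hj0 : j ≠ 0 := (Finset.mem_erase.mp hj).1
    have e1 : G1 j s = G0 s + (ζ - 1) * GD ⟨j, hj0⟩ s := dif_pos hj0
    rw [e1, hGDL j hj0 s hs, mul_comm]
  -- the values
  have v0 : A.valuation (G0 1 / Om ^ n) ^ 2 * A.valuation (embK (d : K)) = 1 := by
    have e1 : G0 1 / Om ^ n = (L 1 / Om ^ n) * ER S B C₂ 1 := by
      rw [id1]
      ring
    rw [e1, map_mul, h.val_ER hp hfℓ hadm hA, mul_one]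
    exact hLW A hA d hd
  have vD : ∀ j, A.valuation (GD j 1 / Om ^ n) ^ 2 * A.valuation (embK (d : K)) ≤ 1 := by
    intro j
    have e1 : GD j 1 / Om ^ n =
        ∑ i, (κ i * (Ideal.absNorm (b i) : ℂ)) * (gD j i 1 / Om ^ n) := by
      rw [hGD]
      simp only [Complex.cpow_one, Finset.sum_div]
      refine Finset.sum_congr rfl fun i _ => ?_
      ring
    rw [e1]
    exact arith_sum A _ _ _ _ (fun i _ => val_integral A (hb i).2.2.2.2.2.2)
      fun i _ => hgDv j i d hd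
  have v1 : ∀ j, j ≠ 0 → A.valuation (G1 j 1 / Om ^ n) ^ 2 *
      A.valuation (embK (d : K)) = 1 := by
    intro j hj
    have e1 : G1 j 1 / Om ^ n =
        G0 1 / Om ^ n + (ζ - 1) * (GD ⟨j, hj⟩ 1 / Om ^ n) := by
      have e2 : G1 j 1 = G0 1 + (ζ - 1) * GD ⟨j, hj⟩ 1 := dif_pos hj
      rw [e2]
      ring
    rw [e1]
    exact arith_add A _ _ _ _ v0 hζv (vD ⟨j, hj⟩)
  rw [hn2]
  refine arith_fin A ℓ (L 1 / Om ^ n) (embK (d : K)) (embK (d' : K)) (Ideal.absNorm C : ℂ)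
    (L' 1 / Om ^ (n * ℓ)) (fun j => G1 j 1 / Om ^ n) τ (hLW A hA d hd) v1 hτ1 ?_ ?_
  · have hcard : (Finset.univ.erase (0 : ZMod ℓ)).card = ℓ - 1 := by
      rw [Finset.card_erase_of_mem (Finset.mem_univ _), Finset.card_univ, ZMod.card]
    have hpow : Om ^ (n * ℓ) = Om ^ n * (Om ^ n) ^ (ℓ - 1) := by
      rw [← pow_succ', Nat.sub_add_cancel hℓ.out.one_le, pow_mul]
    have e1 := congrFun id2 1
    beta_reduce at e1
    rw [Finset.prod_div_distrib, Finset.prod_const, hcard, hpow, div_mul_eq_mul_div, e1,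
      mul_div_mul_comm]
  · exact disc_val hp hA hL x f hx C C₁ f₂ k h.dec h.Cp h.C₁p h.f₂ℓ d d' hd hd'

end

end Pool.Agent.Lib.MP_1a91b9_nuW.WN
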