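import Pool.Agent.Lib.MP_1a91b9_nuW.WN.LocG

/-!
# G7, WN: the character of `(r) b⁻¹` as a product

Proof of `chi_eq`. `chiM_of hIm`: the left side is `mulI (cj F' x j) I`. Case 1: `I` is coprime to `C` and to `C₁`. Then `I` is
coprime to `M = C₁ * m` and to `f` (`f ∣ C * M`, h.dvd), `mulI_cj x f (fun v hv => (hsupp v).mpr hv) j I hI0 hIf`
(nuG/RayC) gives `stdAddChar (j * addI x I)` (`I ≠ 0` by `ne_zero_of_coprime h.M1`), and `LD.main` is the claim.
Case 2: otherwise there is a place `v` with `I ≤ v` and `C ≤ v` or `C₁ ≤ v` (a maximal ideal above `I ⊔ C` or `I ⊔ C₁`; not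
`⊥` since `C ≠ 0`, and `C₁ ≠ 0` as `M ≠ 0`), so `f ≤ v` (`C ∣ f`, `C₁ ∣ f`), `v` is ramified: `cj F' x j v = 0` and, writing
`I = v * J`, the left side is `0` (`mulI_mul`, `mulI_place`). On the right: if `I` is not coprime to `C` then `span {r} = I * b` is not
coprime to `C`, `kap = 0` (`kap_of_not`); if `I` is not coprime to `C₁` then not to `M`, so `span {r} ⊔ M * b ≠ b` by
`coprime_cofactor` and `gW = 0` (`gW_of_not`).
-/

set_option autoImplicit false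

namespace Pool.Agent.Lib.MP_1a91b9_nuW.WN

variable [Pool.Agent.Lib.MP_1a91b9_nuT.CD]

open Pool.Agent.Lib.MP_1a91b9_nuT hiding cj
open NumberField IsDedekindDomain Module Pool.Agent.Lib.MP_1a91b9_nt
  Pool.Agent.Lib.MP_1a91b9_nuT.S4 Pool.Agent.Lib.MP_1a91b9_nuG Pool.Agent.Lib.MP_1a91b9_nuX

universe u

section
variable {F F' : Type u} [Field F] [NumberField F] [Field F'] [NumberField F'] [Algebra F F']
  {ℓ : ℕ} [hℓ : Fact ℓ.Prime]
  {x : HeightOneSpectrum (𝓞 F) → ZMod ℓ} {f C M b : Ideal (𝓞 F)} {e : 𝓞 F}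

private theorem chi_zero {D I : Ideal (𝓞 F)} (hD0 : D ≠ 0) (hD : D ∣ f)
    (hsupp : ∀ v : HeightOneSpectrum (𝓞 F), f ≤ v.asIdeal ↔ Ram F' v)
    (j : ZMod ℓ) (hI : ¬ IsCoprime I D) : mulI (cj F' x j) I = 0 := by
  have h1 : I ⊔ D ≠ ⊤ := fun h => hI (Ideal.isCoprime_iff_sup_eq.2 h)
  obtain ⟨P, hP, hle⟩ := Ideal.exists_le_maximal _ h1
  have hPD : D ≤ P := le_sup_right.trans hle
  have hPI : I ≤ P := le_sup_left.trans hle
  have hP0 : P ≠ ⊥ := by
    rintro rfl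
    exact hD0 (le_bot_iff.1 hPD)
  have hfP : f ≤ P := (Ideal.le_of_dvd hD).trans hPD
  have hR : Ram F' (⟨P, hP.isPrime, hP0⟩ : HeightOneSpectrum (𝓞 F)) := (hsupp ⟨P, hP.isPrime, hP0⟩).1 hfP
  obtain ⟨J, hJ⟩ := Ideal.dvd_iff_le.2 hPI
  have h2 : mulI (cj F' x j) P = 0 := by
    have h3 := mulI_place (cj F' x j) (⟨P, hP.isPrime, hP0⟩ : HeightOneSpectrum (𝓞 F))
    rw [show (⟨P, hP.isPrime, hP0⟩ : HeightOneSpectrum (𝓞 F)).asIdeal = P from rfl] at h3
    rw [h3, cj, if_pos hR]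
  rw [hJ, mulI_mul, h2, zero_mul]

theorem LD.chi_eq (h : LD x f C M b e) (C₁ m : Ideal (𝓞 F)) (hM : M = C₁ * m) (hCf : C ∣ f)
    (hC₁ : C₁ ∣ f) (hsupp : ∀ v : HeightOneSpectrum (𝓞 F), f ≤ v.asIdeal ↔ Ram F' v)
    (j : ZMod ℓ) (I : Ideal (𝓞 F)) (r : 𝓞 F) (hI : I * b = Ideal.span {r})
    (hIm : IsCoprime I m) :
    chiM F' x m j I = kap x C e j r * gW x M b e j r := by
  rw [chiM_of hIm]
  by_cases hIC : IsCoprime I C
  · by_cases hIC1 : IsCoprime I C₁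
    · have hIM : IsCoprime I M := by
        rw [hM]
        exact hIC1.mul_right hIm
      have hIf : IsCoprime I f := (hIC.mul_right hIM).of_isCoprime_of_dvd_right h.dvd
      have hI0 : I ≠ 0 := ne_zero_of_coprime h.M1 hIM
      rw [mulI_cj x f (fun v hv => (hsupp v).mpr hv) j I hI0 hIf]
      exact h.main j I r hI hIC hIM
    · have hC10 : C₁ ≠ 0 := by
        rintro rfl
        exact h.M0 (by rw [hM, zero_mul])
      rw [chi_zero hC10 hC₁ hsupp j hIC1, gW_of_not, mul_zero]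
      rw [← coprime_cofactor h.b0 hI, hM]
      exact fun h1 => hIC1 h1.of_mul_right_left
  · rw [chi_zero h.C0 hCf hsupp j hIC, kap_of_not, zero_mul]
    rw [← hI]
    exact fun h1 => hIC h1.of_mul_left_left

end

end Pool.Agent.Lib.MP_1a91b9_nuW.WN
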