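import Pool.Agent.Lib.MP_1a91b9_nuW.Defs

/-!
# G7, stream WN: decomposition of the conductor
-/

set_option autoImplicit false

namespace Pool.Agent.Lib.MP_1a91b9_nuW.WN

variable [Pool.Agent.Lib.MP_1a91b9_nuT.CD]

open Pool.Agent.Lib.MP_1a91b9_nuT hiding cj
open NumberField IsDedekindDomain Module Pool.Agent.Lib.MP_1a91b9_nt
  Pool.Agent.Lib.MP_1a91b9_nuT.S4 Pool.Agent.Lib.MP_1a91b9_nuG Pool.Agent.Lib.MP_1a91b9_nuX

universe u

section
variable {F : Type u} [Field F] [NumberField F] [Algebra K F] {p : 𝓞 K} {ℓ : ℕ}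

omit [NumberField F] in
private theorem dec_mul (hp : Spl p ℓ) : up p F * up (cK p) F = (ℓ : 𝓞 F) := by
  rw [← map_mul, hp.mul, map_natCast]

omit [NumberField F] in
private theorem dec_span_pow (a : 𝓞 K) (k : ℕ) :
    Ideal.span {up (a ^ k) F} = Ideal.span {up a F} ^ k := by
  rw [Ideal.span_singleton_pow, up, map_pow]

private theorem dec_aux (hp : Spl p ℓ) (f : Ideal (𝓞 F)) : f ≠ 0 →
    ∃ (C C₁ f₂ : Ideal (𝓞 F)) (k : ℕ), f = C * C₁ * f₂ ∧
      C ∣ Ideal.span {up p F} ^ k ∧ C₁ ∣ Ideal.span {up (cK p) F} ^ k ∧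
      IsCoprime f₂ (Ideal.span {(ℓ : 𝓞 F)}) := by
  refine UniqueFactorizationMonoid.induction_on_prime f (fun h => absurd rfl h) ?_ ?_
  · intro u hu _
    have h1 : u = 1 := by
      rw [Ideal.one_eq_top]
      exact Ideal.isUnit_iff.mp hu
    exact ⟨1, 1, 1, 0, by rw [h1]; simp, by simp, by simp, isCoprime_one_left⟩
  · intro a q ha hq ih _
    obtain ⟨C, C₁, f₂, k, h1, h2, h3, h4⟩ := ih ha
    have hqp : q.IsPrime := Ideal.isPrime_of_prime hq
    have hq0 : q ≠ ⊥ := hq.ne_zero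
    by_cases hc : up p F ∈ q
    · refine ⟨q * C, C₁, f₂, k + 1, by rw [h1]; ring, ?_, ?_, h4⟩
      · rw [pow_succ']
        exact mul_dvd_mul (Ideal.dvd_span_singleton.mpr hc) h2
      · rw [pow_succ']
        exact h3.mul_left _
    · by_cases hc' : up (cK p) F ∈ q
      · refine ⟨C, q * C₁, f₂, k + 1, by rw [h1]; ring, ?_, ?_, h4⟩
        · rw [pow_succ']
          exact h2.mul_left _
        · rw [pow_succ']
          exact mul_dvd_mul (Ideal.dvd_span_singleton.mpr hc') h3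
      · refine ⟨C, C₁, q * f₂, k, by rw [h1]; ring, h2, h3, ?_⟩
        refine IsCoprime.mul_left ?_ h4
        have hl : (ℓ : 𝓞 F) ∉ q := by
          rw [← dec_mul (F := F) hp]
          intro hm
          rcases hqp.mem_or_mem hm with h | h
          · exact hc h
          · exact hc' h
        exact coprime_of_not_mem ⟨q, hqp, hq0⟩ _ hl

/-- the part at `p`, the part at `cK p` and the part prime to `ℓ` of an ideal -/
theorem exists_dec (hp : Spl p ℓ) (f : Ideal (𝓞 F)) (hf : f ≠ 0) :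
    ∃ (C C₁ f₂ : Ideal (𝓞 F)) (k : ℕ), f = C * C₁ * f₂ ∧
      C ∣ Ideal.span {up (p ^ k) F} ∧ C₁ ∣ Ideal.span {up (cK p ^ k) F} ∧
      IsCoprime f₂ (Ideal.span {(ℓ : 𝓞 F)}) ∧ 1 ≤ k := by
  obtain ⟨C, C₁, f₂, k, h1, h2, h3, h4⟩ := dec_aux hp f hf
  refine ⟨C, C₁, f₂, k + 1, h1, ?_, ?_, h4, by omega⟩
  · rw [dec_span_pow, pow_succ]
    exact h2.mul_right _
  · rw [dec_span_pow, pow_succ]
    exact h3.mul_right _

/-- the parts at `p` and at `cK p` are coprime, and coprime to ideals prime to `ℓ` -/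
theorem coprime_of_dvdP (hp : Spl p ℓ) (C C₁ : Ideal (𝓞 F)) (k : ℕ)
    (hC : C ∣ Ideal.span {up (p ^ k) F}) (hC₁ : C₁ ∣ Ideal.span {up (cK p ^ k) F}) :
    IsCoprime C C₁ := by
  have h : IsCoprime (Ideal.span {up (p ^ k) F}) (Ideal.span {up (cK p ^ k) F}) := by
    rw [Ideal.isCoprime_span_singleton_iff]
    exact (hp.cop.pow (m := k) (n := k)).map (algebraMap (𝓞 K) (𝓞 F))
  exact (h.of_isCoprime_of_dvd_left hC).of_isCoprime_of_dvd_right hC₁

theorem coprime_of_dvd_ell (hp : Spl p ℓ) (C m : Ideal (𝓞 F)) (k : ℕ)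
    (hC : C ∣ Ideal.span {up (p ^ k) F} ∨ C ∣ Ideal.span {up (cK p ^ k) F})
    (hm : IsCoprime m (Ideal.span {(ℓ : 𝓞 F)})) : IsCoprime C m := by
  rcases hC with hC | hC
  · have h1 : IsCoprime m (Ideal.span {up p F}) :=
      hm.of_isCoprime_of_dvd_right (by
        rw [Ideal.dvd_span_singleton, Ideal.mem_span_singleton]
        exact ⟨_, (dec_mul (F := F) hp).symm⟩)
    rw [dec_span_pow] at hC
    exact ((h1.pow_right (n := k)).of_isCoprime_of_dvd_right hC).symm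
  · have h1 : IsCoprime m (Ideal.span {up (cK p) F}) :=
      hm.of_isCoprime_of_dvd_right (by
        rw [Ideal.dvd_span_singleton, Ideal.mem_span_singleton]
        exact ⟨up p F, by rw [mul_comm]; exact (dec_mul (F := F) hp).symm⟩)
    rw [dec_span_pow] at hC
    exact ((h1.pow_right (n := k)).of_isCoprime_of_dvd_right hC).symm

theorem coprime_upP (hp : Spl p ℓ) (C₁ m : Ideal (𝓞 F)) (k : ℕ)
    (hC₁ : C₁ ∣ Ideal.span {up (cK p ^ k) F})
    (hm : IsCoprime m (Ideal.span {(ℓ : 𝓞 F)})) :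
    IsCoprime (C₁ * m) (Ideal.span {up p F}) := by
  refine IsCoprime.mul_left ?_ ?_
  · have h1 : IsCoprime (Ideal.span {up p F}) (Ideal.span {up (cK p) F}) := by
      rw [Ideal.isCoprime_span_singleton_iff]
      exact hp.cop.map (algebraMap (𝓞 K) (𝓞 F))
    rw [dec_span_pow] at hC₁
    exact ((h1.pow_right (n := k)).of_isCoprime_of_dvd_right hC₁).symm
  · exact hm.of_isCoprime_of_dvd_right (by
      rw [Ideal.dvd_span_singleton, Ideal.mem_span_singleton]
      exact ⟨_, (dec_mul (F := F) hp).symm⟩)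

end

end Pool.Agent.Lib.MP_1a91b9_nuW.WN
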