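import Pool.Agent.Lib.MP_1a91b9_nuW.Defs
import Pool.Agent.Lib.MP_1a91b9_nuG.RayC

/-!
# G7, stream WN: definitions
-/

set_option autoImplicit false

namespace Pool.Agent.Lib.MP_1a91b9_nuW.WN

variable [Pool.Agent.Lib.MP_1a91b9_nuT.CD]

open Pool.Agent.Lib.MP_1a91b9_nuT hiding cj
open NumberField IsDedekindDomain Module Pool.Agent.Lib.MP_1a91b9_nt
  Pool.Agent.Lib.MP_1a91b9_nuT.S4 Pool.Agent.Lib.MP_1a91b9_nuG Pool.Agent.Lib.MP_1a91b9_nuX

universe u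

section gauss
variable {R : Type*} [CommRing R]

/-- an additive character with kernel exactly `C` -/
structure AC (C : Ideal R) (ψ : R → ℂ) : Prop where
  zero : ψ 0 = 1
  add : ∀ a b, ψ (a + b) = ψ a * ψ b
  tr : ∀ c ∈ C, ψ c = 1
  nd : ∀ r, (∀ a, ψ (a * r) = 1) → r ∈ C

/-- a multiplicative character modulo `C` and its inverse -/
structure MC (C : Ideal R) (κ κ' : R → ℂ) : Prop where
  per : ∀ u u', u - u' ∈ C → κ u = κ u'
  mul : ∀ u u', κ (u * u') = κ u * κ u'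
  one : κ 1 = 1
  inv : ∀ u, IsCoprime (Ideal.span {u}) C → κ u * κ' u = 1
  zero : ∀ u, ¬ IsCoprime (Ideal.span {u}) C → κ u = 0

/-- the Gauss sum -/
noncomputable def gsum (C : Ideal R) [Fintype (R ⧸ C)] (κ ψ : R → ℂ) (r : R) : ℂ :=
  ∑ U : R ⧸ C, κ (Quotient.out U) * ψ (Quotient.out U * r)

end gauss

section
variable {F : Type u} [Field F] [NumberField F]

/-- the product of the places in `T` -/
noncomputable def dT (T : Finset (HeightOneSpectrum (𝓞 F))) : Ideal (𝓞 F) :=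
  ∏ v ∈ T, v.asIdeal

open Classical in
/-- the weight on ideals which corresponds to the Ramanujan sums modulo `dT S * C₂` -/
noncomputable def ramW (S : Finset (HeightOneSpectrum (𝓞 F))) (C₂ I : Ideal (𝓞 F)) : ℂ :=
  ∑ T ∈ S.powerset, (∏ _v ∈ S \ T, (-1 : ℂ)) * (Ideal.absNorm (dT T * C₂) : ℂ) *
    (if dT T * C₂ ∣ I then 1 else 0)

/-- congruent to `u` modulo `C`, to `1` modulo `M b` -/
def uS (e u : 𝓞 F) : 𝓞 F := 1 + (u - 1) * e

/-- congruent to `1` modulo `C`, to `r` modulo `M b` -/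
def rS (e r : 𝓞 F) : 𝓞 F := r + (1 - r) * e

variable {ℓ : ℕ} [hℓ : Fact ℓ.Prime]

open Classical in
/-- the part modulo `C` of the `j`-th character -/
noncomputable def kap (x : HeightOneSpectrum (𝓞 F) → ZMod ℓ) (C : Ideal (𝓞 F)) (e : 𝓞 F)
    (j : ZMod ℓ) (u : 𝓞 F) : ℂ :=
  if IsCoprime (Ideal.span {u}) C then ZMod.stdAddChar (j * addI x (Ideal.span {uS e u})) else 0

open Classical in
/-- the part modulo `M b` of the `j`-th character of `(r) b⁻¹` -/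
noncomputable def gW (x : HeightOneSpectrum (𝓞 F) → ZMod ℓ) (M b : Ideal (𝓞 F)) (e : 𝓞 F)
    (j : ZMod ℓ) (r : 𝓞 F) : ℂ :=
  if Ideal.span {r} ⊔ M * b = b then
    ZMod.stdAddChar (j * (addI x (Ideal.span {rS e r}) - addI x b)) else 0

/-- the data of the wild step at an ideal `b` -/
structure LD (x : HeightOneSpectrum (𝓞 F) → ZMod ℓ) (f C M b : Ideal (𝓞 F)) (e : 𝓞 F) : Prop where
  ray : ∀ z : 𝓞 F, z ≠ 0 → z - 1 ∈ f → addI x (Ideal.span {z}) = 0
  f0 : f ≠ 0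
  C0 : C ≠ 0
  M0 : M ≠ 0
  M1 : M ≠ 1
  b0 : b ≠ 0
  dvd : f ∣ C * M
  CM : IsCoprime C M
  Cb : IsCoprime C b
  e1 : e - 1 ∈ C
  e0 : e ∈ M * b

end

end Pool.Agent.Lib.MP_1a91b9_nuW.WN
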