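import Pool.Agent.Lib.MP_1a91b9_nuW.Defs

/-!
# G7, stream WN: valuations at the places of `ℂ` above `p`
-/

set_option autoImplicit false

namespace Pool.Agent.Lib.MP_1a91b9_nuW.WN

variable [Pool.Agent.Lib.MP_1a91b9_nuT.CD]

open Pool.Agent.Lib.MP_1a91b9_nuT hiding cj
open NumberField IsDedekindDomain Module Pool.Agent.Lib.MP_1a91b9_nt
  Pool.Agent.Lib.MP_1a91b9_nuT.S4 Pool.Agent.Lib.MP_1a91b9_nuG Pool.Agent.Lib.MP_1a91b9_nuX

universe u

section
variable {p : 𝓞 K} {ℓ : ℕ} {A : ValuationSubring ℂ}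

theorem val_emb (A : ValuationSubring ℂ) (a : 𝓞 K) : A.valuation (embK (a : K)) ≤ 1 := by
  have h : IsIntegral ℤ (a : K) := RingOfIntegers.isIntegral_coe _
  exact val_integral A (h.map embK.toRingHom.toIntAlgHom)

theorem emb_cK (a : 𝓞 K) : embK ((cK a : 𝓞 K) : K) = (starRingEnd ℂ) (embK (a : K)) := by
  exact Pool.Agent.Lib.MP_1a91b9_nuT.emb_cj a

theorem val_embP (hA : PlP p A) : A.valuation (embK (p : K)) < 1 := by
  have h : embK (p : K) ∈ A.nonunits := by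
    rw [ValuationSubring.mem_nonunits_iff_or]
    exact Or.inr hA
  exact h

theorem ell_notMem (hp : Spl p ℓ) (hA : PlP p A) : (ℓ : ℂ)⁻¹ ∉ A := by
  intro h
  apply hA
  have e : (ℓ : ℂ) = embK (p : K) * embK ((cK p : 𝓞 K) : K) := by
    have h1 := congrArg (fun x : 𝓞 K => embK (x : K)) hp.mul
    simp only [map_mul, map_natCast] at h1
    exact h1.symm
  have hl0 : (ℓ : ℂ) ≠ 0 := by exact_mod_cast hp.prime.ne_zero
  have hp0 : embK (p : K) ≠ 0 := by
    intro h0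
    rw [h0, zero_mul] at e
    exact hl0 e
  have h2 : embK ((cK p : 𝓞 K) : K) ≠ 0 := by
    intro h0
    rw [h0, mul_zero] at e
    exact hl0 e
  have e2 : (embK (p : K))⁻¹ = (ℓ : ℂ)⁻¹ * embK ((cK p : 𝓞 K) : K) := by
    rw [e]
    field_simp
  rw [e2]
  exact A.mul_mem _ _ h ((ValuationSubring.valuation_le_one_iff A _).mp (val_emb A _))

/-- elements prime to `p` are units at `A` -/
theorem val_coprime_p (hA : PlP p A) (a : 𝓞 K) (ha : IsCoprime a p) :
    A.valuation (embK (a : K)) = 1 := by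
  obtain ⟨x, y, hxy⟩ := ha
  have h1 := congrArg (fun x : 𝓞 K => embK (x : K)) hxy
  simp only [map_add, map_mul, map_one] at h1
  refine val_eq_one_of_mul A (val_emb A a) (val_emb A x) ?_
  have e : embK (a : K) * embK (x : K) = 1 + -(embK (p : K) * embK (y : K)) := by
    linear_combination h1
  rw [e]
  refine val_unit_add A (map_one _) ?_
  rw [Valuation.map_neg, map_mul]
  calc A.valuation (embK (p : K)) * _ ≤ A.valuation (embK (p : K)) * 1 :=
        mul_le_mul_right (val_emb A y) _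
    _ < 1 := by rw [mul_one]; exact val_embP hA

theorem val_cKp (hp : Spl p ℓ) (hA : PlP p A) : A.valuation (embK ((cK p : 𝓞 K) : K)) = 1 := by
  exact val_coprime_p hA _ hp.cop.symm

theorem val_dvd_cKp (hp : Spl p ℓ) (hA : PlP p A) (a : 𝓞 K) (n : ℕ) (h : a ∣ cK p ^ n) :
    A.valuation (embK (a : K)) = 1 := by
  exact val_coprime_p hA a ((hp.cop.symm.pow_left (m := n)).of_isCoprime_of_dvd_left h)

theorem val_conj_dvd_p (hp : Spl p ℓ) (hA : PlP p A) (a : 𝓞 K) (n : ℕ) (h : a ∣ p ^ n) :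
    A.valuation ((starRingEnd ℂ) (embK (a : K))) = 1 := by
  rw [← emb_cK]
  refine val_dvd_cKp hp hA _ n ?_
  have h1 := map_dvd (Pool.Agent.Lib.MP_1a91b9_nuT.cj) h
  rw [map_pow] at h1
  exact h1

end

section
variable {F : Type u} [Field F] [NumberField F] [Algebra K F]

private theorem pl_relNorm_dvd (I : Ideal (𝓞 F)) (a : 𝓞 K) (h : I ∣ Ideal.span {up a F}) :
    ∃ n : ℕ, Ideal.relNorm (𝓞 K) I ∣ Ideal.span {a ^ n} := by
  refine ⟨finrank (𝓞 K) (𝓞 F), ?_⟩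
  have h1 : Ideal.relNorm (𝓞 K) I ∣ Ideal.relNorm (𝓞 K) (Ideal.span {up a F}) := map_dvd _ h
  have h2 : Ideal.relNorm (𝓞 K) (Ideal.span {up a F}) =
      Ideal.span {a ^ finrank (𝓞 K) (𝓞 F)} := by
    have h3 := Ideal.relNorm_algebraMap (𝓞 F) (Ideal.span {a})
    rw [Ideal.map_span, Set.image_singleton, Ideal.span_singleton_pow] at h3
    exact h3
  rwa [h2] at h1

private theorem pl_dvd (I : Ideal (𝓞 F)) (a c : 𝓞 K) (k : ℕ) (h : I ∣ Ideal.span {up (a ^ k) F})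
    (hc : Ideal.relNorm (𝓞 K) I = Ideal.span {c}) : ∃ n : ℕ, c ∣ a ^ n := by
  obtain ⟨n, hn⟩ := pl_relNorm_dvd I _ h
  rw [hc, Ideal.dvd_span_singleton, Ideal.mem_span_singleton] at hn
  exact ⟨k * n, by rw [pow_mul]; exact hn⟩

omit [NumberField F] in
private theorem pl_cop (a : 𝓞 K) (f : 𝓞 K) (h : IsCoprime f a) (k : ℕ) (I : Ideal (𝓞 F))
    (hI : I ∣ Ideal.span {up (a ^ k) F}) : IsCoprime I (Ideal.span {up f F}) := by
  have h1 : IsCoprime (Ideal.span {up (a ^ k) F}) (Ideal.span {up f F}) := by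
    rw [Ideal.isCoprime_span_singleton_iff]
    exact ((h.symm.pow_left (m := k))).map (algebraMap (𝓞 K) (𝓞 F))
  exact h1.of_isCoprime_of_dvd_left hI

end

section
variable {F : Type u} [Field F] [NumberField F] [Algebra K F]
  {p : 𝓞 K} {ℓ : ℕ} {A : ValuationSubring ℂ}

/-- the norm of an ideal dividing a power of `p` -/
theorem val_absNormP (hp : Spl p ℓ) (hA : PlP p A) (C : Ideal (𝓞 F)) (k : ℕ)
    (hC : C ∣ Ideal.span {up (p ^ k) F}) (c : 𝓞 K)
    (hc : Ideal.relNorm (𝓞 K) C = Ideal.span {c}) :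
    A.valuation (Ideal.absNorm C : ℂ) = A.valuation (embK (c : K)) := by
  obtain ⟨n, hn⟩ := pl_dvd C p c k hC hc
  have h1 := val_conj_dvd_p hp hA c n hn
  have h2 : Ideal.absNorm (Ideal.span {c}) = Ideal.absNorm C := by
    rw [← hc]
    exact Ideal.absNorm_relNorm (𝓞 K) (𝓞 F) C
  have h3 := congrArg (fun x : 𝓞 K => embK (x : K)) (Pool.Agent.Lib.MP_1a91b9_nuT.mul_cj c)
  simp only [map_mul, map_natCast] at h3
  have h4 : (Ideal.absNorm C : ℂ) = embK (c : K) * (starRingEnd ℂ) (embK (c : K)) := by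
    rw [← emb_cK, ← h2]
    exact h3.symm
  rw [h4, map_mul, h1, mul_one]

/-- a generator of the relative norm of an ideal prime to `p` -/
theorem val_relNorm_cop (hA : PlP p A) (I : Ideal (𝓞 F))
    (hI : IsCoprime I (Ideal.span {up p F})) (c : 𝓞 K)
    (hc : Ideal.relNorm (𝓞 K) I = Ideal.span {c}) :
    A.valuation (embK (c : K)) = 1 := by
  obtain ⟨x, hx, y, hy, hxy⟩ := Ideal.isCoprime_iff_exists.mp hI
  rw [Ideal.mem_span_singleton] at hy
  obtain ⟨y', rfl⟩ := hy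
  have h1 := nK_congr (F := F) p x 1 ⟨-y', by linear_combination hxy⟩
  rw [nK_one] at h1
  obtain ⟨w, hw⟩ := h1
  have hmem : nK x ∈ Ideal.relNorm (𝓞 K) I := by
    rw [intNorm_eq]
    have hfree : Module.Free (𝓞 K) (𝓞 F) := inferInstance
    exact Ideal.norm_mem_relNorm (𝓞 K) I hx
  rw [hc, Ideal.mem_span_singleton] at hmem
  obtain ⟨z, hz⟩ := hmem
  exact val_coprime_p hA c ⟨z, -w, by linear_combination hw - hz⟩

end

section
variable [HC] {F : Type u} [Field F] [NumberField F] [Algebra K F]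
  {p : 𝓞 K} {ℓ : ℕ} {A : ValuationSubring ℂ}

theorem val_psbC (hp : Spl p ℓ) (hA : PlP p A) (hfℓ : IsCoprime HC.f (ℓ : 𝓞 K))
    (I : Ideal (𝓞 F)) (k : ℕ) (hI : I ∣ Ideal.span {up (p ^ k) F}) :
    A.valuation (AN.psbC F I) = 1 := by
  have h1 : IsCoprime HC.f p := hfℓ.of_isCoprime_of_dvd_right ⟨cK p, hp.mul.symm⟩
  obtain ⟨-, h2⟩ := AN.psi_spec I (pl_cop p HC.f h1 k I hI)
  obtain ⟨n, hn⟩ := pl_dvd I p _ k hI h2.symm
  exact val_conj_dvd_p hp hA _ n hn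

theorem val_psC (hp : Spl p ℓ) (hA : PlP p A) (hfℓ : IsCoprime HC.f (ℓ : 𝓞 K))
    (I : Ideal (𝓞 F)) (k : ℕ) (hI : I ∣ Ideal.span {up (cK p ^ k) F}) :
    A.valuation (AN.psC F I) = 1 := by
  have h1 : IsCoprime HC.f (cK p) :=
    hfℓ.of_isCoprime_of_dvd_right ⟨p, by rw [mul_comm]; exact hp.mul.symm⟩
  obtain ⟨-, h2⟩ := AN.psi_spec I (pl_cop (cK p) HC.f h1 k I hI)
  obtain ⟨n, hn⟩ := pl_dvd I (cK p) _ k hI h2.symm
  exact val_dvd_cKp hp hA _ n hn

theorem val_psC_sub (hp : Spl p ℓ) (hA : PlP p A) (v : HeightOneSpectrum (𝓞 F))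
    (hadm : IsCoprime (psi F v.asIdeal - 1) (ℓ : 𝓞 K)) :
    A.valuation (AN.psC F v.asIdeal - 1) = 1 := by
  have h1 := val_coprime_p hA _ (hadm.of_isCoprime_of_dvd_right ⟨cK p, hp.mul.symm⟩)
  have e : AN.psC F v.asIdeal - 1 = embK ((psi F v.asIdeal - 1 : 𝓞 K) : K) := by
    rw [AN.psC]
    simp
  rw [e]
  exact h1

theorem val_psbC_sub (hp : Spl p ℓ) (hA : PlP p A) (v : HeightOneSpectrum (𝓞 F))
    (hadm : IsCoprime (psi F v.asIdeal - 1) (ℓ : 𝓞 K)) :
    A.valuation (AN.psbC F v.asIdeal - 1) = 1 := by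
  have h2 : IsCoprime (cK (psi F v.asIdeal - 1)) p := by
    have hd : cK p ∣ (ℓ : 𝓞 K) := ⟨p, by rw [mul_comm]; exact hp.mul.symm⟩
    have h3 := hadm.of_isCoprime_of_dvd_right hd
    have h4 := h3.map (Pool.Agent.Lib.MP_1a91b9_nuT.cj)
    rw [Pool.Agent.Lib.MP_1a91b9_nuT.cj_cj] at h4
    exact h4
  have h1 := val_coprime_p hA _ h2
  have e : AN.psbC F v.asIdeal - 1 = embK ((cK (psi F v.asIdeal - 1) : 𝓞 K) : K) := by
    rw [emb_cK, AN.psbC, AN.psC]
    simp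
  rw [e]
  exact h1

/-- the Euler factor at `1` at a place not above `p` (it may be above `cK p`) -/
theorem val_eulerP (hp : Spl p ℓ) (hA : PlP p A) (v : HeightOneSpectrum (𝓞 F))
    (hv : up p F ∉ v.asIdeal)
    (hadm : up HC.f F ∉ v.asIdeal → IsCoprime (psi F v.asIdeal - 1) (ℓ : 𝓞 K)) :
    A.valuation (1 - AN.psbC F v.asIdeal * (Ideal.absNorm v.asIdeal : ℂ) ^ (-1 : ℂ)) = 1 := by
  by_cases h3 : up HC.f F ∈ v.asIdeal
  · rw [AN.psbC_bad v h3, zero_mul, sub_zero, map_one]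
  · obtain ⟨h0, e⟩ := AN.euler_at_one v h3
    have h1 : A.valuation (AN.psC F v.asIdeal) = 1 := by
      obtain ⟨-, h2⟩ := AN.psi_spec v.asIdeal (coprime_of_not_mem v _ h3)
      exact val_relNorm_cop hA v.asIdeal (coprime_of_not_mem v _ hv) _ h2.symm
    rw [e, map_div₀, h1, val_psC_sub hp hA v (hadm h3), div_one]

end

end Pool.Agent.Lib.MP_1a91b9_nuW.WN
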