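import Pool.Agent.Lib.MP_1a91b9_nuW.Defs
import Pool.Agent.Lib.MP_1a91b9_nuW.CF.WX
import Pool.Agent.Lib.MP_1a91b9_nuW.WN.Pl
import Pool.Agent.Lib.MP_1a91b9_nuW.WN.Dec

/-!
# G7, stream WN: the differents
-/

set_option autoImplicit false

namespace Pool.Agent.Lib.MP_1a91b9_nuW.WN

variable [Pool.Agent.Lib.MP_1a91b9_nuT.CD]

open Pool.Agent.Lib.MP_1a91b9_nuT hiding cj
open NumberField IsDedekindDomain Module Pool.Agent.Lib.MP_1a91b9_nt
  Pool.Agent.Lib.MP_1a91b9_nuT.S4 Pool.Agent.Lib.MP_1a91b9_nuG Pool.Agent.Lib.MP_1a91b9_nuX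

universe u

/-- associated elements have the same valuation -/
theorem val_span_eq (A : ValuationSubring ℂ) (a b : 𝓞 K) (h : Ideal.span {a} = Ideal.span {b}) :
    A.valuation (embK (a : K)) = A.valuation (embK (b : K)) := by
  have key : ∀ a b : 𝓞 K, a ∣ b → A.valuation (embK (b : K)) ≤ A.valuation (embK (a : K)) := by
    rintro a b ⟨c, rfl⟩
    have e : embK ((a * c : 𝓞 K) : K) = embK (a : K) * embK (c : K) := by simp
    rw [e, map_mul]
    calc A.valuation (embK (a : K)) * A.valuation (embK (c : K)) ≤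
          A.valuation (embK (a : K)) * 1 := mul_le_mul_right (val_emb A c) _
      _ = A.valuation (embK (a : K)) := mul_one _
  refine le_antisymm (key b a ?_) (key a b ?_)
  · rw [← Ideal.mem_span_singleton, ← h]
    exact Ideal.mem_span_singleton_self a
  · rw [← Ideal.mem_span_singleton, h]
    exact Ideal.mem_span_singleton_self b

section
variable {F F' : Type u} [Field F] [NumberField F] [Field F'] [NumberField F'] [Algebra F F']
  {ℓ : ℕ} [hℓ : Fact ℓ.Prime]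

theorem relNorm_diff_rel (hL : finrank F F' = ℓ) (f : Ideal (𝓞 F))
    (hdisc : differentIdeal (𝓞 F) (𝓞 F') ^ ℓ = (f.map (algebraMap (𝓞 F) (𝓞 F'))) ^ (ℓ - 1)) :
    Ideal.relNorm (𝓞 F) (differentIdeal (𝓞 F) (𝓞 F')) = f ^ (ℓ - 1) := by
  have h0 : finrank (𝓞 F) (𝓞 F') = ℓ := by
    rw [← hL]
    exact (IsFractionRing.finrank_eq (𝓞 F) F (𝓞 F') F').symm
  have h1 := congrArg (Ideal.relNorm (𝓞 F)) hdisc
  rw [map_pow, map_pow, Ideal.relNorm_algebraMap, h0] at h1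
  have h2 : Ideal.relNorm (𝓞 F) (differentIdeal (𝓞 F) (𝓞 F')) ^ ℓ = (f ^ (ℓ - 1)) ^ ℓ := by
    rw [h1, ← pow_mul, ← pow_mul, mul_comm]
  exact pow_left_injective hℓ.out.ne_zero h2

variable [Algebra K F] [Algebra K F'] [IsScalarTower K F F']

theorem relNorm_diff (hL : finrank F F' = ℓ) (f : Ideal (𝓞 F))
    (hdisc : differentIdeal (𝓞 F) (𝓞 F') ^ ℓ = (f.map (algebraMap (𝓞 F) (𝓞 F'))) ^ (ℓ - 1)) :
    Ideal.relNorm (𝓞 K) (differentIdeal (𝓞 K) (𝓞 F')) =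
      Ideal.relNorm (𝓞 K) f ^ (ℓ - 1) *
        Ideal.relNorm (𝓞 K) (differentIdeal (𝓞 K) (𝓞 F)) ^ ℓ := by
  have h0 : finrank (𝓞 F) (𝓞 F') = ℓ := by
    rw [← hL]
    exact (IsFractionRing.finrank_eq (𝓞 F) F (𝓞 F') F').symm
  have h1 := differentIdeal_eq_differentIdeal_mul_differentIdeal (𝓞 K) (𝓞 F) (𝓞 F')
  rw [h1, ← Ideal.relNorm_relNorm (𝓞 K) (𝓞 F), map_mul, map_mul, relNorm_diff_rel hL f hdisc,
    Ideal.relNorm_algebraMap, h0, map_pow, map_pow]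

/-- the discriminants above `p` -/
theorem disc_val {p : 𝓞 K} {A : ValuationSubring ℂ} (hp : Spl p ℓ) (hA : PlP p A)
    (hL : finrank F F' = ℓ) (x : HeightOneSpectrum (𝓞 F) → ZMod ℓ) (f : Ideal (𝓞 F))
    (hx : WX ℓ F' x f) (C C₁ f₂ : Ideal (𝓞 F)) (k : ℕ) (hf : f = C * C₁ * f₂)
    (hC : C ∣ Ideal.span {up (p ^ k) F}) (hC₁ : C₁ ∣ Ideal.span {up (cK p ^ k) F})
    (hf₂ : IsCoprime f₂ (Ideal.span {(ℓ : 𝓞 F)})) (d d' : 𝓞 K)
    (hd : Ideal.relNorm (𝓞 K) (differentIdeal (𝓞 K) (𝓞 F)) = Ideal.span {d})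
    (hd' : Ideal.relNorm (𝓞 K) (differentIdeal (𝓞 K) (𝓞 F')) = Ideal.span {d'}) :
    A.valuation (embK (d' : K)) =
      A.valuation (Ideal.absNorm C : ℂ) ^ (ℓ - 1) * A.valuation (embK (d : K)) ^ ℓ := by
  obtain ⟨c, hc⟩ := (IsPrincipalIdealRing.principal (Ideal.relNorm (𝓞 K) C)).principal
  obtain ⟨c', hc'⟩ := (IsPrincipalIdealRing.principal (Ideal.relNorm (𝓞 K) (C₁ * f₂))).principal
  rw [Ideal.submodule_span_eq] at hc hc'
  have h1 := val_absNormP hp hA C k hC c hc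
  have h2 := val_relNorm_cop hA (C₁ * f₂) (coprime_upP hp C₁ f₂ k hC₁ hf₂) c' hc'
  have h3 := relNorm_diff (F := F) (F' := F') hL f hx.disc
  have h4 : Ideal.relNorm (𝓞 K) f = Ideal.span {c * c'} := by
    rw [hf, mul_assoc, map_mul, hc, hc', Ideal.span_singleton_mul_span_singleton]
  rw [hd', hd, h4, Ideal.span_singleton_pow, Ideal.span_singleton_pow,
    Ideal.span_singleton_mul_span_singleton] at h3
  have e : embK (((c * c') ^ (ℓ - 1) * d ^ ℓ : 𝓞 K) : K) =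
      (embK (c : K) * embK (c' : K)) ^ (ℓ - 1) * embK (d : K) ^ ℓ := by simp
  rw [val_span_eq A _ _ h3, e, map_mul, map_pow, map_pow, map_mul, h2, mul_one, h1]

end

end Pool.Agent.Lib.MP_1a91b9_nuW.WN
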