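import Pool.Agent.Lib.MP_1a91b9_nuW.WN.Defs

/-!
# G7, WN: the additive character of `K`

`exK x = exp ((π / Im zt) * (x - conj x))`; `x - conj x = 2 i Im x`, so `exK x = exp (2 π i * (Im x / Im zt))`.
`exK_int`: `a = m + n * om` (`exists_coordsK`), `embK a = m + n * zt`, `Im = n * Im zt`, so `exK = exp (2 π i n) = 1`
(`Complex.exp_int_mul_two_pi_mul_I`-like; `zt.im ≠ 0`: `zt_ne`).
`exK_detect`: `y = α + β * om` with rational `α, β` (`exists_rat_coords`); `c = 1`: `exp (2 π i β) = 1` so `β ∈ ℤ`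
(`Complex.exp_eq_one_iff`). `c = omO`: `om * y = α om + β (tr om - nm)` (`om_quad`), the `om`-coordinate is `α + β tr`, so
`α + β tr ∈ ℤ`, `α ∈ ℤ`; `y = (α : 𝓞 K) + (β : 𝓞 K) * omO` (`coe_lin`).
`eF`: `eF y z = exK (embK (Algebra.trace K F (y * z)))`.
-/

set_option autoImplicit false

namespace Pool.Agent.Lib.MP_1a91b9_nuW.WN

variable [Pool.Agent.Lib.MP_1a91b9_nuT.CD]

open Pool.Agent.Lib.MP_1a91b9_nuT hiding cj
open NumberField IsDedekindDomain Module Pool.Agent.Lib.MP_1a91b9_nt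
  Pool.Agent.Lib.MP_1a91b9_nuT.S4 Pool.Agent.Lib.MP_1a91b9_nuG Pool.Agent.Lib.MP_1a91b9_nuX

universe u

private theorem exk_key (a b : ℝ) :
    exK ((a : ℂ) + (b : ℂ) * zt) = Complex.exp ((b : ℂ) * (2 * Real.pi * Complex.I)) := by
  unfold exK
  congr 1
  have h0 : (zt.im : ℂ) ≠ 0 := Complex.ofReal_ne_zero.2 zt_ne
  have h1 : zt - (starRingEnd ℂ) zt = 2 * (zt.im : ℂ) * Complex.I := by
    rw [Complex.sub_conj]
    push_cast
    ring
  have h2 : ((a : ℂ) + (b : ℂ) * zt) - (starRingEnd ℂ) ((a : ℂ) + (b : ℂ) * zt) =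
      (b : ℂ) * (2 * (zt.im : ℂ) * Complex.I) := by
    rw [map_add, map_mul, Complex.conj_ofReal, Complex.conj_ofReal, ← h1]
    ring
  rw [h2, Complex.ofReal_div]
  field_simp

private theorem exk_rat (a b : ℚ) :
    exK (embK ((a : K) + (b : K) * om)) = Complex.exp ((b : ℂ) * (2 * Real.pi * Complex.I)) := by
  have h := exk_key (a : ℝ) (b : ℝ)
  rw [map_add, map_mul, map_ratCast, map_ratCast, embK_om]
  push_cast at h
  exact h

private theorem exk_int_of (b : ℚ)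
    (h : Complex.exp ((b : ℂ) * (2 * Real.pi * Complex.I)) = 1) : ∃ n : ℤ, b = n := by
  obtain ⟨n, hn⟩ := Complex.exp_eq_one_iff.1 h
  refine ⟨n, ?_⟩
  have h2 := mul_right_cancel₀ Complex.two_pi_I_ne_zero hn
  exact_mod_cast h2

theorem exK_add (a b : ℂ) : exK (a + b) = exK a * exK b := by
  unfold exK
  rw [← Complex.exp_add]
  congr 1
  rw [map_add]
  ring

theorem exK_zero : exK 0 = 1 := by
  unfold exK
  rw [map_zero, sub_zero, mul_zero, Complex.exp_zero]

theorem exK_int (a : 𝓞 K) : exK (embK (a : K)) = 1 := by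
  obtain ⟨m, n, h⟩ := exists_coordsK a
  have h1 := exk_rat (m : ℚ) (n : ℚ)
  rw [Rat.cast_intCast, Rat.cast_intCast, ← h] at h1
  rw [h1, Complex.exp_eq_one_iff]
  refine ⟨n, ?_⟩
  push_cast
  ring

theorem exK_detect (y : K) (h : ∀ c : 𝓞 K, exK (embK ((c : K) * y)) = 1) :
    ∃ a : 𝓞 K, y = (a : K) := by
  obtain ⟨α, β, hy⟩ := exists_rat_coords y
  have h1 := h 1
  have e1 : (((1 : 𝓞 K) : K) * y) = (α : K) + (β : K) * om := by
    rw [← hy]
    change (1 : K) * y = y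
    rw [one_mul]
  rw [e1, exk_rat] at h1
  obtain ⟨n, hn⟩ := exk_int_of β h1
  have h2 := h omO
  have e2 : (((omO : 𝓞 K) : K) * y) = ((-(β * CD.nm) : ℚ) : K) + ((α + β * CD.tr : ℚ) : K) * om := by
    rw [hy]
    change om * ((α : K) + (β : K) * om) = _
    push_cast
    linear_combination (β : K) * om_quad
  rw [e2, exk_rat] at h2
  obtain ⟨n', hn'⟩ := exk_int_of _ h2
  have hα : α = ((n' - n * CD.tr : ℤ) : ℚ) := by
    rw [hn] at hn'
    push_cast
    linarith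
  refine ⟨((n' - n * CD.tr : ℤ) : 𝓞 K) + ((n : ℤ) : 𝓞 K) * omO, ?_⟩
  rw [coe_lin, hy, hα, hn, Rat.cast_intCast, Rat.cast_intCast]

section
variable {F : Type u} [Field F] [NumberField F] [Algebra K F]

theorem eF_add (y a b : F) : eF y (a + b) = eF y a * eF y b := by
  unfold eF
  rw [mul_add, map_add, map_add, exK_add]

theorem eF_zero (y : F) : eF y 0 = 1 := by
  unfold eF
  rw [mul_zero, map_zero, map_zero, exK_zero]

theorem eF_mul (y u z : F) : eF (y * u) z = eF y (u * z) := by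
  unfold eF
  rw [mul_assoc]

end

end Pool.Agent.Lib.MP_1a91b9_nuW.WN
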