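import Pool.Agent.Lib.MP_1a91b9_nuW.Defs
import Pool.Agent.Lib.MP_1a91b9_nuW.WN.Pl
import Pool.Agent.Lib.MP_1a91b9_nuT.Sd

/-!
# G7, stream WN: the value of the L-function of the curve over `F` up to units above `ℓ`

If `UnitW p F` and `UnitW (cK p) F` then `‖L(1) / Om ^ n‖ ^ 2 * √|discr F|` is a unit at all places above `ℓ`:
for `A` above `p` let `A'` be its complex conjugate, a place above `cK p`. With a generator `d` of the relative
norm of the different, `(x ^ 2 * d)` is a unit at `A` and at `A'`, so `(x ^ 2 * d) * conj (x ^ 2 * d)` is a unit at `A`; its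
square root is `‖x‖ ^ 2 * √(absNorm different)`, and `|discr F| = absNorm different * |discr K| ^ n`, where
`discr K` is prime to `ℓ`.
-/

set_option autoImplicit false

namespace Pool.Agent.Lib.MP_1a91b9_nuW.WN

variable [Pool.Agent.Lib.MP_1a91b9_nuT.CD]

open Pool.Agent.Lib.MP_1a91b9_nuT hiding cj
open NumberField IsDedekindDomain Module Pool.Agent.Lib.MP_1a91b9_nt
  Pool.Agent.Lib.MP_1a91b9_nuT.S4 Pool.Agent.Lib.MP_1a91b9_nuG Pool.Agent.Lib.MP_1a91b9_nuX

universe u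

theorem trace_form (m n : ℤ) : Algebra.trace ℤ (𝓞 K) ((m : 𝓞 K) + (n : 𝓞 K) * ta) =
    2 * m + CD.tr * n := by
  rw [Algebra.trace_eq_matrix_trace bas, Matrix.trace_fin_two]
  simp only [Algebra.leftMulMatrix_eq_repr_mul, bas_zero, bas_one]
  have e0 : ((m : 𝓞 K) + (n : 𝓞 K) * ta) * 1 = (m : 𝓞 K) + (n : 𝓞 K) * ta := mul_one _
  have e1 : ((m : 𝓞 K) + (n : 𝓞 K) * ta) * ta =
      ((-(n * CD.nm) : ℤ) : 𝓞 K) + ((m + n * CD.tr : ℤ) : 𝓞 K) * ta := by
    push_cast
    linear_combination (n : 𝓞 K) * ta_quad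
  rw [e0, e1, bas_repr, bas_repr]
  simp
  ring

/-- the discriminant of `K` -/
theorem discr_K : discr K = CD.tr ^ 2 - 4 * CD.nm := by
  rw [← discr_eq_discr K bas, Algebra.discr_def, Matrix.det_fin_two]
  simp only [Algebra.traceMatrix_apply, Algebra.traceForm_apply, bas_zero, bas_one]
  have e0 : (1 : 𝓞 K) * 1 = ((1 : ℤ) : 𝓞 K) + ((0 : ℤ) : 𝓞 K) * ta := by simp
  have e1 : (1 : 𝓞 K) * ta = ((0 : ℤ) : 𝓞 K) + ((1 : ℤ) : 𝓞 K) * ta := by simp
  have e2 : (ta : 𝓞 K) * 1 = ((0 : ℤ) : 𝓞 K) + ((1 : ℤ) : 𝓞 K) * ta := by simp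
  have e3 : (ta : 𝓞 K) * ta = ((-CD.nm : ℤ) : 𝓞 K) + ((CD.tr : ℤ) : 𝓞 K) * ta := by
    push_cast
    linear_combination ta_quad
  rw [e0, e1, e2, e3, trace_form, trace_form, trace_form]
  ring

theorem zt_sub_sq : (zt - (starRingEnd ℂ) zt) ^ 2 = ((discr K : ℤ) : ℂ) := by
  rw [discr_K, conj_zt]
  have h := zt_quad
  push_cast
  linear_combination 4 * h

section
variable {p : 𝓞 K} {ℓ : ℕ} {A : ValuationSubring ℂ}

/-- the discriminant of `K` is a unit above `ℓ` -/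
theorem val_discrK (hp : Spl p ℓ) (hA : PlP p A) : A.valuation ((discr K : ℤ) : ℂ) = 1 := by
  have h0 : A.valuation (zt - (starRingEnd ℂ) zt) = 1 := by
    refine le_antisymm ?_ ?_
    · have h1 : zt - (starRingEnd ℂ) zt = embK ((ta - cK ta : 𝓞 K) : K) := by
        have e : ((ta - cK ta : 𝓞 K) : K) = (ta : K) - ((cK ta : 𝓞 K) : K) := by simp
        rw [e, map_sub, emb_cK]
        rfl
      rw [h1]
      exact val_emb A _
    · by_contra hlt
      push Not at hlt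
      obtain ⟨m, n, hmn⟩ := exists_coords p
      have h2 : embK (p : K) - embK ((cK p : 𝓞 K) : K) = n * (zt - (starRingEnd ℂ) zt) := by
        rw [emb_cK]
        have h3 : embK (p : K) = m + n * zt := by rw [hmn, emb_coords]
        rw [h3, map_add, map_mul, map_intCast, map_intCast]
        ring
      have h4 : A.valuation (embK (p : K) - embK ((cK p : 𝓞 K) : K)) < 1 := by
        rw [h2, map_mul]
        calc A.valuation (n : ℂ) * A.valuation (zt - (starRingEnd ℂ) zt) ≤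
              1 * A.valuation (zt - (starRingEnd ℂ) zt) := by
              refine mul_le_mul_left (val_integral A (isIntegral_algebraMap (x := n))) _
          _ < 1 := by rw [one_mul]; exact hlt
      have h5 : A.valuation (embK ((cK p : 𝓞 K) : K)) < 1 := by
        have e : embK ((cK p : 𝓞 K) : K) =
            embK (p : K) - (embK (p : K) - embK ((cK p : 𝓞 K) : K)) := by ring
        rw [e]
        exact Valuation.map_sub_lt _ (val_embP hA) h4
      rw [val_cKp hp hA] at h5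
      exact lt_irrefl _ h5
  rw [← zt_sub_sq, map_pow, h0, one_pow]

theorem spl_symm (hp : Spl p ℓ) : Spl (cK p) ℓ := by
  have e : cK (cK p) = p := Pool.Agent.Lib.MP_1a91b9_nuT.cj_cj p
  exact ⟨hp.prime, hp.odd, by rw [e, mul_comm]; exact hp.mul, by rw [e]; exact hp.cop.symm⟩

/-- a place above `ℓ` is above `p` or above `cK p` -/
theorem plP_or (hp : Spl p ℓ) (hA : (ℓ : ℂ)⁻¹ ∉ A) : PlP p A ∨ PlP (cK p) A := by
  by_contra h
  push Not at h
  obtain ⟨h1, h2⟩ := h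
  rw [PlP, not_not] at h1 h2
  apply hA
  have e : (ℓ : ℂ) = embK (p : K) * embK ((cK p : 𝓞 K) : K) := by
    have h1 := congrArg (fun x : 𝓞 K => embK (x : K)) hp.mul
    simp only [map_mul, map_natCast] at h1
    exact h1.symm
  rw [e, mul_inv]
  exact A.mul_mem _ _ h1 h2

end

section
variable [HC] {F : Type u} [Field F] [NumberField F] [Algebra K F] {p : 𝓞 K} {ℓ : ℕ}
  {A : ValuationSubring ℂ}

theorem frm_aux (hp : Spl p ℓ) (h1 : UnitW p F) (h2 : UnitW (cK p) F) (L : ℂ → ℂ)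
    (hL : Differentiable ℂ L) (hL1 : ∀ s : ℂ, 2 < s.re → L s = Lf (AN.psbC F) s)
    (hA : PlP p A) :
    A.valuation (((‖L 1 / Om ^ finrank K F‖ ^ 2 * √|(discr F : ℝ)| : ℝ)) : ℂ) = 1 := by
  obtain ⟨L₁, hd1, he1, hv1⟩ := h1
  obtain ⟨L₂, hd2, he2, hv2⟩ := h2
  have e1 : L₁ = L := entire_eq hd1 hL fun s hs => by rw [he1 s hs, hL1 s hs]
  have e2 : L₂ = L := entire_eq hd2 hL fun s hs => by rw [he2 s hs, hL1 s hs]
  subst e1
  subst e2
  obtain ⟨d, hd⟩ := (IsPrincipalIdealRing.principal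
    (Ideal.relNorm (𝓞 K) (differentIdeal (𝓞 K) (𝓞 F)))).principal
  rw [Ideal.submodule_span_eq] at hd
  set x : ℂ := L₂ 1 / Om ^ finrank K F with hx
  have ha : A.valuation (x ^ 2 * embK (d : K)) = 1 := by
    rw [map_mul, map_pow]
    exact hv1 A hA d hd
  have hA' : PlP (cK p) (A.comap (starRingEnd ℂ)) := by
    rw [PlP, ValuationSubring.mem_comap, map_inv₀, emb_cK, Complex.conj_conj]
    exact hA
  have hb' : (A.comap (starRingEnd ℂ)).valuation (x ^ 2 * embK (d : K)) = 1 := by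
    rw [map_mul, map_pow]
    exact hv2 _ hA' d hd
  have hb : A.valuation ((starRingEnd ℂ) (x ^ 2 * embK (d : K))) = 1 := by
    have h3 : x ^ 2 * embK (d : K) ∈ A.comap (starRingEnd ℂ) :=
      (ValuationSubring.valuation_le_one_iff _ _).mp hb'.le
    have h4 : (x ^ 2 * embK (d : K))⁻¹ ∈ A.comap (starRingEnd ℂ) := by
      rw [← ValuationSubring.valuation_le_one_iff, map_inv₀, hb', inv_one]
    rw [ValuationSubring.mem_comap] at h3 h4
    rw [map_inv₀] at h4
    rw [← ValuationSubring.valuation_le_one_iff] at h3 h4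
    rw [map_inv₀] at h4
    refine le_antisymm h3 ?_
    have h0 : A.valuation ((starRingEnd ℂ) (x ^ 2 * embK (d : K))) ≠ 0 := by
      rw [Ne, map_eq_zero, map_eq_zero]
      intro h0
      rw [h0, map_zero] at ha
      exact zero_ne_one ha
    exact (inv_le_one₀ (zero_lt_iff.mpr h0)).mp h4
  have hdd : embK (d : K) * (starRingEnd ℂ) (embK (d : K)) =
      (Ideal.absNorm (differentIdeal (𝓞 K) (𝓞 F)) : ℂ) := by
    have h3 := congrArg (fun x : 𝓞 K => embK (x : K)) (Pool.Agent.Lib.MP_1a91b9_nuT.mul_cj d)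
    simp only [map_mul, map_natCast] at h3
    have h4 : Ideal.absNorm (Ideal.span {d}) = Ideal.absNorm (differentIdeal (𝓞 K) (𝓞 F)) := by
      rw [← hd]
      exact Ideal.absNorm_relNorm (𝓞 K) (𝓞 F) _
    rw [← emb_cK, ← h4]
    exact h3
  have hdisc := natAbs_discr_eq_absNorm_differentIdeal_mul_natAbs_discr_pow K (𝓞 K) F (𝓞 F)
  have hZ : (((‖x‖ ^ 2 * √|(discr F : ℝ)| : ℝ)) : ℂ) ^ 2 =
      (x ^ 2 * embK (d : K)) * (starRingEnd ℂ) (x ^ 2 * embK (d : K)) *
        (((discr K).natAbs : ℕ) : ℂ) ^ finrank K F := by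
    have h5 : √|(discr F : ℝ)| ^ 2 = (((discr F).natAbs : ℕ) : ℝ) := by
      rw [Real.sq_sqrt (abs_nonneg _), Nat.cast_natAbs, Int.cast_abs]
    have h6 : (((‖x‖ ^ 2 * √|(discr F : ℝ)| : ℝ)) : ℂ) ^ 2 =
        (((‖x‖ ^ 2 : ℝ)) : ℂ) ^ 2 * ((√|(discr F : ℝ)| ^ 2 : ℝ) : ℂ) := by
      push_cast
      ring
    have h7 : (((‖x‖ ^ 2 : ℝ)) : ℂ) = x * (starRingEnd ℂ) x := by
      rw [Complex.mul_conj, Complex.normSq_eq_norm_sq]
    rw [h6, h5, hdisc, h7, map_mul, map_pow]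
    push_cast
    rw [← hdd]
    ring
  have hK : A.valuation (((discr K).natAbs : ℕ) : ℂ) = 1 := by
    have h8 := val_discrK hp hA
    rcases Int.natAbs_eq (discr K) with h9 | h9
    · rw [h9] at h8
      simpa using h8
    · rw [h9] at h8
      simpa using h8
  have hfin : A.valuation (((‖x‖ ^ 2 * √|(discr F : ℝ)| : ℝ)) : ℂ) ^ 2 = 1 := by
    rw [← map_pow, hZ, map_mul, map_mul, ha, hb, map_pow, hK, one_pow, mul_one, mul_one]
  exact (pow_eq_one_iff_of_nonneg zero_le two_ne_zero).mp hfin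

/-- the value of the L-function up to units above `ℓ` -/
theorem frm (hp : Spl p ℓ) (h1 : UnitW p F) (h2 : UnitW (cK p) F) (L : ℂ → ℂ)
    (hL : Differentiable ℂ L) (hL1 : ∀ s : ℂ, 2 < s.re → L s = Lf (AN.psbC F) s)
    (hA : (ℓ : ℂ)⁻¹ ∉ A) :
    A.valuation (((‖L 1 / Om ^ finrank K F‖ ^ 2 * √|(discr F : ℝ)| : ℝ)) : ℂ) = 1 := by
  rcases plP_or hp hA with h | h
  · exact frm_aux hp h1 h2 L hL hL1 h
  · have e : cK (cK p) = p := Pool.Agent.Lib.MP_1a91b9_nuT.cj_cj p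
    exact frm_aux (spl_symm hp) h2 (by rw [e]; exact h1) L hL hL1 h

end

end Pool.Agent.Lib.MP_1a91b9_nuW.WN
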