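import Pool.Agent.Lib.MP_1a91b9_nuW.WN.Defs

/-!
# G7, WN: Gauss sums modulo an ideal

`R ⧸ C` is finite; `Ideal.Quotient.mk_out`: `mk (Quotient.out U) = U`, so `Quotient.out (mk a) - a ∈ C` and
`κ (Quotient.out (mk a)) = κ a` (per), `ψ (Quotient.out (mk a) * r) = ψ (a * r)` (add, tr).
`gsum_mul`: let `y * z - 1 ∈ C`; the map `U ↦ mk z * U` is a bijection of `R ⧸ C` (inverse `mk y * ·`), and
`κ' (z * u) = κ' z * κ' u`; so `gsum κ' ψ r = ∑_u κ' (z u) ψ (z u r) = κ' z * gsum κ' ψ (z r)`; multiply by `κ z`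
(`κ z * κ' z = 1`).
`gsum_congr`: `ψ (u r) = ψ (u r')` for `r - r' ∈ C`.
`gsum_all`: if `r` is coprime to `C`: `gsum_mul` with `z = r`, `r = 1`. Otherwise take `z` from `hex`: `gsum r = gsum (z r)`
(`gsum_congr`) `= κ z * gsum r`, so `gsum r = 0 = κ r`.
`sum_char`: `∑_U ψ (out U * a)` is the number of elements if `a ∈ C` (all terms are `1`); if `a ∉ C` there is `c` with
`ψ (c * a) ≠ 1` (nd), and shifting `U ↦ U + mk c` multiplies the sum by `ψ (c a)`, so it is `0`.
`gsum_mul_gsum`: `∑_r gsum κ' ψ r * gsum κ ψ (-r)` (r over `out` of `R ⧸ C`) equals, expanding and exchanging the sums,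
`∑_u ∑_u' κ' u κ u' ∑_r ψ (r (u - u')) = N * ∑_u κ' u κ u` (`sum_char`: `u - u' ∈ C` iff `U = U'`); by `gsum_all` (for `κ` and, with
the roles exchanged, for `κ'`) it is also `∑_r κ r κ' (-r) * τ τ' ` with `κ' (-r) = κ' (-1) κ' r = κ' r`. The sum
`∑_r κ r κ' r` is not `0`: each term is `0` or `1` and the term of the class of `1` is `1` (so it is the cast of a positive natural
number). Cancel it.
-/

set_option autoImplicit false

namespace Pool.Agent.Lib.MP_1a91b9_nuW.WN

variable [Pool.Agent.Lib.MP_1a91b9_nuT.CD]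

open Pool.Agent.Lib.MP_1a91b9_nuT hiding cj
open NumberField IsDedekindDomain Module Pool.Agent.Lib.MP_1a91b9_nt
  Pool.Agent.Lib.MP_1a91b9_nuT.S4 Pool.Agent.Lib.MP_1a91b9_nuG Pool.Agent.Lib.MP_1a91b9_nuX

universe u

section
variable {R : Type*} [CommRing R] {C : Ideal R} [Fintype (R ⧸ C)] {κ κ' ψ : R → ℂ}

omit [Fintype (R ⧸ C)] in
private theorem gauss_mk (a b : R) (h : Ideal.Quotient.mk C a = Ideal.Quotient.mk C b) :
    a - b ∈ C := Ideal.Quotient.eq.1 h

omit [Fintype (R ⧸ C)] in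
private theorem gauss_AC (hψ : AC C ψ) {a b : R} (h : a - b ∈ C) : ψ a = ψ b := by
  have h1 := hψ.add (a - b) b
  rwa [sub_add_cancel, hψ.tr _ h, one_mul] at h1

theorem gsum_congr (hψ : AC C ψ) (r r' : R) (h : r - r' ∈ C) :
    gsum C κ ψ r = gsum C κ ψ r' := by
  unfold gsum
  refine Finset.sum_congr rfl fun U _ => ?_
  rw [gauss_AC hψ (a := Quotient.out U * r) (b := Quotient.out U * r') (by
    rw [← mul_sub]
    exact Ideal.mul_mem_left _ _ h)]

theorem gsum_mul (hκ : MC C κ κ') (hκ' : MC C κ' κ) (hψ : AC C ψ) (z r : R)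
    (hz : IsCoprime (Ideal.span {z}) C) : gsum C κ' ψ (z * r) = κ z * gsum C κ' ψ r := by
  obtain ⟨i, hi, j, hj, hij⟩ := Ideal.isCoprime_iff_exists.1 hz
  obtain ⟨y, rfl⟩ := Ideal.mem_span_singleton'.1 hi
  have hyz : Ideal.Quotient.mk C y * Ideal.Quotient.mk C z = 1 := by
    rw [← map_mul, ← map_one (Ideal.Quotient.mk C), Ideal.Quotient.eq]
    have e : y * z - 1 = -j := by rw [← hij]; ring
    rw [e]
    exact neg_mem hj
  have hu : IsUnit (Ideal.Quotient.mk C z) := IsUnit.of_mul_eq_one (Ideal.Quotient.mk C y) (by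
    rw [mul_comm]; exact hyz)
  obtain ⟨u, hu⟩ := hu
  have key : gsum C κ' ψ r = κ' z * gsum C κ' ψ (z * r) := by
    unfold gsum
    rw [← Equiv.sum_comp (Units.mulLeft u), Finset.mul_sum]
    refine Finset.sum_congr rfl fun U _ => ?_
    have e1 : Quotient.out (Units.mulLeft u U) - z * Quotient.out U ∈ C := by
      apply gauss_mk
      rw [Ideal.Quotient.mk_out, map_mul, Ideal.Quotient.mk_out, Units.mulLeft_apply, hu]
    rw [hκ'.per _ _ e1, hκ'.mul, gauss_AC hψ (a := Quotient.out (Units.mulLeft u U) * r)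
      (b := Quotient.out U * (z * r)) (by
        have e2 : Quotient.out (Units.mulLeft u U) * r - Quotient.out U * (z * r) =
          (Quotient.out (Units.mulLeft u U) - z * Quotient.out U) * r := by ring
        rw [e2]
        exact Ideal.mul_mem_right _ _ e1), mul_assoc]
  rw [key, ← mul_assoc, hκ.inv z hz, one_mul]

theorem gsum_all (hκ : MC C κ κ') (hκ' : MC C κ' κ) (hψ : AC C ψ)
    (hex : ∀ r, ¬ IsCoprime (Ideal.span {r}) C → ∃ z, IsCoprime (Ideal.span {z}) C ∧
      (z - 1) * r ∈ C ∧ κ z ≠ 1) (r : R) : gsum C κ' ψ r = κ r * gsum C κ' ψ 1 := by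
  by_cases hr : IsCoprime (Ideal.span {r}) C
  · have h := gsum_mul hκ hκ' hψ r 1 hr
    rwa [mul_one] at h
  · obtain ⟨z, hz, hzr, hne⟩ := hex r hr
    have h1 := gsum_mul hκ hκ' hψ z r hz
    have h2 : gsum C κ' ψ (z * r) = gsum C κ' ψ r := by
      apply gsum_congr hψ
      have e : z * r - r = (z - 1) * r := by ring
      rw [e]
      exact hzr
    have h3 : (κ z - 1) * gsum C κ' ψ r = 0 := by
      rw [sub_mul, one_mul, ← h1, h2, sub_self]
    rw [(mul_eq_zero.1 h3).resolve_left (sub_ne_zero.2 hne), hκ.zero r hr, zero_mul]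

theorem sum_char (hψ : AC C ψ) (a : R) [Decidable (a ∈ C)] :
    ∑ U : R ⧸ C, ψ (Quotient.out U * a) = if a ∈ C then (Fintype.card (R ⧸ C) : ℂ) else 0 := by
  split_ifs with ha
  · have h0 : ∀ U : R ⧸ C, ψ (Quotient.out U * a) = 1 := fun U =>
      hψ.tr _ (Ideal.mul_mem_left _ (Quotient.out U) ha)
    rw [Finset.sum_congr rfl fun U _ => h0 U, Finset.sum_const, Finset.card_univ, nsmul_eq_mul,
      mul_one]
  · have h1 : ∃ c, ψ (c * a) ≠ 1 := by
      by_contra hcon
      apply ha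
      apply hψ.nd
      intro c
      by_contra hc
      exact hcon ⟨c, hc⟩
    obtain ⟨c, hc⟩ := h1
    have h2 : ∑ U : R ⧸ C, ψ (Quotient.out U * a) =
        (∑ U : R ⧸ C, ψ (Quotient.out U * a)) * ψ (c * a) := by
      rw [Finset.sum_mul]
      conv_lhs => rw [← Equiv.sum_comp (Equiv.addRight (Ideal.Quotient.mk C c))]
      refine Finset.sum_congr rfl fun U _ => ?_
      rw [← hψ.add]
      apply gauss_AC hψ
      have e1 : Quotient.out (Equiv.addRight (Ideal.Quotient.mk C c) U) -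
          (Quotient.out U + c) ∈ C := by
        apply gauss_mk
        rw [Ideal.Quotient.mk_out, map_add, Ideal.Quotient.mk_out, Equiv.coe_addRight]
      have e2 : Quotient.out (Equiv.addRight (Ideal.Quotient.mk C c) U) * a -
          (Quotient.out U * a + c * a) = (Quotient.out (Equiv.addRight (Ideal.Quotient.mk C c) U) -
          (Quotient.out U + c)) * a := by ring
      rw [e2]
      exact Ideal.mul_mem_right _ _ e1
    have h3 : (∑ U : R ⧸ C, ψ (Quotient.out U * a)) * (ψ (c * a) - 1) = 0 := by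
      rw [mul_sub, mul_one, ← h2, sub_self]
    exact (mul_eq_zero.1 h3).resolve_right (sub_ne_zero.2 hc)

theorem gsum_mul_gsum (hκ : MC C κ κ') (hκ' : MC C κ' κ) (hψ : AC C ψ)
    (hex : ∀ r, ¬ IsCoprime (Ideal.span {r}) C → ∃ z, IsCoprime (Ideal.span {z}) C ∧
      (z - 1) * r ∈ C ∧ κ z ≠ 1) (hneg : κ' (-1) = 1) :
    gsum C κ' ψ 1 * gsum C κ ψ 1 = (Fintype.card (R ⧸ C) : ℂ) := by
  classical
  have h1 := gsum_all hκ hκ' hψ hex
  have h2 := gsum_all hκ' hκ hψ (fun r hr => by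
    obtain ⟨z, hz, hzr, hne⟩ := hex r hr
    refine ⟨z, hz, hzr, fun h => hne ?_⟩
    have h3 := hκ.inv z hz
    rwa [h, mul_one] at h3)
  have hP : ∑ U : R ⧸ C, κ (Quotient.out U) * κ' (Quotient.out U) ≠ 0 := by
    have e : ∀ U : R ⧸ C, κ (Quotient.out U) * κ' (Quotient.out U) =
        if IsCoprime (Ideal.span {Quotient.out U}) C then (1 : ℂ) else 0 := by
      intro U
      split_ifs with hU
      · exact hκ.inv _ hU
      · rw [hκ.zero _ hU, zero_mul]
    rw [Finset.sum_congr rfl fun U _ => e U, Finset.sum_boole, Nat.cast_ne_zero, ← Nat.pos_iff_ne_zero,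
      Finset.card_pos]
    refine ⟨Ideal.Quotient.mk C 1, Finset.mem_filter.2 ⟨Finset.mem_univ _, ?_⟩⟩
    by_contra hc
    have e3 := hκ.zero _ hc
    rw [hκ.per _ 1 (gauss_mk _ _ (Ideal.Quotient.mk_out _)), hκ.one] at e3
    exact one_ne_zero e3
  have hT1 : ∑ V : R ⧸ C, gsum C κ' ψ (Quotient.out V) * gsum C κ ψ (-Quotient.out V) =
      (gsum C κ' ψ 1 * gsum C κ ψ 1) * ∑ U : R ⧸ C, κ (Quotient.out U) * κ' (Quotient.out U) := by
    rw [Finset.mul_sum]
    refine Finset.sum_congr rfl fun V _ => ?_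
    rw [h1, h2 (-Quotient.out V), ← neg_one_mul (Quotient.out V), hκ'.mul, hneg, one_mul]
    ring
  have hT2 : ∑ V : R ⧸ C, gsum C κ' ψ (Quotient.out V) * gsum C κ ψ (-Quotient.out V) =
      (Fintype.card (R ⧸ C) : ℂ) * ∑ U : R ⧸ C, κ (Quotient.out U) * κ' (Quotient.out U) := by
    have e1 : ∀ V : R ⧸ C, gsum C κ' ψ (Quotient.out V) * gsum C κ ψ (-Quotient.out V) =
        ∑ U : R ⧸ C, ∑ W : R ⧸ C, κ' (Quotient.out U) * κ (Quotient.out W) *
          ψ (Quotient.out V * (Quotient.out U - Quotient.out W)) := by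
      intro V
      unfold gsum
      rw [Finset.sum_mul_sum]
      refine Finset.sum_congr rfl fun U _ => Finset.sum_congr rfl fun W _ => ?_
      have e2 : Quotient.out V * (Quotient.out U - Quotient.out W) =
          Quotient.out U * Quotient.out V + Quotient.out W * (-Quotient.out V) := by ring
      rw [e2, hψ.add]
      ring
    rw [Finset.sum_congr rfl fun V _ => e1 V, Finset.sum_comm, Finset.mul_sum]
    refine Finset.sum_congr rfl fun U _ => ?_
    rw [Finset.sum_comm]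
    have e3 : ∀ W : R ⧸ C, ∑ V : R ⧸ C, κ' (Quotient.out U) * κ (Quotient.out W) *
        ψ (Quotient.out V * (Quotient.out U - Quotient.out W)) =
        if U = W then κ' (Quotient.out U) * κ (Quotient.out W) * (Fintype.card (R ⧸ C) : ℂ)
        else 0 := by
      intro W
      rw [← Finset.mul_sum, sum_char hψ]
      by_cases hUW : U = W
      · rw [if_pos hUW, if_pos (by rw [hUW, sub_self]; exact C.zero_mem)]
      · rw [if_neg hUW, if_neg (fun h => hUW (by
          have h4 := Ideal.Quotient.eq.2 h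
          rwa [Ideal.Quotient.mk_out, Ideal.Quotient.mk_out] at h4)), mul_zero]
    rw [Finset.sum_congr rfl fun W _ => e3 W, Finset.sum_ite_eq, if_pos (Finset.mem_univ _)]
    ring
  exact mul_right_cancel₀ hP (hT1.symm.trans hT2)

end

end Pool.Agent.Lib.MP_1a91b9_nuW.WN
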