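import Pool.Agent.Lib.MP_1a91b9_nuW.WN.GoodA
import Pool.Agent.Lib.MP_1a91b9_nuW.WN.SD

/-!
# G7, stream WN: the weight of the wild step is good, for the arithmetic data `SD`
-/

set_option autoImplicit false

namespace Pool.Agent.Lib.MP_1a91b9_nuW.WN

variable [Pool.Agent.Lib.MP_1a91b9_nuT.CD]

open Pool.Agent.Lib.MP_1a91b9_nuT hiding cj
open NumberField IsDedekindDomain Module Pool.Agent.Lib.MP_1a91b9_nt
  Pool.Agent.Lib.MP_1a91b9_nuT.S4 Pool.Agent.Lib.MP_1a91b9_nuG Pool.Agent.Lib.MP_1a91b9_nuX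

universe u

section
variable [HC] {F F' : Type u} [Field F] [NumberField F] [Field F'] [NumberField F'] [Algebra F F']
  [Algebra K F] {p : 𝓞 K} {ℓ : ℕ} [hℓ : Fact ℓ.Prime] {x : HeightOneSpectrum (𝓞 F) → ZMod ℓ}
  {f C C₁ f₂ C₂ m b : Ideal (𝓞 F)} {S B : Finset (HeightOneSpectrum (𝓞 F))} {k : ℕ} {e : 𝓞 F}
  {θ : F} [Fintype (𝓞 F ⧸ C)]

theorem SD.toWD (hp : Spl p ℓ) (h : SD p ℓ F' f C C₁ f₂ C₂ m S B k) (hx : WX ℓ F' x f)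
    (θ1 : ∀ z ∈ C, ∃ a : 𝓞 K, Algebra.trace K F (θ * (z : F)) = a)
    (θ2 : AC C (fun z : 𝓞 F => eF θ (z : F))) :
    WD p F' x f C C₁ (C₁ * f₂) m (C₁ * m) θ k := by
  refine ⟨hp, rfl, h.f_eq, h.f₁_dvd, h.C₁_dvd, h.fv, ?_, h.Cp, h.C₁p, h.mℓ, h.m1, θ1, θ2⟩
  intro v g hg hv
  refine hx.exact v g ?_ hg
  rw [← h.fv v]
  exact (Ideal.dvd_iff_le.mp h.C_dvd).trans hv

theorem SD.HW_val (hp : Spl p ℓ) (h : SD p ℓ F' f C C₁ f₂ C₂ m S B k) (hx : WX ℓ F' x f)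
    (hl : LD x f C (C₁ * m) b e)
    (θ1 : ∀ z ∈ C, ∃ a : 𝓞 K, Algebra.trace K F (θ * (z : F)) = a)
    (θ2 : AC C (fun z : 𝓞 F => eF θ (z : F))) (j : ZMod ℓ) (hj : j ≠ 0)
    (I : Ideal (𝓞 F)) (r : 𝓞 F) (hI : I * b = Ideal.span {r}) (hIm : IsCoprime I m) :
    HW x C (C₁ * m) b e θ j r = tauW x C e θ j * chiM F' x m j I := by
  exact (h.toWD hp hx θ1 θ2).HW_val hl j hj I r hI hIm

theorem SD.HW_zero (hp : Spl p ℓ) (h : SD p ℓ F' f C C₁ f₂ C₂ m S B k) (hx : WX ℓ F' x f)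
    (hl : LD x f C (C₁ * m) b e)
    (θ1 : ∀ z ∈ C, ∃ a : 𝓞 K, Algebra.trace K F (θ * (z : F)) = a)
    (θ2 : AC C (fun z : 𝓞 F => eF θ (z : F)))
    (I : Ideal (𝓞 F)) (r : 𝓞 F) (hI : I * b = Ideal.span {r}) :
    HW x C (C₁ * m) b e θ 0 r = indC (C₁ * m) I * ramW S C₂ I := by
  exact (h.toWD hp hx θ1 θ2).HW_zero hl S C₂ h.eqC h.memS I r hI

/-- the Gauss sum does not depend on `b` and `e` -/
theorem tauW_indep {b' : Ideal (𝓞 F)} {e' : 𝓞 F} {M M' : Ideal (𝓞 F)} (hl : LD x f C M b e)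
    (hl' : LD x f C M b' e') (j : ZMod ℓ) : tauW x C e θ j = tauW x C e' θ j := by
  rw [tauW, tauW, gsum, gsum]
  refine Finset.sum_congr rfl fun U _ => ?_
  rw [hl.kap_indep hl' (-j)]

/-- the product of the Gauss sums of opposite characters -/
theorem SD.tauW_mul (hp : Spl p ℓ) (h : SD p ℓ F' f C C₁ f₂ C₂ m S B k) (hx : WX ℓ F' x f)
    (hl : LD x f C (C₁ * m) b e)
    (θ1 : ∀ z ∈ C, ∃ a : 𝓞 K, Algebra.trace K F (θ * (z : F)) = a)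
    (θ2 : AC C (fun z : 𝓞 F => eF θ (z : F))) (j : ZMod ℓ) (hj : j ≠ 0) :
    tauW x C e θ j * tauW x C e θ (-j) = (Ideal.absNorm C : ℂ) := by
  have D := h.toWD hp hx θ1 θ2
  have h1 := hl.kap_MC j
  have h2 := hl.kap_MC (-j)
  rw [neg_neg] at h2
  have h3 := gsum_mul_gsum h1 h2 θ2 (hl.kap_exact (C₁ * f₂) D.f_eq D.f₁M D.ex j hj)
    (hl.kap_neg_one hp.odd (-j))
  rw [tauW, tauW, neg_neg, h3, ← Nat.card_eq_fintype_card]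
  rfl

/-- the weight of the wild step is good -/
theorem SD.goodW (hp : Spl p ℓ) (h : SD p ℓ F' f C C₁ f₂ C₂ m S B k) (hx : WX ℓ F' x f)
    (hl : LD x f C (C₁ * m) b e)
    (θ1 : ∀ z ∈ C, ∃ a : 𝓞 K, Algebra.trace K F (θ * (z : F)) = a)
    (θ2 : AC C (fun z : 𝓞 F => eF θ (z : F))) (ε₁ : 𝓞 K) (hε : IsCoprime ε₁ (ℓ : 𝓞 K))
    (j : ZMod ℓ) (hj : j ≠ 0) (A : ValuationSubring ℂ) (t : 𝓞 F) (ht : t ∈ b)
    (htm : t ∉ m * b) (ht2 : Ideal.span {t} ⊔ m * b = b) :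
    GoodW p k (ε₁ ^ ℓ) m b t A
      (fun z => (HW x C (C₁ * m) b e θ j z - HW x C (C₁ * m) b e θ 0 z) /
        (ZMod.stdAddChar (1 : ZMod ℓ) - 1)) := by
  exact (h.toWD hp hx θ1 θ2).goodW hl S C₂ h.eqC h.memS ε₁ hε j hj A t ht htm ht2

/-- the weight of the trivial character is good -/
theorem SD.goodW_zero (hp : Spl p ℓ) (h : SD p ℓ F' f C C₁ f₂ C₂ m S B k) (hx : WX ℓ F' x f)
    (hl : LD x f C (C₁ * m) b e)
    (θ1 : ∀ z ∈ C, ∃ a : 𝓞 K, Algebra.trace K F (θ * (z : F)) = a)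
    (θ2 : AC C (fun z : 𝓞 F => eF θ (z : F))) (ε₁ : 𝓞 K) (hε : IsCoprime ε₁ (ℓ : 𝓞 K))
    (A : ValuationSubring ℂ) (t : 𝓞 F) (ht : t ∈ b) :
    GoodW p k (ε₁ ^ ℓ) m b t A (HW x C (C₁ * m) b e θ 0) := by
  exact (h.toWD hp hx θ1 θ2).goodW_zero hl S C₂ h.eqC h.memS ε₁ hε A t ht

end

end Pool.Agent.Lib.MP_1a91b9_nuW.WN
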