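import Pool.Agent.Lib.MP_1a91b9_nuW.WN.Loc

/-!
# G7, WN: exactness of the conductor

Proof: the ideal `span {r} ⊔ C` is not `⊤`, so it lies in a maximal ideal `v` (nonzero since `C ≠ 0`): `r ∈ v`, `C ≤ v`.
Write `C = C' * v` and `g = C' * f₁`, so `f = g * v`; take `z` from `hex v g`. Then `(z - 1) * r ∈ C' * v = C`. `z` is coprime
to `C`: if a prime `w` contains `z` and `C = C' * v`, then `w ≠ v` as `z ∉ v`, so `C' ≤ w` (v, w are maximal) and `z - 1 ∈ w`, a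
contradiction. `z` is coprime to `f = C * f₁` (`z ≡ 1` mod `f₁`). `uS e z - z ∈ C` and `uS e z - z = (uS e z - 1) - (z - 1) ∈ f₁`
(as `f₁ ∣ M`), and `C`, `f₁` are coprime, so `uS e z - z ∈ C * f₁ = f`; by `addI_elt` (`b = 1`) `addI x (span {uS e z}) =
addI x (span {z}) ≠ 0`. So `kap x C e j z = stdAddChar (j * a)` with `j * a ≠ 0`: not `1` by `ZMod.injective_stdAddChar`
(and `AddChar.map_zero_eq_one`).
-/

set_option autoImplicit false

namespace Pool.Agent.Lib.MP_1a91b9_nuW.WN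

variable [Pool.Agent.Lib.MP_1a91b9_nuT.CD]

open Pool.Agent.Lib.MP_1a91b9_nuT hiding cj
open NumberField IsDedekindDomain Module Pool.Agent.Lib.MP_1a91b9_nt
  Pool.Agent.Lib.MP_1a91b9_nuT.S4 Pool.Agent.Lib.MP_1a91b9_nuG Pool.Agent.Lib.MP_1a91b9_nuX

universe u

section
variable {F : Type u} [Field F] [NumberField F] {ℓ : ℕ} [hℓ : Fact ℓ.Prime]
  {x : HeightOneSpectrum (𝓞 F) → ZMod ℓ} {f C M b : Ideal (𝓞 F)} {e : 𝓞 F}

theorem LD.kap_exact (h : LD x f C M b e) (f₁ : Ideal (𝓞 F)) (hf : f = C * f₁) (hf₁ : f₁ ∣ M)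
    (hex : ∀ (v : HeightOneSpectrum (𝓞 F)) (g : Ideal (𝓞 F)), f = g * v.asIdeal →
      C ≤ v.asIdeal → ∃ z : 𝓞 F, z ≠ 0 ∧ z - 1 ∈ g ∧ z ∉ v.asIdeal ∧
        addI x (Ideal.span {z}) ≠ 0)
    (j : ZMod ℓ) (hj : j ≠ 0) (r : 𝓞 F) (hr : ¬ IsCoprime (Ideal.span {r}) C) :
    ∃ z : 𝓞 F, IsCoprime (Ideal.span {z}) C ∧ (z - 1) * r ∈ C ∧ kap x C e j z ≠ 1 := by
  have hI : Ideal.span {r} ⊔ C ≠ ⊤ := fun hh => hr (Ideal.isCoprime_iff_sup_eq.2 hh)
  obtain ⟨m, hm, hIm⟩ := Ideal.exists_le_maximal _ hI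
  have hrm : r ∈ m := hIm (Ideal.mem_sup_left (Ideal.mem_span_singleton_self r))
  have hCm : C ≤ m := le_sup_right.trans hIm
  have hm0 : m ≠ ⊥ := by
    rintro rfl
    exact h.C0 (by rw [Ideal.zero_eq_bot]; exact le_bot_iff.1 hCm)
  obtain ⟨v, hv⟩ : ∃ v : HeightOneSpectrum (𝓞 F), v.asIdeal = m := ⟨⟨m, hm.isPrime, hm0⟩, rfl⟩
  obtain ⟨C', hC'⟩ := Ideal.dvd_iff_le.2 hCm
  obtain ⟨z, hz0, hz1, hz2, hz3⟩ := hex v (C' * f₁) (by rw [hf, hv, hC']; ring) (by rw [hv]; exact hCm)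
  rw [hv] at hz2
  have hle1 : C' * f₁ ≤ C' := Ideal.mul_le_left
  have hle2 : C' * f₁ ≤ f₁ := Ideal.mul_le_right
  have hle3 : M * b ≤ M := Ideal.mul_le_left
  have hle4 : M ≤ f₁ := Ideal.le_of_dvd hf₁
  have hzC' : z - 1 ∈ C' := hle1 hz1
  have hzf₁ : z - 1 ∈ f₁ := hle2 hz1
  have h1c : ∀ J : Ideal (𝓞 F), z - 1 ∈ J → IsCoprime (Ideal.span {z}) J := by
    intro J hJ
    refine coprime_congr J 1 z (by rw [← neg_sub]; exact J.neg_mem hJ) ?_
    rw [Ideal.span_singleton_one, ← Ideal.one_eq_top]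
    exact isCoprime_one_left
  have hzm : IsCoprime (Ideal.span {z}) m := by
    rw [Ideal.isCoprime_iff_sup_eq]
    refine hm.out.2 _ (lt_of_le_of_ne le_sup_right ?_)
    intro hh
    exact hz2 (by rw [hh]; exact Ideal.mem_sup_left (Ideal.mem_span_singleton_self z))
  have hzC : IsCoprime (Ideal.span {z}) C := by
    rw [hC']
    exact hzm.mul_right (h1c C' hzC')
  refine ⟨z, hzC, ?_, ?_⟩
  · rw [hC', mul_comm m C']
    exact Ideal.mul_mem_mul hzC' hrm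
  · have hCf : IsCoprime C f₁ := h.CM.of_isCoprime_of_dvd_right hf₁
    have e1 : uS e z - z ∈ f := by
      rw [hf, Ideal.mul_eq_inf_of_isCoprime hCf]
      refine Ideal.mem_inf.2 ⟨h.uS_C z, ?_⟩
      have e2 : uS e z - z = (uS e z - 1) - (z - 1) := by ring
      have e3 : uS e z - 1 ∈ f₁ := hle4 (hle3 (h.uS_M z))
      rw [e2]
      exact f₁.sub_mem e3 hzf₁
    have e4 : addI x (Ideal.span {uS e z}) = addI x (Ideal.span {z}) := by
      refine addI_elt x f h.f0 h.ray 1 (Ideal.span {uS e z}) one_ne_zero (uS e z) z (h.uS_ne z)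
        hz0 (mul_one _) (h.uS_cop z hzC) ?_
      rw [mul_one]
      exact e1
    rw [kap, if_pos hzC, e4]
    intro hh
    rw [← AddChar.map_zero_eq_one (ZMod.stdAddChar (N := ℓ))] at hh
    rcases mul_eq_zero.1 (ZMod.injective_stdAddChar hh) with h5 | h5
    · exact hj h5
    · exact hz3 h5

end

end Pool.Agent.Lib.MP_1a91b9_nuW.WN
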