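import Pool.Agent.Lib.MP_1a91b9_nuW.WN.RamS

/-!
# G7, WN: the weight on ideals

`ramW_eq`: termwise, `r ∈ E` iff `E ∣ span {r} = I * b` iff `E ∣ I` for `E = dT T * C₂`, which divides `C = dT S * C₂`
(`T ⊆ S`), so is coprime to `b` (`IsCoprime.dvd_of_dvd_mul_right`).
`ramW_mul`: `E ∣ span {β} * I` iff `E ∣ I` for `E ∣ C`, as `span {β}` is coprime to `C`.
`norm_ramW`: a finite sum of terms bounded by `N(E)`.
-/

set_option autoImplicit false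

namespace Pool.Agent.Lib.MP_1a91b9_nuW.WN

variable [Pool.Agent.Lib.MP_1a91b9_nuT.CD]

open Pool.Agent.Lib.MP_1a91b9_nuT hiding cj
open NumberField IsDedekindDomain Module Pool.Agent.Lib.MP_1a91b9_nt
  Pool.Agent.Lib.MP_1a91b9_nuT.S4 Pool.Agent.Lib.MP_1a91b9_nuG Pool.Agent.Lib.MP_1a91b9_nuX

universe u

section
variable {F : Type u} [Field F] [NumberField F]

private theorem ramw_dvd {S T : Finset (HeightOneSpectrum (𝓞 F))} (hT : T ⊆ S)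
    (C₂ : Ideal (𝓞 F)) : dT T * C₂ ∣ dT S * C₂ := by
  classical
  exact mul_dvd_mul_right (Finset.prod_dvd_prod_of_subset T S _ hT) C₂

theorem ramW_eq (S : Finset (HeightOneSpectrum (𝓞 F))) (C C₂ b : Ideal (𝓞 F))
    [Fintype (𝓞 F ⧸ C)] (hC : C ≠ 0) (hC₂ : C = dT S * C₂)
    (hS : ∀ v : HeightOneSpectrum (𝓞 F), v ∈ S ↔ C ≤ v.asIdeal) {κ ψ : 𝓞 F → ℂ}
    (hψ : AC C ψ) (h1 : ∀ u, IsCoprime (Ideal.span {u}) C → κ u = 1)
    (h0 : ∀ u, ¬ IsCoprime (Ideal.span {u}) C → κ u = 0) (hCb : IsCoprime C b)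
    (I : Ideal (𝓞 F)) (r : 𝓞 F) (hI : I * b = Ideal.span {r}) :
    gsum C κ ψ r = ramW S C₂ I := by
  classical
  rw [gsum_ram S C C₂ hC hC₂ hS hψ h1 h0 r, ramW]
  refine Finset.sum_congr rfl fun T hT => ?_
  have hTS : T ⊆ S := Finset.mem_powerset.1 hT
  have hE : dT T * C₂ ∣ C := hC₂ ▸ ramw_dvd hTS C₂
  have hcop : IsCoprime (dT T * C₂) b := hCb.of_isCoprime_of_dvd_left hE
  have key : r ∈ dT T * C₂ ↔ dT T * C₂ ∣ I := by
    rw [← Ideal.span_singleton_le_iff_mem, ← Ideal.dvd_iff_le, ← hI]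
    exact ⟨fun h => hcop.dvd_of_dvd_mul_right h, fun h => h.mul_right b⟩
  by_cases hr : r ∈ dT T * C₂
  · rw [if_pos hr, if_pos (key.1 hr)]
  · rw [if_neg hr, if_neg (fun h => hr (key.2 h))]

theorem ramW_mul (S : Finset (HeightOneSpectrum (𝓞 F))) (C C₂ : Ideal (𝓞 F))
    (hC₂ : C = dT S * C₂) (β : 𝓞 F) (hβ : IsCoprime (Ideal.span {β}) C) (I : Ideal (𝓞 F)) :
    ramW S C₂ (Ideal.span {β} * I) = ramW S C₂ I := by
  classical
  rw [ramW, ramW]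
  refine Finset.sum_congr rfl fun T hT => ?_
  have hTS : T ⊆ S := Finset.mem_powerset.1 hT
  have hE : dT T * C₂ ∣ C := hC₂ ▸ ramw_dvd hTS C₂
  have hcop : IsCoprime (dT T * C₂) (Ideal.span {β}) :=
    hβ.symm.of_isCoprime_of_dvd_left hE
  have key : dT T * C₂ ∣ Ideal.span {β} * I ↔ dT T * C₂ ∣ I :=
    ⟨fun h => hcop.dvd_of_dvd_mul_left h, fun h => h.mul_left _⟩
  by_cases hr : dT T * C₂ ∣ I
  · rw [if_pos hr, if_pos (key.2 hr)]
  · rw [if_neg hr, if_neg (fun h => hr (key.1 h))]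

theorem norm_ramW (S : Finset (HeightOneSpectrum (𝓞 F))) (C₂ : Ideal (𝓞 F)) :
    ∃ B : ℝ, ∀ I : Ideal (𝓞 F), ‖ramW S C₂ I‖ ≤ B := by
  classical
  refine ⟨∑ T ∈ S.powerset, ‖(∏ _v ∈ S \ T, (-1 : ℂ)) * (Ideal.absNorm (dT T * C₂) : ℂ)‖,
    fun I => ?_⟩
  rw [ramW]
  refine (norm_sum_le _ _).trans (Finset.sum_le_sum fun T _ => ?_)
  rw [norm_mul]
  refine mul_le_of_le_one_right (norm_nonneg _) ?_
  split_ifs
  · rw [norm_one]
  · rw [norm_zero]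
    exact zero_le_one

end

end Pool.Agent.Lib.MP_1a91b9_nuW.WN
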