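import Pool.Agent.Lib.MP_1a91b9_nuW.WN.ExK

/-!
# G7, WN: the additive character of `𝓞 F` with kernel `C`

`exists_theta0`: let `D = differentIdeal (𝓞 K) (𝓞 F)`, `D ≠ 0`. By S4 `exists_inverse_coprime (C * D) C` there are `J`, `w ≠ 0` with
`C * D * J = span {w}` and `IsCoprime J C`; choose `s ∈ J`, `s - 1 ∈ C` (from `J ⊔ C = ⊤`); `θ = s / w`.
Membership in the dual: for `t : F`: (∀ y : 𝓞 F, ∃ a : 𝓞 K, trace (t * y) = a) iff `t ∈ Submodule.traceDual (𝓞 K) K 1`
(`Submodule.mem_traceDual`, `Algebra.traceForm_apply`), and iff `∀ d ∈ D, t * d ∈ 𝓞 F` (image): as fractional ideals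
`FractionalIdeal.dual (𝓞 K) K 1 = (D : FractionalIdeal)⁻¹` (`coeIdeal_differentIdeal`), `FractionalIdeal.mem_inv_iff`; compare the
use of `coeSubmodule_differentIdeal` in `AN.uq_of_coprime` (nuX/AN/Val.lean) for one direction.
First claim: `z ∈ C`, `d ∈ D`: `s z d ∈ J * C * D = span {w}`, so `θ z d ∈ 𝓞 F`. Second claim: `θ r d ∈ 𝓞 F` for all `d ∈ D`:
`span {s * r} * D ≤ span {w} = C * J * D`, cancel `D`: `s * r ∈ C * J ≤ C`, and `r = s r - (s - 1) r ∈ C`.
`exists_theta`: `tr`: `exK_int`. `nd`: for `y`: `(fun a => a * r)` with `a = c * y` (`c : 𝓞 K` via algebraMap), `trace (θ c y r) =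
c * trace (θ y r)` (`Algebra.trace` is `K`-linear: `map_smul`), `exK_detect`, then the second claim.
-/

set_option autoImplicit false

namespace Pool.Agent.Lib.MP_1a91b9_nuW.WN

variable [Pool.Agent.Lib.MP_1a91b9_nuT.CD]

open Pool.Agent.Lib.MP_1a91b9_nuT hiding cj
open NumberField IsDedekindDomain Module Pool.Agent.Lib.MP_1a91b9_nt
  Pool.Agent.Lib.MP_1a91b9_nuT.S4 Pool.Agent.Lib.MP_1a91b9_nuG Pool.Agent.Lib.MP_1a91b9_nuX

universe u

section
variable {F : Type u} [Field F] [NumberField F] [Algebra K F]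

/-- the integrality of the traces and the different -/
private theorem theta_dual (t : F) : (∀ y : 𝓞 F, ∃ a : 𝓞 K,
    Algebra.trace K F (t * algebraMap (𝓞 F) F y) = a) ↔
    ∀ d ∈ differentIdeal (𝓞 K) (𝓞 F), ∃ e : 𝓞 F,
      t * algebraMap (𝓞 F) F d = algebraMap (𝓞 F) F e := by
  have h10 : (1 : FractionalIdeal (nonZeroDivisors (𝓞 F)) F) ≠ 0 := one_ne_zero
  have hI : FractionalIdeal.dual (𝓞 K) K (1 : FractionalIdeal (nonZeroDivisors (𝓞 F)) F) =
      ((differentIdeal (𝓞 K) (𝓞 F) : Ideal (𝓞 F)) :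
        FractionalIdeal (nonZeroDivisors (𝓞 F)) F)⁻¹ := by
    rw [coeIdeal_differentIdeal (𝓞 K) K F (𝓞 F), inv_inv]
  have h1 : (∀ y : 𝓞 F, ∃ a : 𝓞 K, Algebra.trace K F (t * algebraMap (𝓞 F) F y) = a) ↔
      t ∈ FractionalIdeal.dual (𝓞 K) K (1 : FractionalIdeal (nonZeroDivisors (𝓞 F)) F) := by
    rw [FractionalIdeal.mem_dual h10]
    constructor
    · intro h a ha
      obtain ⟨z, rfl⟩ := (FractionalIdeal.mem_one_iff _).1 ha
      obtain ⟨c, hc⟩ := h z
      exact ⟨c, by rw [Algebra.traceForm_apply]; exact hc.symm⟩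
    · intro h y
      obtain ⟨c, hc⟩ := h (algebraMap (𝓞 F) F y) ((FractionalIdeal.mem_one_iff _).2 ⟨y, rfl⟩)
      exact ⟨c, by rw [Algebra.traceForm_apply] at hc; exact hc.symm⟩
  have hD : differentIdeal (𝓞 K) (𝓞 F) ≠ ⊥ := differentIdeal_ne_bot
  rw [h1, hI, FractionalIdeal.mem_inv_iff (FractionalIdeal.coeIdeal_ne_zero.2 hD)]
  constructor
  · intro h d hd
    obtain ⟨e, he⟩ := (FractionalIdeal.mem_one_iff _).1
      (h (algebraMap (𝓞 F) F d) (FractionalIdeal.mem_coeIdeal_of_mem _ hd))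
    exact ⟨e, he.symm⟩
  · intro h y hy
    obtain ⟨d, hd, rfl⟩ := (FractionalIdeal.mem_coeIdeal _).1 hy
    obtain ⟨e, he⟩ := h d hd
    exact (FractionalIdeal.mem_one_iff _).2 ⟨e, he.symm⟩

omit [Pool.Agent.Lib.MP_1a91b9_nuT.CD] [NumberField F] [Algebra K F] in
private theorem theta_frac {w s z d e : F} (hw : w ≠ 0) (h : e * w = s * (z * d)) :
    s / w * z * d = e := by
  field_simp
  linear_combination -h

omit [Pool.Agent.Lib.MP_1a91b9_nuT.CD] [NumberField F] [Algebra K F] in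
private theorem theta_frac' {w s r d e : F} (hw : w ≠ 0) (h : s / w * r * d = e) :
    e * w = s * r * d := by
  rw [← h]
  field_simp

omit [Pool.Agent.Lib.MP_1a91b9_nuT.CD] in
private theorem theta_cancel {R : Type*} [CommRing R] [IsDedekindDomain R] (C J D : Ideal R)
    (hD : D ≠ 0) (x : R) (h : Ideal.span {x} * D ≤ C * J * D) : x ∈ C := by
  have h4 : Ideal.span {x} ≤ C * J := by
    rw [← Ideal.dvd_iff_le] at h ⊢
    exact (mul_dvd_mul_iff_right hD).1 h
  have h6 : C * J ≤ C := Ideal.mul_le_left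
  exact h6 (h4 (Ideal.mem_span_singleton_self _))

theorem exists_theta0 (C : Ideal (𝓞 F)) (hC : C ≠ 0) : ∃ θ : F,
    (∀ z ∈ C, ∀ y : 𝓞 F, ∃ a : 𝓞 K, Algebra.trace K F (θ * (z : F) * y) = a) ∧
    ∀ r : 𝓞 F, (∀ y : 𝓞 F, ∃ a : 𝓞 K, Algebra.trace K F (θ * (r : F) * y) = a) → r ∈ C := by
  have hD : differentIdeal (𝓞 K) (𝓞 F) ≠ 0 := differentIdeal_ne_bot
  obtain ⟨J, w, hJ, hw, h1, h2⟩ := exists_inverse_coprime (C * differentIdeal (𝓞 K) (𝓞 F)) C
    (mul_ne_zero hC hD) hC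
  obtain ⟨s, hs, u, hu, hsu⟩ := Ideal.isCoprime_iff_exists.1 h2
  have hw' : algebraMap (𝓞 F) F w ≠ 0 := RingOfIntegers.coe_ne_zero_iff.2 hw
  refine ⟨algebraMap (𝓞 F) F s / algebraMap (𝓞 F) F w, ?_, ?_⟩
  · intro z hz
    refine (theta_dual _).2 ?_
    intro d hd
    have h3 : s * (z * d) ∈ Ideal.span {w} := by
      rw [← h1, mul_comm (C * _) J]
      exact Ideal.mul_mem_mul hs (Ideal.mul_mem_mul hz hd)
    obtain ⟨e, he⟩ := Ideal.mem_span_singleton'.1 h3
    refine ⟨e, ?_⟩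
    refine theta_frac hw' ?_
    rw [← map_mul, ← map_mul, ← map_mul, he]
  · intro r hr
    have hr' := (theta_dual _).1 hr
    have h5 : C * J * differentIdeal (𝓞 K) (𝓞 F) = Ideal.span {w} := by
      rw [← h1, mul_assoc, mul_assoc, mul_comm J]
    have h3 : Ideal.span {s * r} * differentIdeal (𝓞 K) (𝓞 F) ≤
        C * J * differentIdeal (𝓞 K) (𝓞 F) := by
      rw [h5, Ideal.span_singleton_mul_le_iff]
      intro d hd
      obtain ⟨e, he⟩ := hr' d hd
      rw [Ideal.mem_span_singleton']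
      refine ⟨e, ?_⟩
      apply FaithfulSMul.algebraMap_injective (𝓞 F) F
      rw [map_mul, map_mul, map_mul]
      exact theta_frac' hw' he
    have h7 : s * r ∈ C := theta_cancel C J _ hD _ h3
    have h6 : r = s * r + u * r := by rw [← add_mul, hsu, one_mul]
    rw [h6]
    exact C.add_mem h7 (C.mul_mem_right _ hu)

theorem exists_theta (C : Ideal (𝓞 F)) (hC : C ≠ 0) : ∃ θ : F,
    (∀ z ∈ C, ∃ a : 𝓞 K, Algebra.trace K F (θ * (z : F)) = a) ∧
    AC C (fun z : 𝓞 F => eF θ (z : F)) := by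
  obtain ⟨θ, h1, h2⟩ := exists_theta0 C hC
  have h3 : ∀ z ∈ C, ∃ a : 𝓞 K, Algebra.trace K F (θ * (z : F)) = a := by
    intro z hz
    obtain ⟨a, ha⟩ := h1 z hz 1
    refine ⟨a, ?_⟩
    have h4 : θ * (z : F) * ((1 : 𝓞 F) : F) = θ * (z : F) := by
      change θ * (z : F) * algebraMap (𝓞 F) F 1 = θ * (z : F)
      rw [map_one, mul_one]
    rw [h4] at ha
    exact ha
  refine ⟨θ, h3, ?_, ?_, ?_, ?_⟩
  · change eF θ (algebraMap (𝓞 F) F 0) = 1
    rw [map_zero]
    exact eF_zero θ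
  · intro a b
    change eF θ (algebraMap (𝓞 F) F (a + b)) = _
    rw [map_add]
    exact eF_add θ _ _
  · intro c hc
    obtain ⟨a, ha⟩ := h3 c hc
    change exK (embK (Algebra.trace K F (θ * (c : F)))) = 1
    rw [ha]
    exact exK_int a
  · intro r hr
    refine h2 r ?_
    intro y
    refine exK_detect _ ?_
    intro c
    have h4 := hr (algebraMap (𝓞 K) (𝓞 F) c * y)
    have h7 : algebraMap (𝓞 F) F (algebraMap (𝓞 K) (𝓞 F) c) =
        algebraMap K F (algebraMap (𝓞 K) K c) := by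
      rw [← IsScalarTower.algebraMap_apply (𝓞 K) (𝓞 F) F,
        ← IsScalarTower.algebraMap_apply (𝓞 K) K F]
    have h8 : θ * algebraMap (𝓞 F) F (algebraMap (𝓞 K) (𝓞 F) c * y * r) =
        (algebraMap (𝓞 K) K c) • (θ * algebraMap (𝓞 F) F r * algebraMap (𝓞 F) F y) := by
      rw [Algebra.smul_def, map_mul, map_mul, h7]
      ring
    have h5 : Algebra.trace K F (θ * algebraMap (𝓞 F) F (algebraMap (𝓞 K) (𝓞 F) c * y * r)) =
        (algebraMap (𝓞 K) K c) * Algebra.trace K F (θ * algebraMap (𝓞 F) F r *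
          algebraMap (𝓞 F) F y) := by
      rw [h8, map_smul, smul_eq_mul]
    change exK (embK (algebraMap (𝓞 K) K c * Algebra.trace K F (θ * algebraMap (𝓞 F) F r *
          algebraMap (𝓞 F) F y))) = 1
    rw [← h5]
    exact h4

end

end Pool.Agent.Lib.MP_1a91b9_nuW.WN
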