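import Pool.Agent.Lib.MP_1a91b9_nuW.WN.Chi
import Pool.Agent.Lib.MP_1a91b9_nuW.WN.LocX
import Pool.Agent.Lib.MP_1a91b9_nuW.WN.Gauss
import Pool.Agent.Lib.MP_1a91b9_nuW.WN.RamW
import Pool.Agent.Lib.MP_1a91b9_nuW.WN.Theta
import Pool.Agent.Lib.MP_1a91b9_nuW.WN.Pl

/-!
# G7, stream WN: the weight of the wild step is good

`HW j r = gsum C (kap (-j)) ψ r * gW j r` with `ψ z = eF θ z`. For `I * b = span {r}`, `I` prime to `m`:
`HW j r = τ_j * chiM F' x m j I` for `j ≠ 0` (`HW_val`) and `HW 0 r = indC M I * ramW S C₂ I` (`HW_zero`).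
`goodW_diff`: the weight `(HW j - HW 0) / (ζ - 1)` is good.
-/

set_option autoImplicit false

namespace Pool.Agent.Lib.MP_1a91b9_nuW.WN

variable [Pool.Agent.Lib.MP_1a91b9_nuT.CD]

open Pool.Agent.Lib.MP_1a91b9_nuT hiding cj
open NumberField IsDedekindDomain Module Pool.Agent.Lib.MP_1a91b9_nt
  Pool.Agent.Lib.MP_1a91b9_nuT.S4 Pool.Agent.Lib.MP_1a91b9_nuG Pool.Agent.Lib.MP_1a91b9_nuX

universe u

section
variable {F : Type u} [Field F] [NumberField F] [Algebra K F]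
  {ℓ : ℕ} [hℓ : Fact ℓ.Prime]

/-- the weight attached to the `j`-th character -/
noncomputable def HW (x : HeightOneSpectrum (𝓞 F) → ZMod ℓ) (C M b : Ideal (𝓞 F))
    [Fintype (𝓞 F ⧸ C)] (e : 𝓞 F) (θ : F) (j : ZMod ℓ) (r : 𝓞 F) : ℂ :=
  gsum C (kap x C e (-j)) (fun z : 𝓞 F => eF θ (z : F)) r * gW x M b e j r

/-- the Gauss sum of the `j`-th character -/
noncomputable def tauW (x : HeightOneSpectrum (𝓞 F) → ZMod ℓ) (C : Ideal (𝓞 F))
    [Fintype (𝓞 F ⧸ C)] (e : 𝓞 F) (θ : F) (j : ZMod ℓ) : ℂ :=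
  gsum C (kap x C e (-j)) (fun z : 𝓞 F => eF θ (z : F)) 1

/-- the data of the wild step, independent of the class -/
structure WD (p : 𝓞 K) (F' : Type u) [Field F'] [NumberField F'] [Algebra F F']
    (x : HeightOneSpectrum (𝓞 F) → ZMod ℓ) (f C C₁ f₁ m M : Ideal (𝓞 F)) (θ : F) (k : ℕ) :
    Prop where
  spl : Spl p ℓ
  M_eq : M = C₁ * m
  f_eq : f = C * f₁
  f₁M : f₁ ∣ M
  C₁f : C₁ ∣ f
  supp : ∀ v : HeightOneSpectrum (𝓞 F), f ≤ v.asIdeal ↔ Ram F' v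
  ex : ∀ (v : HeightOneSpectrum (𝓞 F)) (g : Ideal (𝓞 F)), f = g * v.asIdeal →
    C ≤ v.asIdeal → ∃ z : 𝓞 F, z ≠ 0 ∧ z - 1 ∈ g ∧ z ∉ v.asIdeal ∧
      addI x (Ideal.span {z}) ≠ 0
  Cp : C ∣ Ideal.span {up (p ^ k) F}
  C₁p : C₁ ∣ Ideal.span {up (cK p ^ k) F}
  mℓ : IsCoprime m (Ideal.span {(ℓ : 𝓞 F)})
  m1 : m ≠ 1
  θ1 : ∀ z ∈ C, ∃ a : 𝓞 K, Algebra.trace K F (θ * (z : F)) = a
  θ2 : AC C (fun z : 𝓞 F => eF θ (z : F))

variable {F' : Type u} [Field F'] [NumberField F'] [Algebra F F']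
  {p : 𝓞 K} {x : HeightOneSpectrum (𝓞 F) → ZMod ℓ} {f C C₁ f₁ m M b : Ideal (𝓞 F)} {e : 𝓞 F}
  {θ : F} {k : ℕ} [Fintype (𝓞 F ⧸ C)]

theorem WD.gsum_all (D : WD p F' x f C C₁ f₁ m M θ k) (h : LD x f C M b e) (j : ZMod ℓ)
    (hj : j ≠ 0) (r : 𝓞 F) :
    gsum C (kap x C e (-j)) (fun z : 𝓞 F => eF θ (z : F)) r =
      kap x C e j r * tauW x C e θ j := by
  have h1 := h.kap_MC j
  have h2 := h.kap_MC (-j)
  rw [neg_neg] at h2
  exact WN.gsum_all h1 h2 D.θ2 (h.kap_exact f₁ D.f_eq D.f₁M D.ex j hj) r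

theorem WD.HW_val (D : WD p F' x f C C₁ f₁ m M θ k) (h : LD x f C M b e) (j : ZMod ℓ)
    (hj : j ≠ 0) (I : Ideal (𝓞 F)) (r : 𝓞 F) (hI : I * b = Ideal.span {r})
    (hIm : IsCoprime I m) :
    HW x C M b e θ j r = tauW x C e θ j * chiM F' x m j I := by
  rw [HW, D.gsum_all h j hj, h.chi_eq C₁ m D.M_eq ⟨f₁, D.f_eq⟩ D.C₁f D.supp j I r hI hIm]
  ring

theorem WD.HW_zero (D : WD p F' x f C C₁ f₁ m M θ k) (h : LD x f C M b e)
    (S : Finset (HeightOneSpectrum (𝓞 F))) (C₂ : Ideal (𝓞 F)) (hC₂ : C = dT S * C₂)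
    (hS : ∀ v : HeightOneSpectrum (𝓞 F), v ∈ S ↔ C ≤ v.asIdeal)
    (I : Ideal (𝓞 F)) (r : 𝓞 F) (hI : I * b = Ideal.span {r}) :
    HW x C M b e θ 0 r = indC M I * ramW S C₂ I := by
  rw [HW, neg_zero, ramW_eq S C C₂ b h.C0 hC₂ hS D.θ2 (fun u hu => kap_zero u hu)
    (fun u hu => kap_of_not 0 u hu) h.Cb I r hI, mul_comm]
  congr 1
  by_cases h1 : IsCoprime I M
  · rw [indC_of h1]
    exact gW_zero r ((coprime_cofactor h.b0 hI).mp h1)
  · rw [indC_of_not h1]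
    exact gW_of_not 0 r fun h2 => h1 ((coprime_cofactor h.b0 hI).mpr h2)

/-- the coefficients of the weight -/
noncomputable def coW (x : HeightOneSpectrum (𝓞 F) → ZMod ℓ) (C M b : Ideal (𝓞 F)) (e : 𝓞 F)
    (j : ZMod ℓ) (u z : 𝓞 F) : ℂ :=
  (kap x C e (-j) u * gW x M b e j z - kap x C e 0 u * gW x M b e 0 z) /
    (ZMod.stdAddChar (1 : ZMod ℓ) - 1)

theorem stdAddChar_quot (A : ValuationSubring ℂ) (a : ZMod ℓ) :
    (ZMod.stdAddChar a - 1) / (ZMod.stdAddChar (1 : ZMod ℓ) - 1) ∈ A := by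
  have h1 : ZMod.stdAddChar a = (ZMod.stdAddChar (1 : ZMod ℓ)) ^ a.val := by
    rw [← AddChar.map_nsmul_eq_pow, nsmul_eq_mul, mul_one, ZMod.natCast_zmod_val]
  by_cases h0 : ZMod.stdAddChar (1 : ZMod ℓ) - 1 = 0
  · rw [h0, div_zero]
    exact A.zero_mem
  have h2 : (ZMod.stdAddChar a - 1) / (ZMod.stdAddChar (1 : ZMod ℓ) - 1) =
      ∑ i ∈ Finset.range a.val, (ZMod.stdAddChar (1 : ZMod ℓ)) ^ i := by
    rw [div_eq_iff h0, h1, geom_sum_mul]
  have h3 : (ZMod.stdAddChar (1 : ZMod ℓ)) ^ ℓ = 1 := by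
    rw [← AddChar.map_nsmul_eq_pow, nsmul_eq_mul, mul_one, ZMod.natCast_self,
      AddChar.map_zero_eq_one]
  have h4 : IsIntegral ℤ (ZMod.stdAddChar (1 : ZMod ℓ)) := by
    refine ⟨Polynomial.X ^ ℓ - 1, Polynomial.monic_X_pow_sub_C 1 hℓ.out.ne_zero, ?_⟩
    simp [h3]
  rw [h2, ← ValuationSubring.valuation_le_one_iff]
  exact val_integral A (IsIntegral.sum _ fun i _ => h4.pow i)

theorem coW_mem (A : ValuationSubring ℂ) (j : ZMod ℓ) (u z : 𝓞 F) :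
    coW x C M b e j u z ∈ A := by
  rw [coW]
  by_cases h1 : IsCoprime (Ideal.span {u}) C
  · by_cases h2 : Ideal.span {z} ⊔ M * b = b
    · obtain ⟨a, ha⟩ := kap_exists (x := x) (e := e) (-j) u h1
      obtain ⟨a', ha'⟩ := gW_exists (x := x) (e := e) j z h2
      rw [kap_zero u h1, gW_zero z h2, ha, ha', ← AddChar.map_add_eq_mul, mul_one]
      exact stdAddChar_quot A _
    · rw [gW_of_not j z h2, gW_of_not 0 z h2, mul_zero, mul_zero, sub_zero, zero_div]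
      exact A.zero_mem
  · rw [kap_of_not (-j) u h1, kap_of_not 0 u h1, zero_mul, zero_mul, sub_zero, zero_div]
    exact A.zero_mem

omit [Fintype (𝓞 F ⧸ C)] in
theorem WD.mem_Mb (D : WD p F' x f C C₁ f₁ m M θ k) (w : 𝓞 F)
    (hw : w ∈ Ideal.span {algebraMap (𝓞 K) (𝓞 F) (cK p ^ k)} * (m * b)) : w ∈ M * b := by
  have h1 : Ideal.span {algebraMap (𝓞 K) (𝓞 F) (cK p ^ k)} ≤ C₁ := Ideal.dvd_iff_le.mp D.C₁p
  have h2 := Ideal.mul_mono_left (K := m * b) h1 hw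
  rwa [← mul_assoc, ← D.M_eq] at h2

/-- the expansion of the weight -/
theorem WD.exp (D : WD p F' x f C C₁ f₁ m M θ k) (h : LD x f C M b e) (j : ZMod ℓ)
    (A : ValuationSubring ℂ) (t : 𝓞 F) :
    ∃ (ι : Type u) (_ : Fintype ι) (y : ι → F) (g : ι → 𝓞 F → ℂ),
      (∀ i, ∀ z ∈ b, ∃ a : 𝓞 K, (p : K) ^ k * Algebra.trace K F (y i * (z : F)) = a) ∧
      (∀ i z, g i z ∈ A) ∧
      (∀ i z w, w ∈ Ideal.span {algebraMap (𝓞 K) (𝓞 F) (cK p ^ k)} * (m * b) →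
        g i (z + w) = g i z) ∧
      ∀ z, z - t ∈ m * b → (HW x C M b e θ j z - HW x C M b e θ 0 z) /
        (ZMod.stdAddChar (1 : ZMod ℓ) - 1) = ∑ i, eF (y i) (z : F) * g i z := by
  refine ⟨𝓞 F ⧸ C, inferInstance, fun U => θ * ((Quotient.out U : 𝓞 F) : F),
    fun U z => coW x C M b e j (Quotient.out U) z, ?_, ?_, ?_, ?_⟩
  · intro U z _
    have h1 : up (p ^ k) F * Quotient.out U * z ∈ C := by
      refine C.mul_mem_right _ (C.mul_mem_right _ ?_)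
      exact Ideal.dvd_span_singleton.mp D.Cp
    obtain ⟨a, ha⟩ := D.θ1 _ h1
    refine ⟨a, ?_⟩
    rw [← ha, ← smul_eq_mul, ← map_smul]
    congr 1
    have e0 : ((up (p ^ k) F : 𝓞 F) : F) = algebraMap K F ((p : K) ^ k) := by
      have e2 : (((p ^ k : 𝓞 K)) : K) = (p : K) ^ k := map_pow (algebraMap (𝓞 K) K) p k
      rw [← e2]
      exact ((IsScalarTower.algebraMap_apply (𝓞 K) (𝓞 F) F (p ^ k)).symm.trans
        (IsScalarTower.algebraMap_apply (𝓞 K) K F (p ^ k)))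
    have e1 : ((up (p ^ k) F * Quotient.out U * z : 𝓞 F) : F) =
        (algebraMap K F ((p : K) ^ k)) * ((Quotient.out U : 𝓞 F) : F) * (z : F) := by
      rw [← e0]
      exact (map_mul (algebraMap (𝓞 F) F) _ _).trans
        (congrArg (· * (z : F)) (map_mul (algebraMap (𝓞 F) F) _ _))
    rw [e1, Algebra.smul_def]
    ring
  · intro U z
    exact coW_mem A j _ z
  · intro U z w hw
    simp only [coW]
    rw [h.gW_congr j z w (D.mem_Mb w hw), h.gW_congr 0 z w (D.mem_Mb w hw)]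
  · intro z _
    rw [HW, HW, gsum, gsum, neg_zero, Finset.sum_mul, Finset.sum_mul, ← Finset.sum_sub_distrib,
      Finset.sum_div]
    refine Finset.sum_congr rfl fun U _ => ?_
    simp only [coW]
    rw [eF_mul]
    have e1 : ((Quotient.out U * z : 𝓞 F) : F) = ((Quotient.out U : 𝓞 F) : F) * (z : F) :=
      map_mul _ _ _
    rw [e1]
    ring

theorem coW_zero_mem (A : ValuationSubring ℂ) (u z : 𝓞 F) :
    kap x C e 0 u * gW x M b e 0 z ∈ A := by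
  by_cases h1 : IsCoprime (Ideal.span {u}) C
  · by_cases h2 : Ideal.span {z} ⊔ M * b = b
    · rw [kap_zero u h1, gW_zero z h2, mul_one]
      exact A.one_mem
    · rw [gW_of_not 0 z h2, mul_zero]
      exact A.zero_mem
  · rw [kap_of_not 0 u h1, zero_mul]
    exact A.zero_mem

/-- the expansion of the weight, trivial character -/
theorem WD.exp_zero (D : WD p F' x f C C₁ f₁ m M θ k) (h : LD x f C M b e)
    (A : ValuationSubring ℂ) (t : 𝓞 F) :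
    ∃ (ι : Type u) (_ : Fintype ι) (y : ι → F) (g : ι → 𝓞 F → ℂ),
      (∀ i, ∀ z ∈ b, ∃ a : 𝓞 K, (p : K) ^ k * Algebra.trace K F (y i * (z : F)) = a) ∧
      (∀ i z, g i z ∈ A) ∧
      (∀ i z w, w ∈ Ideal.span {algebraMap (𝓞 K) (𝓞 F) (cK p ^ k)} * (m * b) →
        g i (z + w) = g i z) ∧
      ∀ z, z - t ∈ m * b → HW x C M b e θ 0 z = ∑ i, eF (y i) (z : F) * g i z := by
  refine ⟨𝓞 F ⧸ C, inferInstance, fun U => θ * ((Quotient.out U : 𝓞 F) : F),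
    fun U z => kap x C e 0 (Quotient.out U) * gW x M b e 0 z, ?_, ?_, ?_, ?_⟩
  · intro U z _
    have h1 : up (p ^ k) F * Quotient.out U * z ∈ C := by
      refine C.mul_mem_right _ (C.mul_mem_right _ ?_)
      exact Ideal.dvd_span_singleton.mp D.Cp
    obtain ⟨a, ha⟩ := D.θ1 _ h1
    refine ⟨a, ?_⟩
    rw [← ha, ← smul_eq_mul, ← map_smul]
    congr 1
    have e0 : ((up (p ^ k) F : 𝓞 F) : F) = algebraMap K F ((p : K) ^ k) := by
      have e2 : (((p ^ k : 𝓞 K)) : K) = (p : K) ^ k := map_pow (algebraMap (𝓞 K) K) p k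
      rw [← e2]
      exact ((IsScalarTower.algebraMap_apply (𝓞 K) (𝓞 F) F (p ^ k)).symm.trans
        (IsScalarTower.algebraMap_apply (𝓞 K) K F (p ^ k)))
    have e1 : ((up (p ^ k) F * Quotient.out U * z : 𝓞 F) : F) =
        (algebraMap K F ((p : K) ^ k)) * ((Quotient.out U : 𝓞 F) : F) * (z : F) := by
      rw [← e0]
      exact (map_mul (algebraMap (𝓞 F) F) _ _).trans
        (congrArg (· * (z : F)) (map_mul (algebraMap (𝓞 F) F) _ _))
    rw [e1, Algebra.smul_def]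
    ring
  · intro U z
    exact coW_zero_mem A _ z
  · intro U z w hw
    change _ * _ = _ * _
    rw [h.gW_congr 0 z w (D.mem_Mb w hw)]
  · intro z _
    rw [HW, gsum, neg_zero, Finset.sum_mul]
    refine Finset.sum_congr rfl fun U _ => ?_
    rw [eF_mul]
    have e1 : ((Quotient.out U * z : 𝓞 F) : F) = ((Quotient.out U : 𝓞 F) : F) * (z : F) :=
      map_mul _ _ _
    rw [e1]
    ring

omit [Fintype (𝓞 F ⧸ C)] in
theorem WD.span_le (D : WD p F' x f C C₁ f₁ m M θ k) :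
    C * M ∣ Ideal.span {algebraMap (𝓞 K) (𝓞 F) ((p * cK p) ^ k)} * m := by
  rw [D.M_eq, ← mul_assoc]
  refine mul_dvd_mul_right ?_ m
  have e1 : Ideal.span {algebraMap (𝓞 K) (𝓞 F) ((p * cK p) ^ k)} =
      Ideal.span {up (p ^ k) F} * Ideal.span {up (cK p ^ k) F} := by
    rw [Ideal.span_singleton_mul_span_singleton, mul_pow, map_mul]
  rw [e1]
  exact mul_dvd_mul D.Cp D.C₁p

omit [Fintype (𝓞 F ⧸ C)] in
theorem WD.cop_m (D : WD p F' x f C C₁ f₁ m M θ k) :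
    IsCoprime (Ideal.span {algebraMap (𝓞 K) (𝓞 F) ((p * cK p) ^ k)}) m := by
  have e1 : Ideal.span {algebraMap (𝓞 K) (𝓞 F) ((p * cK p) ^ k)} =
      Ideal.span {(ℓ : 𝓞 F)} ^ k := by
    rw [D.spl.mul, Ideal.span_singleton_pow, map_pow, map_natCast]
  rw [e1]
  exact D.mℓ.symm.pow_left

omit [Fintype (𝓞 F ⧸ C)] in
/-- the elements `β` of `GoodW` are prime to `C * M` -/
theorem WD.cop_beta (D : WD p F' x f C C₁ f₁ m M θ k) (ε₁ : 𝓞 K)
    (hε : IsCoprime ε₁ (ℓ : 𝓞 K)) (β : 𝓞 F) (h1 : β - 1 ∈ m)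
    (h2 : algebraMap (𝓞 K) (𝓞 F) ((p * cK p) ^ k) ∣ β - algebraMap (𝓞 K) (𝓞 F) (ε₁ ^ ℓ)) :
    IsCoprime (Ideal.span {β}) (C * M) := by
  refine IsCoprime.of_isCoprime_of_dvd_right ?_ D.span_le
  refine IsCoprime.mul_right ?_ ?_
  · rw [Ideal.isCoprime_span_singleton_iff]
    have h3 : IsCoprime (algebraMap (𝓞 K) (𝓞 F) (ε₁ ^ ℓ))
        (algebraMap (𝓞 K) (𝓞 F) ((p * cK p) ^ k)) := by
      refine IsCoprime.map ?_ _
      rw [D.spl.mul]
      exact hε.pow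
    obtain ⟨c, hc⟩ := h2
    have e1 : β = algebraMap (𝓞 K) (𝓞 F) (ε₁ ^ ℓ) +
        algebraMap (𝓞 K) (𝓞 F) ((p * cK p) ^ k) * c := by
      rw [← hc]; ring
    rw [e1]
    exact h3.add_mul_left_left c
  · rw [Ideal.isCoprime_iff_exists]
    exact ⟨β, Ideal.mem_span_singleton_self β, -(β - 1), m.neg_mem h1, by ring⟩

omit [Fintype (𝓞 F ⧸ C)] in
theorem WD.addI_beta (D : WD p F' x f C C₁ f₁ m M θ k) (h : LD x f C M b e) (ε₁ : 𝓞 K)
    (hε : IsCoprime ε₁ (ℓ : 𝓞 K)) (β : 𝓞 F) (h1 : β - 1 ∈ m)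
    (h2 : algebraMap (𝓞 K) (𝓞 F) ((p * cK p) ^ k) ∣ β - algebraMap (𝓞 K) (𝓞 F) (ε₁ ^ ℓ)) :
    addI x (Ideal.span {β}) = 0 := by
  have hβ0 : β ≠ 0 := by
    rintro rfl
    apply D.m1
    rw [Ideal.one_eq_top, Ideal.eq_top_iff_one]
    have := m.neg_mem h1
    simpa using this
  obtain ⟨s, hs, y, hy, hsy⟩ := Ideal.isCoprime_iff_exists.mp D.cop_m
  -- γ = 1 on m, = ε₁ modulo ℓ ^ k
  set γ : 𝓞 F := s + algebraMap (𝓞 K) (𝓞 F) ε₁ * y with hγ
  have g1 : γ - 1 ∈ m := by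
    have e1 : γ - 1 = (algebraMap (𝓞 K) (𝓞 F) ε₁ - 1) * y := by
      rw [hγ]; linear_combination hsy
    rw [e1]
    exact m.mul_mem_left _ hy
  have g2 : γ - algebraMap (𝓞 K) (𝓞 F) ε₁ ∈
      Ideal.span {algebraMap (𝓞 K) (𝓞 F) ((p * cK p) ^ k)} := by
    have e1 : γ - algebraMap (𝓞 K) (𝓞 F) ε₁ = (1 - algebraMap (𝓞 K) (𝓞 F) ε₁) * s := by
      rw [hγ]; linear_combination (algebraMap (𝓞 K) (𝓞 F) ε₁) * hsy
    rw [e1]
    exact Ideal.mul_mem_left _ _ hs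
  have hγ0 : γ ≠ 0 := by
    intro h0
    apply D.m1
    rw [Ideal.one_eq_top, Ideal.eq_top_iff_one]
    rw [h0] at g1
    have := m.neg_mem g1
    simpa using this
  refine addI_pow x f h.f0 h.ray γ β hγ0 hβ0
    ((D.cop_beta ε₁ hε β h1 h2).of_isCoprime_of_dvd_right h.dvd) ?_
  have k1 : β - γ ^ ℓ ∈ m := by
    have e1 : β - γ ^ ℓ = (β - 1) - (γ ^ ℓ - 1) := by ring
    rw [e1]
    refine m.sub_mem h1 ?_
    obtain ⟨c, hc⟩ := sub_one_dvd_pow_sub_one γ ℓ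
    rw [hc]
    exact m.mul_mem_right _ g1
  have k2 : β - γ ^ ℓ ∈ Ideal.span {algebraMap (𝓞 K) (𝓞 F) ((p * cK p) ^ k)} := by
    have e1 : β - γ ^ ℓ = (β - algebraMap (𝓞 K) (𝓞 F) (ε₁ ^ ℓ)) -
        (γ ^ ℓ - algebraMap (𝓞 K) (𝓞 F) ε₁ ^ ℓ) := by
      rw [map_pow]; ring
    rw [e1]
    refine Ideal.sub_mem _ (Ideal.mem_span_singleton.mpr h2) ?_
    obtain ⟨c, hc⟩ := sub_dvd_pow_sub_pow γ (algebraMap (𝓞 K) (𝓞 F) ε₁) ℓ
    rw [hc]
    exact Ideal.mul_mem_right _ _ g2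
  have k3 : β - γ ^ ℓ ∈ Ideal.span {algebraMap (𝓞 K) (𝓞 F) ((p * cK p) ^ k)} * m := by
    rw [Ideal.mul_eq_inf_of_coprime (Ideal.isCoprime_iff_sup_eq.mp D.cop_m)]
    exact ⟨k2, k1⟩
  exact Ideal.dvd_iff_le.mp (h.dvd.trans D.span_le) k3

/-- the weight of the wild step is good -/
theorem WD.goodW (D : WD p F' x f C C₁ f₁ m M θ k) (h : LD x f C M b e)
    (S : Finset (HeightOneSpectrum (𝓞 F))) (C₂ : Ideal (𝓞 F)) (hC₂ : C = dT S * C₂)
    (hS : ∀ v : HeightOneSpectrum (𝓞 F), v ∈ S ↔ C ≤ v.asIdeal)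
    (ε₁ : 𝓞 K) (hε : IsCoprime ε₁ (ℓ : 𝓞 K)) (j : ZMod ℓ) (hj : j ≠ 0)
    (A : ValuationSubring ℂ) (t : 𝓞 F) (ht : t ∈ b) (htm : t ∉ m * b)
    (ht2 : Ideal.span {t} ⊔ m * b = b) :
    GoodW p k (ε₁ ^ ℓ) m b t A (fun z => (HW x C M b e θ j z - HW x C M b e θ 0 z) /
      (ZMod.stdAddChar (1 : ZMod ℓ) - 1)) := by
  have key : ∀ z, z - t ∈ m * b → ∃ I : Ideal (𝓞 F), I * b = Ideal.span {z} ∧
      IsCoprime I m := by
    intro z hz
    have hzb : z ∈ b := by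
      have := b.add_mem (Ideal.mul_le_right hz) ht
      rwa [sub_add_cancel] at this
    obtain ⟨I, hI⟩ := Ideal.dvd_span_singleton.mpr hzb
    rw [mul_comm] at hI
    refine ⟨I, hI.symm, (coprime_cofactor h.b0 hI.symm).mpr ?_⟩
    refine le_antisymm (sup_le ((Ideal.span_singleton_le_iff_mem _).mpr hzb)
      Ideal.mul_le_right) ?_
    have hbt : b ≤ Ideal.span {t} ⊔ m * b := ht2.ge
    refine hbt.trans ?_
    refine sup_le ?_ le_sup_right
    rw [Ideal.span_singleton_le_iff_mem]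
    have e1 : t = z - (z - t) := by ring
    rw [e1]
    exact Ideal.sub_mem _ (Ideal.mem_sup_left (Ideal.mem_span_singleton_self z))
      (Ideal.mem_sup_right hz)
  refine ⟨?_, ?_, ?_⟩
  · intro u _ z hz
    obtain ⟨I, hI, hIm⟩ := key z hz
    have e1 : I * b = Ideal.span {(u : 𝓞 F) * z} := by
      rw [hI, Ideal.span_singleton_mul_left_unit u.isUnit]
    rw [D.HW_val h j hj I z hI hIm, D.HW_val h j hj I _ e1 hIm,
      D.HW_zero h S C₂ hC₂ hS I z hI, D.HW_zero h S C₂ hC₂ hS I _ e1]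
  · intro β h1 h2 z hz
    obtain ⟨I, hI, hIm⟩ := key z hz
    have hβc := D.cop_beta ε₁ hε β h1 h2
    have hβm : IsCoprime (Ideal.span {β}) m :=
      hβc.of_isCoprime_of_dvd_right (Dvd.intro_left (C * C₁) (by rw [D.M_eq, mul_assoc]))
    have hβM : IsCoprime (Ideal.span {β}) M := hβc.of_isCoprime_of_dvd_right (dvd_mul_left M C)
    have hβC : IsCoprime (Ideal.span {β}) C := hβc.of_isCoprime_of_dvd_right (dvd_mul_right C M)
    have hβ0 : Ideal.span {β} ≠ 0 := by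
      intro h0
      rw [h0] at hβm
      have h3 := Ideal.isCoprime_iff_sup_eq.mp hβm
      rw [Ideal.zero_eq_bot, bot_sup_eq] at h3
      exact D.m1 (by rw [Ideal.one_eq_top]; exact h3)
    have e1 : (Ideal.span {β} * I) * b = Ideal.span {β * z} := by
      rw [mul_assoc, hI, Ideal.span_singleton_mul_span_singleton]
    have hchi : chiM F' x m j (Ideal.span {β} * I) = chiM F' x m j I := by
      rw [chiM_of (hβm.mul_left hIm), chiM_of hIm, mulI_mul,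
        mulI_cj x f (fun v hv => (D.supp v).mpr hv) j _ hβ0
          (hβc.of_isCoprime_of_dvd_right h.dvd), D.addI_beta h ε₁ hε β h1 h2, mul_zero,
        AddChar.map_zero_eq_one, one_mul]
    have hind : indC M (Ideal.span {β} * I) = indC M I := by
      by_cases h3 : IsCoprime I M
      · rw [indC_of h3, indC_of (hβM.mul_left h3)]
      · rw [indC_of_not h3, indC_of_not fun h4 => h3 h4.of_mul_left_right]
    rw [D.HW_val h j hj I z hI hIm, D.HW_val h j hj _ _ e1 (hβm.mul_left hIm),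
      D.HW_zero h S C₂ hC₂ hS I z hI, D.HW_zero h S C₂ hC₂ hS _ _ e1, hchi, hind,
      ramW_mul S C C₂ hC₂ β hβC I]
  · exact D.exp h j A t

/-- the weight of the trivial character is good -/
theorem WD.goodW_zero (D : WD p F' x f C C₁ f₁ m M θ k) (h : LD x f C M b e)
    (S : Finset (HeightOneSpectrum (𝓞 F))) (C₂ : Ideal (𝓞 F)) (hC₂ : C = dT S * C₂)
    (hS : ∀ v : HeightOneSpectrum (𝓞 F), v ∈ S ↔ C ≤ v.asIdeal)
    (ε₁ : 𝓞 K) (hε : IsCoprime ε₁ (ℓ : 𝓞 K))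
    (A : ValuationSubring ℂ) (t : 𝓞 F) (ht : t ∈ b) :
    GoodW p k (ε₁ ^ ℓ) m b t A (HW x C M b e θ 0) := by
  have key : ∀ z, z - t ∈ m * b → ∃ I : Ideal (𝓞 F), I * b = Ideal.span {z} := by
    intro z hz
    have hzb : z ∈ b := by
      have := b.add_mem (Ideal.mul_le_right hz) ht
      rwa [sub_add_cancel] at this
    obtain ⟨I, hI⟩ := Ideal.dvd_span_singleton.mpr hzb
    rw [mul_comm] at hI
    exact ⟨I, hI.symm⟩
  refine ⟨?_, ?_, ?_⟩
  · intro u _ z hz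
    obtain ⟨I, hI⟩ := key z hz
    have e1 : I * b = Ideal.span {(u : 𝓞 F) * z} := by
      rw [hI, Ideal.span_singleton_mul_left_unit u.isUnit]
    rw [D.HW_zero h S C₂ hC₂ hS I z hI, D.HW_zero h S C₂ hC₂ hS I _ e1]
  · intro β h1 h2 z hz
    obtain ⟨I, hI⟩ := key z hz
    have hβc := D.cop_beta ε₁ hε β h1 h2
    have hβM : IsCoprime (Ideal.span {β}) M := hβc.of_isCoprime_of_dvd_right (dvd_mul_left M C)
    have hβC : IsCoprime (Ideal.span {β}) C := hβc.of_isCoprime_of_dvd_right (dvd_mul_right C M)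
    have e1 : (Ideal.span {β} * I) * b = Ideal.span {β * z} := by
      rw [mul_assoc, hI, Ideal.span_singleton_mul_span_singleton]
    have hind : indC M (Ideal.span {β} * I) = indC M I := by
      by_cases h3 : IsCoprime I M
      · rw [indC_of h3, indC_of (hβM.mul_left h3)]
      · rw [indC_of_not h3, indC_of_not fun h4 => h3 h4.of_mul_left_right]
    rw [D.HW_zero h S C₂ hC₂ hS I z hI, D.HW_zero h S C₂ hC₂ hS _ _ e1, hind,
      ramW_mul S C C₂ hC₂ β hβC I]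
  · exact D.exp_zero h A t

end

end Pool.Agent.Lib.MP_1a91b9_nuW.WN
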