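import Pool.Agent.Lib.MP_1a91b9_nuW.WN.Ray

/-!
# G7, WN: the local characters

Notation: `h : LD x f C M b e`. `mem_fb`: `C` and `M * b` are coprime (h.CM, h.Cb: IsCoprime.mul_right), so
`C ⊓ (M * b) = C * (M * b)` (Ideal.mul_eq_inf_of_coprime / Ideal.inf_eq_mul_of_isCoprime) `= (C * M) * b ≤ f * b` by h.dvd.
`uS e u - u = (u - 1) * (e - 1)`, `uS e u - 1 = (u - 1) * e`, `rS e r - 1 = (r - 1) * (1 - e)`, `rS e r - r = (1 - r) * e`.
`uS_ne`: otherwise `1 ∈ M * b ≤ M`, against h.M1. `uS_cop`: `uS e u ≡ u` mod `C` is coprime to `C`, and `≡ 1` mod `M`, so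
coprime to `C * M`, a multiple of `f`.
`uS_add`: for `z` coprime to `C * M` with `z ≡ u` mod `C`, `z ≡ 1` mod `M`, `z ≠ 0`: `addI x (span {uS e u}) =
addI x (span {z})` by `addI_elt` with `b = 1` (the difference lies in `C ⊓ M = C * M ≤ f`).
`kap_MC`: per: `IsCoprime (span {u}) C` only depends on `u` modulo `C`; then `uS_add`. mul: `uS e (u * u')` against
`z = uS e u * uS e u'` (congruent to `u u'` mod `C`, to `1` mod `M`), `addI_span_mul`, `AddChar.map_add_eq_mul`; if
`u * u'` is not coprime to `C`, one of `u, u'` is not. one: `uS e 1 = 1`, `addI x (span {1}) = 0`. inv: `j * a + (-j) * a = 0`.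
`kap_neg_one`: `kap j (-1) ^ 2 = kap j 1 = 1` and `kap j (-1) ^ ℓ = 1` with `ℓ` odd. `kap_indep`: `uS_add`.
-/

set_option autoImplicit false

namespace Pool.Agent.Lib.MP_1a91b9_nuW.WN

variable [Pool.Agent.Lib.MP_1a91b9_nuT.CD]

open Pool.Agent.Lib.MP_1a91b9_nuT hiding cj
open NumberField IsDedekindDomain Module Pool.Agent.Lib.MP_1a91b9_nt
  Pool.Agent.Lib.MP_1a91b9_nuT.S4 Pool.Agent.Lib.MP_1a91b9_nuG Pool.Agent.Lib.MP_1a91b9_nuX

universe u

section
variable {F : Type u} [Field F] [NumberField F] {ℓ : ℕ} [hℓ : Fact ℓ.Prime]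
  {x : HeightOneSpectrum (𝓞 F) → ZMod ℓ} {f C M b : Ideal (𝓞 F)} {e : 𝓞 F}

theorem coprime_congr (C : Ideal (𝓞 F)) (u u' : 𝓞 F) (h : u - u' ∈ C)
    (hu : IsCoprime (Ideal.span {u}) C) : IsCoprime (Ideal.span {u'}) C := by
  obtain ⟨a, ha, c, hc, hac⟩ := Ideal.isCoprime_iff_exists.mp hu
  rw [Ideal.mem_span_singleton] at ha
  obtain ⟨y, rfl⟩ := ha
  refine Ideal.isCoprime_iff_exists.mpr ⟨u' * y, Ideal.mul_mem_right _ _
    (Ideal.mem_span_singleton_self u'), c + (u - u') * y, C.add_mem hc (C.mul_mem_right _ h), ?_⟩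
  linear_combination hac

theorem LD.mem_fb (h : LD x f C M b e) (z : 𝓞 F) (h1 : z ∈ C) (h2 : z ∈ M * b) : z ∈ f * b := by
  have h3 : IsCoprime C (M * b) := h.CM.mul_right h.Cb
  have h4 : z ∈ C ⊓ (M * b) := Ideal.mem_inf.2 ⟨h1, h2⟩
  rw [← Ideal.mul_eq_inf_of_isCoprime h3, ← mul_assoc] at h4
  exact Ideal.mul_mono_left (Ideal.le_of_dvd h.dvd) h4

theorem LD.uS_C (h : LD x f C M b e) (u : 𝓞 F) : uS e u - u ∈ C := by
  have e1 : uS e u - u = (u - 1) * (e - 1) := by
    unfold uS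
    ring
  rw [e1]
  exact C.mul_mem_left _ h.e1

theorem LD.uS_M (h : LD x f C M b e) (u : 𝓞 F) : uS e u - 1 ∈ M * b := by
  have e1 : uS e u - 1 = (u - 1) * e := by
    unfold uS
    ring
  rw [e1]
  exact (M * b).mul_mem_left _ h.e0

private theorem loc_left {I J : Ideal (𝓞 F)} {z : 𝓞 F} (h : z ∈ I * J) : z ∈ I := by
  have h1 : I * J ≤ I := Ideal.mul_le_left
  exact h1 h

private theorem loc_one (J : Ideal (𝓞 F)) (z : 𝓞 F) (h : z - 1 ∈ J) :
    IsCoprime (Ideal.span {z}) J := by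
  refine coprime_congr J 1 z (by rw [← neg_sub]; exact J.neg_mem h) ?_
  rw [Ideal.span_singleton_one, ← Ideal.one_eq_top]
  exact isCoprime_one_left

theorem LD.rS_C (h : LD x f C M b e) (r : 𝓞 F) : rS e r - 1 ∈ C := by
  have e1 : rS e r - 1 = (1 - r) * (e - 1) := by
    unfold rS
    ring
  rw [e1]
  exact C.mul_mem_left _ h.e1

theorem LD.rS_M (h : LD x f C M b e) (r : 𝓞 F) : rS e r - r ∈ M * b := by
  have e1 : rS e r - r = (1 - r) * e := by
    unfold rS
    ring
  rw [e1]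
  exact (M * b).mul_mem_left _ h.e0

theorem LD.uS_ne (h : LD x f C M b e) (u : 𝓞 F) : uS e u ≠ 0 := by
  intro h0
  have h1 := h.uS_M u
  rw [h0, zero_sub] at h1
  have h1' : (1 : 𝓞 F) ∈ M * b := by
    have e1 : (1 : 𝓞 F) = -(-1) := (neg_neg 1).symm
    rw [e1]
    exact (M * b).neg_mem h1
  have h2 : (1 : 𝓞 F) ∈ M := loc_left h1'
  exact h.M1 (by rw [Ideal.one_eq_top, Ideal.eq_top_iff_one]; exact h2)

theorem LD.uS_cop (h : LD x f C M b e) (u : 𝓞 F) (hu : IsCoprime (Ideal.span {u}) C) :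
    IsCoprime (Ideal.span {uS e u}) f := by
  have h1 : IsCoprime (Ideal.span {uS e u}) C :=
    coprime_congr C u _ (by rw [← neg_sub]; exact C.neg_mem (h.uS_C u)) hu
  have h2 : IsCoprime (Ideal.span {uS e u}) M := loc_one M _ (loc_left (h.uS_M u))
  exact (h1.mul_right h2).of_isCoprime_of_dvd_right h.dvd

theorem LD.uS_add (h : LD x f C M b e) (u z : 𝓞 F) (hu : IsCoprime (Ideal.span {u}) C)
    (hz : z ≠ 0) (h1 : z - u ∈ C) (h2 : z - 1 ∈ M) :
    addI x (Ideal.span {uS e u}) = addI x (Ideal.span {z}) := by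
  refine addI_elt x f h.f0 h.ray 1 (Ideal.span {uS e u}) one_ne_zero (uS e u) z (h.uS_ne u) hz
    (mul_one _) (h.uS_cop u hu) ?_
  rw [mul_one]
  have e1 : uS e u - z ∈ C := by
    have e : uS e u - z = (uS e u - u) - (z - u) := by ring
    rw [e]
    exact C.sub_mem (h.uS_C u) h1
  have e2 : uS e u - z ∈ M := by
    have e : uS e u - z = (uS e u - 1) - (z - 1) := by ring
    rw [e]
    exact M.sub_mem (loc_left (h.uS_M u)) h2
  have e3 : uS e u - z ∈ C ⊓ M := Ideal.mem_inf.2 ⟨e1, e2⟩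
  rw [← Ideal.mul_eq_inf_of_isCoprime h.CM] at e3
  exact Ideal.le_of_dvd h.dvd e3

theorem LD.kap_MC (h : LD x f C M b e) (j : ZMod ℓ) :
    MC C (kap x C e j) (kap x C e (-j)) := by
  have hspan : ∀ u u' : 𝓞 F, Ideal.span {u * u'} = Ideal.span {u} * Ideal.span {u'} :=
    fun u u' => (Ideal.span_singleton_mul_span_singleton u u').symm
  have h1c : IsCoprime (Ideal.span {(1 : 𝓞 F)}) C := by
    rw [Ideal.span_singleton_one, ← Ideal.one_eq_top]
    exact isCoprime_one_left
  refine ⟨?_, ?_, ?_, ?_, ?_⟩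
  · intro u u' huu
    by_cases hu : IsCoprime (Ideal.span {u}) C
    · have hu' : IsCoprime (Ideal.span {u'}) C := coprime_congr C u u' huu hu
      have e1 : addI x (Ideal.span {uS e u'}) = addI x (Ideal.span {uS e u}) := by
        refine h.uS_add u' (uS e u) hu' (h.uS_ne u) ?_ (loc_left (h.uS_M u))
        have e : uS e u - u' = (uS e u - u) + (u - u') := by ring
        rw [e]
        exact C.add_mem (h.uS_C u) huu
      rw [kap, kap, if_pos hu, if_pos hu', e1]
    · have hu' : ¬ IsCoprime (Ideal.span {u'}) C := fun hu' =>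
        hu (coprime_congr C u' u (by rw [← neg_sub]; exact C.neg_mem huu) hu')
      rw [kap, kap, if_neg hu, if_neg hu']
  · intro u u'
    by_cases hu : IsCoprime (Ideal.span {u}) C
    · by_cases hu' : IsCoprime (Ideal.span {u'}) C
      · have huu : IsCoprime (Ideal.span {u * u'}) C := by
          rw [hspan]
          exact hu.mul_left hu'
        have e1 : addI x (Ideal.span {uS e (u * u')}) =
            addI x (Ideal.span {uS e u * uS e u'}) := by
          refine h.uS_add (u * u') (uS e u * uS e u') huu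
            (mul_ne_zero (h.uS_ne u) (h.uS_ne u')) ?_ ?_
          · have e : uS e u * uS e u' - u * u' =
                uS e u' * (uS e u - u) + u * (uS e u' - u') := by ring
            rw [e]
            exact C.add_mem (C.mul_mem_left _ (h.uS_C u)) (C.mul_mem_left _ (h.uS_C u'))
          · have e : uS e u * uS e u' - 1 = uS e u' * (uS e u - 1) + (uS e u' - 1) := by ring
            rw [e]
            exact M.add_mem (M.mul_mem_left _ (loc_left (h.uS_M u)))
              (loc_left (h.uS_M u'))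
        rw [kap, kap, kap, if_pos hu, if_pos hu', if_pos huu, e1,
          addI_span_mul x _ _ (h.uS_ne u) (h.uS_ne u'), mul_add, AddChar.map_add_eq_mul]
      · have huu : ¬ IsCoprime (Ideal.span {u * u'}) C := by
          rw [hspan]
          exact fun hh => hu' hh.of_mul_left_right
        rw [kap, kap, kap, if_neg hu', if_neg huu, mul_zero]
    · have huu : ¬ IsCoprime (Ideal.span {u * u'}) C := by
        rw [hspan]
        exact fun hh => hu hh.of_mul_left_left
      rw [kap, kap, kap, if_neg hu, if_neg huu, zero_mul]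
  · have e1 : uS e (1 : 𝓞 F) = 1 := by
      unfold uS
      ring
    rw [kap, if_pos h1c, e1, Ideal.span_singleton_one, ← Ideal.one_eq_top, addI_one, mul_zero,
      AddChar.map_zero_eq_one]
  · intro u hu
    rw [kap, kap, if_pos hu, if_pos hu, ← AddChar.map_add_eq_mul]
    have e1 : j * addI x (Ideal.span {uS e u}) + -j * addI x (Ideal.span {uS e u}) = 0 := by ring
    rw [e1, AddChar.map_zero_eq_one]
  · intro u hu
    rw [kap, if_neg hu]

theorem kap_zero (u : 𝓞 F) (hu : IsCoprime (Ideal.span {u}) C) : kap x C e 0 u = 1 := by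
  rw [kap, if_pos hu, zero_mul, AddChar.map_zero_eq_one]

theorem kap_of_not (j : ZMod ℓ) (u : 𝓞 F) (hu : ¬ IsCoprime (Ideal.span {u}) C) :
    kap x C e j u = 0 := by
  rw [kap, if_neg hu]

theorem kap_exists (j : ZMod ℓ) (u : 𝓞 F) (hu : IsCoprime (Ideal.span {u}) C) :
    ∃ a : ZMod ℓ, kap x C e j u = ZMod.stdAddChar a := by
  exact ⟨_, by rw [kap, if_pos hu]⟩

theorem LD.kap_neg_one (h : LD x f C M b e) (hodd : ℓ ≠ 2) (j : ZMod ℓ) :
    kap x C e j (-1) = 1 := by
  have hMC := h.kap_MC j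
  have e1 : kap x C e j (-1) * kap x C e j (-1) = 1 := by
    rw [← hMC.mul, neg_mul_neg, mul_one, hMC.one]
  have hc : IsCoprime (Ideal.span {(-1 : 𝓞 F)}) C := by
    by_contra hc
    rw [hMC.zero _ hc, mul_zero] at e1
    exact zero_ne_one e1
  obtain ⟨a, ha⟩ := kap_exists (x := x) (C := C) (e := e) j (-1) hc
  have e2 : kap x C e j (-1) ^ ℓ = 1 := by
    rw [ha, ← AddChar.map_nsmul_eq_pow, nsmul_eq_mul, ZMod.natCast_self, zero_mul,
      AddChar.map_zero_eq_one]
  obtain ⟨k, hk⟩ := hℓ.out.odd_of_ne_two hodd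
  have key : ∀ t : ℂ, t * t = 1 → t ^ ℓ = 1 → t = 1 := by
    intro t h1 h2
    rw [hk, pow_succ, pow_mul, pow_two, h1, one_pow, one_mul] at h2
    exact h2
  exact key _ e1 e2

theorem LD.kap_indep (h : LD x f C M b e) {b' : Ideal (𝓞 F)} {e' : 𝓞 F}
    (h' : LD x f C M b' e') (j : ZMod ℓ) (u : 𝓞 F) : kap x C e j u = kap x C e' j u := by
  by_cases hu : IsCoprime (Ideal.span {u}) C
  · rw [kap, kap, if_pos hu, if_pos hu, h.uS_add u (uS e' u) hu (h'.uS_ne u) (h'.uS_C u)
      (loc_left (h'.uS_M u))]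
  · rw [kap, kap, if_neg hu, if_neg hu]

end

end Pool.Agent.Lib.MP_1a91b9_nuW.WN
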