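import Pool.Agent.Lib.MP_1a91b9_nuW.WN.Loc

/-!
# G7, WN: the part of the character modulo `M b`

`gW_congr`: `Ideal.span {r + w} ⊔ M * b = Ideal.span {r} ⊔ M * b` for `w ∈ M * b`. If it is `b`: `r`, `r + w ∈ b`;
`rS e (r + w) - rS e r = w * (1 - e)` lies in `C` and in `M * b`, so in `f * b` (h.mem_fb). Let `I * b = span {rS e r}` (rS e r ∈ b as
`rS e r - r ∈ M * b`). `I` is coprime to `C * M`: coprime to `M` by `coprime_cofactor` (S4/Ray: IsCoprime I c iff
span {z} ⊔ c * b = b), as `span {rS e r} ⊔ M * b = span {r} ⊔ M * b = b`; coprime to `C`: `rS e r ≡ 1` mod `C` so `span {rS e r} = I * b` is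
coprime to `C`, hence `I` is. `rS e r ≠ 0` since `I ≠ 0` (nuT S4 ne_zero_of_coprime h.M1) and `b ≠ 0`. Then `addI_elt`.
`main`: `r ≠ 0` and `I * b = span {r}`; `z' = uS e r * rS e r` satisfies `z' - r ∈ C` (`≡ r * 1`) and `∈ M * b` (`≡ 1 * r`:
`z' - r = (uS e r - 1) * rS e r + (rS e r - r)`), so `∈ f * b`; `I` is coprime to `f` (`f ∣ C * M`). By `addI_elt` and `addI_span_mul`:
`addI x (span {r}) = addI x (span {uS e r}) + addI x (span {rS e r})`, and `addI x (span {r}) = addI x I + addI x b` (`addI_mul`).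
`r` is coprime to `C` (`span {r} = I * b`, h.Cb) and `span {r} ⊔ M * b = b` (`coprime_cofactor`), so both `if` are the first case;
`AddChar.map_add_eq_mul` backwards.
-/

set_option autoImplicit false

namespace Pool.Agent.Lib.MP_1a91b9_nuW.WN

variable [Pool.Agent.Lib.MP_1a91b9_nuT.CD]

open Pool.Agent.Lib.MP_1a91b9_nuT hiding cj
open NumberField IsDedekindDomain Module Pool.Agent.Lib.MP_1a91b9_nt
  Pool.Agent.Lib.MP_1a91b9_nuT.S4 Pool.Agent.Lib.MP_1a91b9_nuG Pool.Agent.Lib.MP_1a91b9_nuX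

universe u

section
variable {F : Type u} [Field F] [NumberField F] {ℓ : ℕ} [hℓ : Fact ℓ.Prime]
  {x : HeightOneSpectrum (𝓞 F) → ZMod ℓ} {f C M b : Ideal (𝓞 F)} {e : 𝓞 F}

private theorem locg_sup (N : Ideal (𝓞 F)) (r w : 𝓞 F) (hw : w ∈ N) :
    Ideal.span {r + w} ⊔ N = Ideal.span {r} ⊔ N := by
  have key : ∀ a c : 𝓞 F, c ∈ N → Ideal.span {a + c} ⊔ N ≤ Ideal.span {a} ⊔ N := by
    intro a c hc
    refine sup_le ?_ le_sup_right
    rw [Ideal.span_singleton_le_iff_mem]
    exact Ideal.add_mem _ ((le_sup_left : Ideal.span {a} ≤ _) (Ideal.mem_span_singleton_self a))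
      ((le_sup_right : N ≤ _) hc)
  refine le_antisymm (key r w hw) ?_
  have h1 := key (r + w) (-w) (N.neg_mem hw)
  rwa [add_neg_cancel_right] at h1

private theorem locg_data (h : LD x f C M b e) (r : 𝓞 F) (hr : Ideal.span {r} ⊔ M * b = b) :
    rS e r ≠ 0 ∧ ∃ I : Ideal (𝓞 F), I * b = Ideal.span {rS e r} ∧ IsCoprime I f := by
  have hrb : r ∈ b := by
    rw [← hr]
    exact (le_sup_left : Ideal.span {r} ≤ _) (Ideal.mem_span_singleton_self r)
  have h1 : rS e r ∈ b := by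
    have h2 := b.add_mem (Ideal.mul_le_right (h.rS_M r)) hrb
    rwa [sub_add_cancel] at h2
  obtain ⟨I, hI⟩ := Ideal.dvd_span_singleton.mpr h1
  have hI' : I * b = Ideal.span {rS e r} := by rw [hI, mul_comm]
  have hIM : IsCoprime I M := by
    rw [coprime_cofactor h.b0 hI']
    have h2 := locg_sup (M * b) r (rS e r - r) (h.rS_M r)
    rw [add_sub_cancel] at h2
    rw [h2, hr]
  have hIC : IsCoprime I C := by
    have h2 : IsCoprime (Ideal.span {rS e r}) C := by
      refine coprime_congr C 1 (rS e r) ?_ ?_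
      · have h3 := C.neg_mem (h.rS_C r)
        rwa [neg_sub] at h3
      · rw [Ideal.span_singleton_one, ← Ideal.one_eq_top]
        exact isCoprime_one_left
    rw [← hI'] at h2
    exact h2.of_mul_left_left
  have hI0 : I ≠ 0 := ne_zero_of_coprime h.M1 hIM
  refine ⟨?_, I, hI', IsCoprime.of_isCoprime_of_dvd_right (hIC.mul_right hIM) h.dvd⟩
  intro h0
  rw [h0, Ideal.span_singleton_zero] at hI'
  exact mul_ne_zero hI0 h.b0 hI'

theorem LD.gW_congr (h : LD x f C M b e) (j : ZMod ℓ) (r w : 𝓞 F) (hw : w ∈ M * b) :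
    gW x M b e j (r + w) = gW x M b e j r := by
  have hs := locg_sup (M * b) r w hw
  unfold gW
  rw [hs]
  by_cases hr : Ideal.span {r} ⊔ M * b = b
  · rw [if_pos hr, if_pos hr]
    obtain ⟨hz, I, hI, hIf⟩ := locg_data h r hr
    obtain ⟨hz', -⟩ := locg_data h (r + w) (by rw [hs, hr])
    have hd : rS e r - rS e (r + w) = w * (e - 1) := by
      unfold rS
      ring
    have h1 : rS e r - rS e (r + w) ∈ f * b := by
      rw [hd]
      exact h.mem_fb _ (C.mul_mem_left _ h.e1) ((M * b).mul_mem_right _ hw)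
    rw [addI_elt x f h.f0 h.ray b I h.b0 (rS e r) (rS e (r + w)) hz hz' hI hIf h1]
  · rw [if_neg hr, if_neg hr]

theorem gW_zero (r : 𝓞 F) (hr : Ideal.span {r} ⊔ M * b = b) : gW x M b e 0 r = 1 := by
  rw [gW, if_pos hr, zero_mul, AddChar.map_zero_eq_one]

theorem gW_of_not (j : ZMod ℓ) (r : 𝓞 F) (hr : ¬ Ideal.span {r} ⊔ M * b = b) :
    gW x M b e j r = 0 := by
  rw [gW, if_neg hr]

theorem gW_exists (j : ZMod ℓ) (r : 𝓞 F) (hr : Ideal.span {r} ⊔ M * b = b) :
    ∃ a : ZMod ℓ, gW x M b e j r = ZMod.stdAddChar a :=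
  ⟨_, by rw [gW, if_pos hr]⟩

theorem LD.main (h : LD x f C M b e) (j : ZMod ℓ) (I : Ideal (𝓞 F)) (r : 𝓞 F)
    (hI : I * b = Ideal.span {r}) (hIC : IsCoprime I C) (hIM : IsCoprime I M) :
    ZMod.stdAddChar (j * addI x I) = kap x C e j r * gW x M b e j r := by
  have hI0 : I ≠ 0 := ne_zero_of_coprime h.M1 hIM
  have hr0 : r ≠ 0 := by
    rintro rfl
    rw [Ideal.span_singleton_zero] at hI
    exact mul_ne_zero hI0 h.b0 hI
  have hrC : IsCoprime (Ideal.span {r}) C := by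
    rw [← hI]
    exact hIC.mul_left h.Cb.symm
  have hr : Ideal.span {r} ⊔ M * b = b := (coprime_cofactor h.b0 hI).1 hIM
  have hIf : IsCoprime I f := IsCoprime.of_isCoprime_of_dvd_right (hIC.mul_right hIM) h.dvd
  obtain ⟨hz, -⟩ := locg_data h r hr
  have hu := h.uS_ne r
  have h1 : r - uS e r * rS e r ∈ f * b := by
    refine h.mem_fb _ ?_ ?_
    · have e1 : r - uS e r * rS e r = -((uS e r - r) * rS e r + r * (rS e r - 1)) := by ring
      rw [e1]
      exact C.neg_mem (C.add_mem (C.mul_mem_right _ (h.uS_C r)) (C.mul_mem_left _ (h.rS_C r)))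
    · have e1 : r - uS e r * rS e r = -((uS e r - 1) * rS e r + (rS e r - r)) := by ring
      rw [e1]
      exact (M * b).neg_mem ((M * b).add_mem ((M * b).mul_mem_right _ (h.uS_M r)) (h.rS_M r))
  have h2 := addI_elt x f h.f0 h.ray b I h.b0 r (uS e r * rS e r) hr0 (mul_ne_zero hu hz) hI hIf h1
  rw [addI_span_mul x _ _ hu hz, ← hI, addI_mul x I b hI0 h.b0] at h2
  have h3 : addI x I = addI x (Ideal.span {uS e r}) +
      (addI x (Ideal.span {rS e r}) - addI x b) := by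
    rw [add_sub, ← h2, add_sub_cancel_right]
  rw [kap, if_pos hrC, gW, if_pos hr, ← AddChar.map_add_eq_mul, ← mul_add, ← h3]

end

end Pool.Agent.Lib.MP_1a91b9_nuW.WN
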