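import Pool.Agent.Lib.MP_1a91b9_nuW.WN.Defs

/-!
# G7, WN: Ramanujan sums modulo an ideal

`sum_sub`: `∑_{u mod C, u ∈ D} ψ (u r) = [r ∈ E] N(E)` for `C = D * E`: let `H` be the additive subgroup of the classes
`U` with `out U ∈ D` (= image of `D`, since `C ≤ D`; the kernel of `𝓞 F ⧸ C → 𝓞 F ⧸ D`, `Ideal.Quotient.factor`), of cardinality
`N(C) / N(D) = N(E)` (`Ideal.absNorm` is multiplicative, `absNorm I = Nat.card (𝓞 F ⧸ I)` (rfl, `Submodule.cardQuot`),
first isomorphism theorem / `AddSubgroup.card_eq_card_quotient_mul_card_addSubgroup`). If `r ∈ E` then `u r ∈ D * E = C` and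
all terms are `1`. If `r ∉ E`: there is `c ∈ D` with `ψ (c r) ≠ 1` — otherwise `ψ (a c r) = 1` for all `a`, `c ∈ D` gives
`c r ∈ C` for all `c ∈ D` (nd), `D * span {r} ≤ D * E`, `r ∈ E` (cancel `D ≠ 0`) — and shifting by `c` shows that the sum is `0`.
`gsum_ram`: `[u coprime to C] = ∏_{v ∈ S} (1 + (-[u ∈ v])) ` (u is coprime to `C` iff `u ∉ v` for all `v` with `C ≤ v`:
S4 `le_iff_not_coprime`-style lemma / `Ideal.exists_le_maximal`), expand by `Finset.prod_add` (with `f = 1`, `g = -[u ∈ v]`):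
`= ∑_{T ⊆ S} ∏_{v ∈ S \ T} (-[u ∈ v]) = ∑_T (∏_{S \ T} (-1)) * [u ∈ dT (S \ T)]` (distinct maximal ideals: `u` lies in the product
iff in all of them: `Ideal.prod_eq_iInf_of...`, or `Finset.prod_dvd_of_coprime`). Then `sum_sub` with `D = dT (S \ T)`,
`E = dT T * C₂`, `D * E = C` (`Finset.prod_sdiff`).
-/

set_option autoImplicit false

namespace Pool.Agent.Lib.MP_1a91b9_nuW.WN

variable [Pool.Agent.Lib.MP_1a91b9_nuT.CD]

open Pool.Agent.Lib.MP_1a91b9_nuT hiding cj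
open NumberField IsDedekindDomain Module Pool.Agent.Lib.MP_1a91b9_nt
  Pool.Agent.Lib.MP_1a91b9_nuT.S4 Pool.Agent.Lib.MP_1a91b9_nuG Pool.Agent.Lib.MP_1a91b9_nuX

universe u

section
variable {F : Type u} [Field F] [NumberField F]

omit [CD] in
/-- the number of the classes modulo `C` in `D` -/
private theorem rams_card (C D E : Ideal (𝓞 F)) (hC : C ≠ 0) (hDE : C = D * E) :
    Nat.card {U : 𝓞 F ⧸ C // Quotient.out U ∈ D} = Ideal.absNorm E := by
  have hCD : C ≤ D := by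
    rw [hDE]
    exact (Ideal.mul_le_left : D * E ≤ D)
  have hD : D ≠ 0 := by
    rintro rfl
    exact hC (by rw [hDE, zero_mul])
  obtain ⟨g, hg⟩ : ∃ g : (𝓞 F ⧸ C) →+ (𝓞 F ⧸ D),
      g = (Ideal.Quotient.factor hCD : (𝓞 F ⧸ C) →+* (𝓞 F ⧸ D)).toAddMonoidHom := ⟨_, rfl⟩
  have hmk : ∀ x : 𝓞 F, g (Ideal.Quotient.mk C x) = Ideal.Quotient.mk D x := by
    intro x
    rw [hg]
    rfl
  have hsurj : Function.Surjective g := by
    intro y
    obtain ⟨x, rfl⟩ := Ideal.Quotient.mk_surjective y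
    exact ⟨Ideal.Quotient.mk C x, hmk x⟩
  have hker : ∀ U : 𝓞 F ⧸ C, U ∈ g.ker ↔ Quotient.out U ∈ D := by
    intro U
    have h1 : g U = Ideal.Quotient.mk D (Quotient.out U) := by
      rw [← hmk]
      exact congrArg g (Quotient.out_eq U).symm
    rw [AddMonoidHom.mem_ker, h1, Ideal.Quotient.eq_zero_iff_mem]
  have h1 : Nat.card (𝓞 F ⧸ C) = Nat.card ((𝓞 F ⧸ C) ⧸ g.ker) * Nat.card g.ker :=
    AddSubgroup.card_eq_card_quotient_mul_card_addSubgroup _
  have h2 : Nat.card ((𝓞 F ⧸ C) ⧸ g.ker) = Nat.card (𝓞 F ⧸ D) :=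
    Nat.card_congr (QuotientAddGroup.quotientKerEquivOfSurjective g hsurj).toEquiv
  have h3 : Nat.card (𝓞 F ⧸ C) = Ideal.absNorm D * Ideal.absNorm E := by
    rw [← map_mul, ← hDE]
    rfl
  have h4 : Nat.card (𝓞 F ⧸ D) = Ideal.absNorm D := rfl
  rw [h2, h3, h4] at h1
  have h5 : Ideal.absNorm D ≠ 0 := by
    rw [Ne, Ideal.absNorm_eq_zero_iff]
    exact hD
  have h6 : Nat.card {U : 𝓞 F ⧸ C // Quotient.out U ∈ D} = Nat.card g.ker :=
    Nat.card_congr (Equiv.subtypeEquivRight fun U => (hker U).symm)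
  rw [h6]
  exact (Nat.eq_of_mul_eq_mul_left (Nat.pos_of_ne_zero h5) h1).symm

open Classical in
theorem sum_sub (C D E : Ideal (𝓞 F)) [Fintype (𝓞 F ⧸ C)] (hC : C ≠ 0) (hDE : C = D * E)
    {ψ : 𝓞 F → ℂ} (hψ : AC C ψ) (r : 𝓞 F) :
    ∑ U : 𝓞 F ⧸ C, (if Quotient.out U ∈ D then (1 : ℂ) else 0) * ψ (Quotient.out U * r) =
      if r ∈ E then (Ideal.absNorm E : ℂ) else 0 := by
  have hCD : C ≤ D := by
    rw [hDE]
    exact (Ideal.mul_le_left : D * E ≤ D)
  have hD : D ≠ 0 := by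
    rintro rfl
    exact hC (by rw [hDE, zero_mul])
  by_cases hr : r ∈ E
  · rw [if_pos hr]
    have h1 : ∀ U : 𝓞 F ⧸ C, (if Quotient.out U ∈ D then (1 : ℂ) else 0) *
        ψ (Quotient.out U * r) = if Quotient.out U ∈ D then (1 : ℂ) else 0 := by
      intro U
      split_ifs with h
      · rw [one_mul]
        refine hψ.tr _ ?_
        have h0 : Quotient.out U * r ∈ D * E := Ideal.mul_mem_mul h hr
        exact hDE.symm ▸ h0
      · rw [zero_mul]
    rw [Finset.sum_congr rfl fun U _ => h1 U, Finset.sum_boole, ← rams_card C D E hC hDE,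
      Nat.card_eq_fintype_card, Fintype.card_subtype]
  · rw [if_neg hr]
    obtain ⟨c, hc, hcr⟩ : ∃ c ∈ D, ψ (c * r) ≠ 1 := by
      by_contra hcon
      push Not at hcon
      apply hr
      have h1 : ∀ c ∈ D, c * r ∈ C := by
        intro c hc
        refine hψ.nd _ fun a => ?_
        rw [← mul_assoc]
        exact hcon _ (D.mul_mem_left a hc)
      have h2 : D * Ideal.span {r} ≤ D * E := by
        rw [← hDE, Ideal.mul_le]
        intro x hx y hy
        obtain ⟨a, rfl⟩ := Ideal.mem_span_singleton'.1 hy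
        have h3 : x * (a * r) = (a * x) * r := by ring
        rw [h3]
        exact h1 _ (D.mul_mem_left a hx)
      have h4 : E ∣ Ideal.span {r} := (mul_dvd_mul_iff_left hD).1 (Ideal.dvd_iff_le.2 h2)
      exact (Ideal.dvd_span_singleton).1 h4
    obtain ⟨S, hS⟩ : ∃ S, S = ∑ U : 𝓞 F ⧸ C, (if Quotient.out U ∈ D then (1 : ℂ) else 0) *
        ψ (Quotient.out U * r) := ⟨_, rfl⟩
    have h1 : S = ψ (c * r) * S := by
      have h2 : S = ∑ U : 𝓞 F ⧸ C,
          (if Quotient.out (U + Ideal.Quotient.mk C c) ∈ D then (1 : ℂ) else 0) *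
            ψ (Quotient.out (U + Ideal.Quotient.mk C c) * r) := by
        rw [hS]
        exact (Equiv.sum_comp (Equiv.addRight (Ideal.Quotient.mk C c)) fun U : 𝓞 F ⧸ C =>
          (if Quotient.out U ∈ D then (1 : ℂ) else 0) * ψ (Quotient.out U * r)).symm
      rw [h2]
      conv_rhs => rw [← h2, hS, Finset.mul_sum]
      refine Finset.sum_congr rfl fun U _ => ?_
      have h3 : Quotient.out (U + Ideal.Quotient.mk C c) - (Quotient.out U + c) ∈ C := by
        rw [← Ideal.Quotient.eq, map_add]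
        have e1 : Ideal.Quotient.mk C (Quotient.out (U + Ideal.Quotient.mk C c)) =
          U + Ideal.Quotient.mk C c := Quotient.out_eq _
        have e2 : Ideal.Quotient.mk C (Quotient.out U) = U := Quotient.out_eq _
        rw [e1, e2]
      obtain ⟨x, hx⟩ : ∃ x, x = Quotient.out (U + Ideal.Quotient.mk C c) -
        (Quotient.out U + c) := ⟨_, rfl⟩
      rw [← hx] at h3
      have h4 : Quotient.out (U + Ideal.Quotient.mk C c) = Quotient.out U + c + x := by
        rw [hx]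
        ring
      have h5 : (Quotient.out (U + Ideal.Quotient.mk C c) ∈ D) ↔ Quotient.out U ∈ D := by
        rw [h4, add_assoc]
        exact D.add_mem_iff_left (D.add_mem hc (hCD h3))
      have h6 : ψ (Quotient.out (U + Ideal.Quotient.mk C c) * r) =
          ψ (c * r) * ψ (Quotient.out U * r) := by
        rw [h4, add_mul, add_mul, hψ.add, hψ.add, hψ.tr _ (C.mul_mem_right r h3), mul_one, mul_comm]
      rw [h6]
      by_cases h7 : Quotient.out U ∈ D
      · rw [if_pos h7, if_pos (h5.2 h7)]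
        ring
      · rw [if_neg h7, if_neg (fun h => h7 (h5.1 h))]
        ring
    rw [← hS]
    have h8 : (ψ (c * r) - 1) * S = 0 := by
      linear_combination -h1
    rcases mul_eq_zero.1 h8 with h9 | h9
    · exact absurd (sub_eq_zero.1 h9) hcr
    · exact h9

open Classical in
private theorem ramsb_mem_dT (U : Finset (HeightOneSpectrum (𝓞 F))) (u : 𝓞 F) :
    u ∈ dT U ↔ ∀ v ∈ U, u ∈ v.asIdeal := by
  rw [← Ideal.dvd_span_singleton]
  constructor
  · intro h v hv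
    rw [← Ideal.dvd_span_singleton]
    exact (Finset.dvd_prod_of_mem (fun v : HeightOneSpectrum (𝓞 F) => v.asIdeal) hv).trans h
  · intro h
    unfold dT
    refine Finset.prod_dvd_of_coprime ?_ fun v hv => Ideal.dvd_span_singleton.mpr (h v hv)
    intro v _ w _ hvw
    have hne : v.asIdeal ≠ w.asIdeal := fun h' => hvw (HeightOneSpectrum.ext h')
    have h1 : v.asIdeal ⊔ w.asIdeal = ⊤ := Ideal.IsMaximal.coprime_of_ne v.isMaximal w.isMaximal hne
    exact Ideal.isCoprime_iff_sup_eq.mpr h1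

open Classical in
private theorem ramsb_prod (U : Finset (HeightOneSpectrum (𝓞 F))) (u : 𝓞 F) :
    ∏ v ∈ U, (-(if u ∈ v.asIdeal then (1 : ℂ) else 0)) =
      (∏ _v ∈ U, (-1 : ℂ)) * (if u ∈ dT U then 1 else 0) := by
  have h1 : ∏ v ∈ U, (-(if u ∈ v.asIdeal then (1 : ℂ) else 0)) =
      ∏ v ∈ U, ((-1 : ℂ) * (if u ∈ v.asIdeal then (1 : ℂ) else 0)) :=
    Finset.prod_congr rfl fun v _ => (neg_one_mul _).symm
  rw [h1, Finset.prod_mul_distrib]
  refine congrArg (fun t => (∏ _v ∈ U, (-1 : ℂ)) * t) ?_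
  by_cases h : u ∈ dT U
  · rw [if_pos h]
    exact Finset.prod_eq_one fun v hv => if_pos ((ramsb_mem_dT U u).mp h v hv)
  · rw [if_neg h]
    rw [ramsb_mem_dT] at h
    push Not at h
    obtain ⟨v, hv, hu⟩ := h
    exact Finset.prod_eq_zero hv (if_neg hu)

open Classical in
private theorem ramsb_kap (S : Finset (HeightOneSpectrum (𝓞 F))) (C : Ideal (𝓞 F)) (hC : C ≠ 0)
    (hS : ∀ v : HeightOneSpectrum (𝓞 F), v ∈ S ↔ C ≤ v.asIdeal) {κ : 𝓞 F → ℂ}
    (h1 : ∀ u, IsCoprime (Ideal.span {u}) C → κ u = 1)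
    (h0 : ∀ u, ¬ IsCoprime (Ideal.span {u}) C → κ u = 0) (u : 𝓞 F) :
    κ u = ∏ v ∈ S, (1 + (-(if u ∈ v.asIdeal then (1 : ℂ) else 0))) := by
  by_cases h : IsCoprime (Ideal.span {u}) C
  · rw [h1 u h]
    refine (Finset.prod_eq_one fun v hv => ?_).symm
    have h2 : u ∉ v.asIdeal := by
      intro hu
      have h3 : Ideal.span {u} ⊔ C = ⊤ := Ideal.isCoprime_iff_sup_eq.mp h
      have h4 : Ideal.span {u} ⊔ C ≤ v.asIdeal :=
        sup_le ((Ideal.span_singleton_le_iff_mem _).mpr hu) ((hS v).mp hv)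
      rw [h3, top_le_iff] at h4
      exact v.isPrime.ne_top h4
    rw [if_neg h2, neg_zero, add_zero]
  · rw [h0 u h]
    have h2 : Ideal.span {u} ⊔ C ≠ ⊤ := fun h3 => h (Ideal.isCoprime_iff_sup_eq.mpr h3)
    obtain ⟨m, hm, hle⟩ := Ideal.exists_le_maximal _ h2
    have hm0 : m ≠ ⊥ := by
      intro h3
      rw [h3] at hle
      exact hC (le_bot_iff.mp (le_sup_right.trans hle))
    have hmS : (⟨m, hm.isPrime, hm0⟩ : HeightOneSpectrum (𝓞 F)) ∈ S :=
      (hS _).mpr (le_sup_right.trans hle)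
    refine (Finset.prod_eq_zero hmS ?_).symm
    have hu : u ∈ m := (Ideal.span_singleton_le_iff_mem _).mp (le_sup_left.trans hle)
    have h4 : (if u ∈ m then (1 : ℂ) else 0) = 1 := if_pos hu
    show 1 + (-(if u ∈ m then (1 : ℂ) else 0)) = 0
    rw [h4]
    norm_num

open Classical in
theorem gsum_ram (S : Finset (HeightOneSpectrum (𝓞 F))) (C C₂ : Ideal (𝓞 F))
    [Fintype (𝓞 F ⧸ C)] (hC : C ≠ 0) (hC₂ : C = dT S * C₂)
    (hS : ∀ v : HeightOneSpectrum (𝓞 F), v ∈ S ↔ C ≤ v.asIdeal) {κ ψ : 𝓞 F → ℂ}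
    (hψ : AC C ψ) (h1 : ∀ u, IsCoprime (Ideal.span {u}) C → κ u = 1)
    (h0 : ∀ u, ¬ IsCoprime (Ideal.span {u}) C → κ u = 0) (r : 𝓞 F) :
    gsum C κ ψ r = ∑ T ∈ S.powerset, (∏ _v ∈ S \ T, (-1 : ℂ)) *
      (Ideal.absNorm (dT T * C₂) : ℂ) * (if r ∈ dT T * C₂ then 1 else 0) := by
  unfold gsum
  have hterm : ∀ U : 𝓞 F ⧸ C, κ (Quotient.out U) * ψ (Quotient.out U * r) =
      ∑ T ∈ S.powerset, (∏ _v ∈ S \ T, (-1 : ℂ)) *
        ((if Quotient.out U ∈ dT (S \ T) then (1 : ℂ) else 0) * ψ (Quotient.out U * r)) := by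
    intro U
    rw [ramsb_kap S C hC hS h1 h0 (Quotient.out U), Finset.prod_add, Finset.sum_mul]
    refine Finset.sum_congr rfl fun T _ => ?_
    rw [ramsb_prod, Finset.prod_const_one, one_mul, mul_assoc]
  rw [Finset.sum_congr rfl fun U _ => hterm U, Finset.sum_comm]
  refine Finset.sum_congr rfl fun T hT => ?_
  rw [← Finset.mul_sum]
  have hDE : C = dT (S \ T) * (dT T * C₂) := by
    rw [hC₂, ← mul_assoc]
    refine congrArg (fun t => t * C₂) ?_
    unfold dT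
    exact (Finset.prod_sdiff (Finset.mem_powerset.mp hT)).symm
  rw [sum_sub C (dT (S \ T)) (dT T * C₂) hC hDE hψ r, mul_assoc]
  refine congrArg (fun t => (∏ _v ∈ S \ T, (-1 : ℂ)) * t) ?_
  by_cases h : r ∈ dT T * C₂
  · rw [if_pos h, if_pos h, mul_one]
  · rw [if_neg h, if_neg h, mul_zero]

end

end Pool.Agent.Lib.MP_1a91b9_nuW.WN
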