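import Pool.Agent.Lib.MP_1a91b9_nuW.WN.Defs

/-!
# G7, WN: ray class invariance modulo the conductor

`addI_rayW`: the proof of `nuG.addI_ray` (file nuG/RayC) with the ray property of the ideal `f` in place of
`CFData.recip`: `RayEq.normalize` gives `b, z, z'` with `I * b = span {z}`, `J * b = span {z'}`, `z - z' ∈ f * b` and
`IsCoprime b f`; by `exists_inv_mod` there is `y` with `z * y - 1 ∈ f` and `z' * y - 1 ∈ f`; if `y = 0` then `f = ⊤` and `hray`
gives `addI x (span {z}) = 0 = addI x (span {z'})`; otherwise `hray` for `z * y` and `z' * y` and `addI_span_mul` give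
`addI x (span {z}) = addI x (span {z'})`; cancel `addI x b` by `addI_mul`.
`addI_elt`: `z' ∈ b`, so `J * b = span {z'}` for some `J` (Ideal.dvd_span_singleton) and `RayEq f I J` by
`⟨b, z, z', hb, hz, hz', hI, hJ, h⟩`; apply `addI_rayW` and `addI_mul`.
`addI_pow`: `addI_elt` with `b = 1`, `I = span {β}`, `z' = z ^ ℓ`; then `addI x (span {z ^ ℓ}) = ℓ • addI x (span {z}) = 0`
(induction over the exponent with `addI_span_mul`, `ZMod.natCast_self`).
-/

set_option autoImplicit false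

namespace Pool.Agent.Lib.MP_1a91b9_nuW.WN

variable [Pool.Agent.Lib.MP_1a91b9_nuT.CD]

open Pool.Agent.Lib.MP_1a91b9_nuT hiding cj
open NumberField IsDedekindDomain Module Pool.Agent.Lib.MP_1a91b9_nt
  Pool.Agent.Lib.MP_1a91b9_nuT.S4 Pool.Agent.Lib.MP_1a91b9_nuG Pool.Agent.Lib.MP_1a91b9_nuX

universe u

section
variable {F : Type u} [Field F] [NumberField F] {ℓ : ℕ} [hℓ : Fact ℓ.Prime]

private theorem ray_span_eq (x : HeightOneSpectrum (𝓞 F) → ZMod ℓ) (f : Ideal (𝓞 F))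
    (hray : ∀ z : 𝓞 F, z ≠ 0 → z - 1 ∈ f → addI x (Ideal.span {z}) = 0)
    (z z' y : 𝓞 F) (hz : z ≠ 0) (hz' : z' ≠ 0) (e1 : z * y - 1 ∈ f) (e2 : z' * y - 1 ∈ f) :
    addI x (Ideal.span {z}) = addI x (Ideal.span {z'}) := by
  by_cases hy : y = 0
  · subst hy
    have hm1 : f = ⊤ := by
      rw [Ideal.eq_top_iff_one]
      rw [mul_zero, zero_sub] at e1
      exact f.neg_mem_iff.mp e1
    have r1 := hray z hz (by rw [hm1]; exact Submodule.mem_top)
    have r2 := hray z' hz' (by rw [hm1]; exact Submodule.mem_top)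
    rw [r1, r2]
  have r1 := hray (z * y) (mul_ne_zero hz hy) e1
  have r2 := hray (z' * y) (mul_ne_zero hz' hy) e2
  rw [addI_span_mul x z y hz hy] at r1
  rw [addI_span_mul x z' y hz' hy] at r2
  exact add_right_cancel (r1.trans r2.symm)

private theorem ray_pow (x : HeightOneSpectrum (𝓞 F) → ZMod ℓ) (z : 𝓞 F) (hz : z ≠ 0) (n : ℕ) :
    addI x (Ideal.span {z ^ n}) = n * addI x (Ideal.span {z}) := by
  induction n with
  | zero =>
    rw [pow_zero, Ideal.span_singleton_one, ← Ideal.one_eq_top, addI_one, Nat.cast_zero, zero_mul]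
  | succ n ih =>
    rw [pow_succ, addI_span_mul x _ _ (pow_ne_zero n hz) hz, ih, Nat.cast_succ, add_mul, one_mul]

theorem addI_rayW (x : HeightOneSpectrum (𝓞 F) → ZMod ℓ) (f : Ideal (𝓞 F)) (hf0 : f ≠ 0)
    (hray : ∀ z : 𝓞 F, z ≠ 0 → z - 1 ∈ f → addI x (Ideal.span {z}) = 0)
    (I J : Ideal (𝓞 F)) (hI : IsCoprime I f) (h : RayEq f I J) : addI x I = addI x J := by
  obtain ⟨b, z, z', hb, hz, hz', h1, h2, h3, h4⟩ := h.normalize f hf0
  have hI0 : I ≠ 0 := by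
    intro h0
    rw [h0, zero_mul, Ideal.zero_eq_bot, eq_comm, Ideal.span_singleton_eq_bot] at h1
    exact hz h1
  have hJ0 : J ≠ 0 := by
    intro h0
    rw [h0, zero_mul, Ideal.zero_eq_bot, eq_comm, Ideal.span_singleton_eq_bot] at h2
    exact hz' h2
  have hzm : IsCoprime (Ideal.span {z}) f := by
    rw [← h1]
    exact hI.mul_left h4
  obtain ⟨y, e1, e2⟩ := exists_inv_mod f z z' hzm (Ideal.mul_le_left h3)
  have h5 := ray_span_eq x f hray z z' y hz hz' e1 e2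
  rw [← h1, ← h2, addI_mul _ _ _ hI0 hb, addI_mul _ _ _ hJ0 hb] at h5
  exact add_right_cancel h5

theorem addI_elt (x : HeightOneSpectrum (𝓞 F) → ZMod ℓ) (f : Ideal (𝓞 F)) (hf0 : f ≠ 0)
    (hray : ∀ z : 𝓞 F, z ≠ 0 → z - 1 ∈ f → addI x (Ideal.span {z}) = 0)
    (b I : Ideal (𝓞 F)) (hb : b ≠ 0) (z z' : 𝓞 F) (hz : z ≠ 0) (hz' : z' ≠ 0)
    (hI : I * b = Ideal.span {z}) (hIf : IsCoprime I f) (h : z - z' ∈ f * b) :
    addI x (Ideal.span {z}) = addI x (Ideal.span {z'}) := by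
  have hzb : z ∈ b := by
    have h0 : z ∈ Ideal.span {z} := Ideal.mem_span_singleton_self z
    rw [← hI] at h0
    exact (Ideal.mul_le_right : I * b ≤ b) h0
  have hzb' : z' ∈ b := by
    have h0 : z - z' ∈ b := (Ideal.mul_le_right : f * b ≤ b) h
    have h1 : z' = z - (z - z') := by ring
    rw [h1]
    exact b.sub_mem hzb h0
  obtain ⟨J, hJ⟩ := Ideal.dvd_span_singleton.2 hzb'
  have hJ' : J * b = Ideal.span {z'} := by rw [hJ, mul_comm]
  have hI0 : I ≠ 0 := by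
    intro h0
    rw [h0, zero_mul, Ideal.zero_eq_bot, eq_comm, Ideal.span_singleton_eq_bot] at hI
    exact hz hI
  have hJ0 : J ≠ 0 := by
    intro h0
    rw [h0, zero_mul, Ideal.zero_eq_bot, eq_comm, Ideal.span_singleton_eq_bot] at hJ'
    exact hz' hJ'
  have hr : RayEq f I J := ⟨b, z, z', hb, hz, hz', hI, hJ', h⟩
  have h1 := addI_rayW x f hf0 hray I J hIf hr
  rw [← hI, ← hJ', addI_mul _ _ _ hI0 hb, addI_mul _ _ _ hJ0 hb, h1]

theorem addI_pow (x : HeightOneSpectrum (𝓞 F) → ZMod ℓ) (f : Ideal (𝓞 F)) (hf0 : f ≠ 0)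
    (hray : ∀ z : 𝓞 F, z ≠ 0 → z - 1 ∈ f → addI x (Ideal.span {z}) = 0)
    (z β : 𝓞 F) (hz : z ≠ 0) (hβ : β ≠ 0) (hc : IsCoprime (Ideal.span {β}) f)
    (h : β - z ^ ℓ ∈ f) : addI x (Ideal.span {β}) = 0 := by
  have h1 := addI_elt x f hf0 hray 1 (Ideal.span {β}) one_ne_zero β (z ^ ℓ) hβ (pow_ne_zero ℓ hz)
    (mul_one _) hc (by rw [mul_one]; exact h)
  rw [h1, ray_pow x z hz, ZMod.natCast_self, zero_mul]

end

end Pool.Agent.Lib.MP_1a91b9_nuW.WN
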